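import Pool.Agent.Lib.MP_fce888_co.G.Stm

set_option autoImplicit false

namespace Pool.Agent.Lib.MP_fce888_co.G

open Finset
open scoped Classical

private lemma e1_cover {V : Type} [Fintype V] (h : S_notUP) (G : SimpleGraph V) (R : ℕ) :
    (univ.filter fun v => ¬ UP G R v).card ≤
      ∑ m ∈ range (2 * R + 1), ∑ i ∈ Ico 2 m, (lol G m i).card := by
  have h1 : (univ.filter fun v => ¬ UP G R v).card =
      ((univ.filter fun v => ¬ UP G R v).image fun v => some v).card :=
    (Finset.card_image_of_injective _ (Option.some_injective V)).symm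
  rw [h1]
  have hsub : ((univ.filter fun v => ¬ UP G R v).image fun v => some v) ⊆
      (range (2 * R + 1)).biUnion fun m => (Ico 2 m).biUnion fun i =>
        (lol G m i).image fun s => s.getLast? := by
    intro o ho
    rw [Finset.mem_image] at ho
    obtain ⟨v, hv, rfl⟩ := ho
    rw [Finset.mem_filter] at hv
    obtain ⟨m, i, hm, hi, him, s, hs, hl⟩ := h V G R v hv.2
    rw [Finset.mem_biUnion]
    refine ⟨m, Finset.mem_range.2 (by omega), ?_⟩
    rw [Finset.mem_biUnion]
    refine ⟨i, Finset.mem_Ico.2 ⟨hi, him⟩, ?_⟩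
    rw [Finset.mem_image]
    exact ⟨s, hs, hl⟩
  refine (Finset.card_le_card hsub).trans ?_
  refine Finset.card_biUnion_le.trans ?_
  apply Finset.sum_le_sum
  intro m _
  refine Finset.card_biUnion_le.trans ?_
  apply Finset.sum_le_sum
  intro i _
  exact Finset.card_image_le

private lemma e1_sum {V : Type} [Fintype V] (h : S_notUP) (hl : S_lolE) (R : ℕ)
    (hn : 2 * (2 * R) * (2 * R + 26) ≤ 3 * Fintype.card V) :
    (∑ G ∈ cub V, ((univ.filter fun v => ¬ UP G R v).card : ℝ)) ≤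
      (2 * R + 1) * (2 * R + 1) * (2 * 2 ^ (2 * R) * ((cub V).card : ℝ)) := by
  have hc0 : (0 : ℝ) ≤ ((cub V).card : ℝ) := by positivity
  calc (∑ G ∈ cub V, ((univ.filter fun v => ¬ UP G R v).card : ℝ))
      ≤ ∑ G ∈ cub V, ((∑ m ∈ range (2 * R + 1), ∑ i ∈ Ico 2 m, (lol G m i).card : ℕ) : ℝ) := by
        apply Finset.sum_le_sum
        intro G _
        exact_mod_cast e1_cover h G R
    _ = ∑ m ∈ range (2 * R + 1), ∑ i ∈ Ico 2 m, ((∑ G ∈ cub V, (lol G m i).card : ℕ) : ℝ) := by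
        push_cast
        rw [Finset.sum_comm]
        apply Finset.sum_congr rfl
        intro m _
        rw [Finset.sum_comm]
    _ ≤ ∑ m ∈ range (2 * R + 1), (2 * R + 1 : ℝ) * (2 * 2 ^ (2 * R) * ((cub V).card : ℝ)) := by
        apply Finset.sum_le_sum
        intro m hm
        have hm' : m ≤ 2 * R := by have := Finset.mem_range.1 hm; omega
        have h1 : ∀ i ∈ Ico 2 m, ((∑ G ∈ cub V, (lol G m i).card : ℕ) : ℝ) ≤
            2 * 2 ^ (2 * R) * ((cub V).card : ℝ) := by
          intro i hi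
          rw [Finset.mem_Ico] at hi
          have h2 : 2 * m * (m + 26) ≤ 3 * Fintype.card V := by
            refine le_trans ?_ hn
            exact Nat.mul_le_mul (by omega) (by omega)
          refine (hl V m i hi.1 hi.2 h2).trans ?_
          apply mul_le_mul_of_nonneg_right _ hc0
          have : (2 : ℝ) ^ m ≤ 2 ^ (2 * R) := pow_le_pow_right₀ (by norm_num) hm'
          linarith
        refine (Finset.sum_le_sum h1).trans ?_
        rw [Finset.sum_const, nsmul_eq_mul, Nat.card_Ico]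
        apply mul_le_mul_of_nonneg_right _ (by positivity)
        have : m - 2 ≤ 2 * R + 1 := by omega
        exact_mod_cast this
    _ = (2 * R + 1) * (2 * R + 1) * (2 * 2 ^ (2 * R) * ((cub V).card : ℝ)) := by
        rw [Finset.sum_const, nsmul_eq_mul, Finset.card_range]
        push_cast
        ring

theorem p_E1 : S_num → S_lolE → S_notUP → S_E1 := by
  intro hnum hl hup
  obtain ⟨n0, hn0⟩ := Filter.eventually_atTop.1 (hnum 40 6)
  refine ⟨n0, ?_⟩
  intro V _ hV
  obtain ⟨hA, hB⟩ := hn0 (Fintype.card V) hV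
  show (((cub V).filter fun G => ¬ T1 G).card : ℝ) ≤ (1 / 20) * ((cub V).card : ℝ)
  set n := Fintype.card V with hn
  set k := lam n with hk
  have hkpos : 0 < k := by omega
  have hp2 : 1 ≤ 2 ^ (k / 2) := Nat.one_le_two_pow
  have hnpos : 0 < n := by
    refine lt_of_lt_of_le ?_ hA
    positivity
  set R := R0 n with hR
  have hRk : 2 * R ≤ k / 2 := by
    rw [hR]; unfold R0; rw [← hk]; omega
  have hcond : 2 * (2 * R) * (2 * R + 26) ≤ 3 * n := by
    have h1 : 2 * (2 * R) * (2 * R + 26) ≤ 2 * (k + 1) * (26 * (k + 1)) :=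
      Nat.mul_le_mul (by omega) (by omega)
    have h2 : 2 * (k + 1) * (26 * (k + 1)) = 52 * (k + 1) ^ 2 := by ring
    have h3 : (k + 1) ^ 2 ≤ (k + 1) ^ 6 := Nat.pow_le_pow_right (by omega) (by norm_num)
    have h4 : 40 * (k + 1) ^ 6 ≤ 40 * (k + 1) ^ 6 * 2 ^ (k / 2) := Nat.le_mul_of_pos_right _ (by omega)
    omega
  have hsum := e1_sum hup hl R hcond
  set S : ℝ := ∑ G ∈ cub V, ((univ.filter fun v => ¬ UP G R v).card : ℝ) with hS
  set c : ℝ := ((cub V).card : ℝ) with hc
  have hc0 : 0 ≤ c := by rw [hc]; positivity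
  set b : ℝ := (((cub V).filter fun G => ¬ T1 G).card : ℝ) with hb
  have hnR : (0 : ℝ) < n := by exact_mod_cast hnpos
  have hkR : (0 : ℝ) < k := by exact_mod_cast hkpos
  -- Markov
  have hM : b * ((n : ℝ) / (k : ℝ) ^ 4) ≤ S := by
    calc b * ((n : ℝ) / (k : ℝ) ^ 4)
        = ∑ G ∈ (cub V).filter (fun G => ¬ T1 G), (n : ℝ) / (k : ℝ) ^ 4 := by
          rw [Finset.sum_const, nsmul_eq_mul]
      _ ≤ ∑ G ∈ (cub V).filter (fun G => ¬ T1 G),
          ((univ.filter fun v => ¬ UP G R v).card : ℝ) := by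
          apply Finset.sum_le_sum
          intro G hG
          have := (Finset.mem_filter.1 hG).2
          unfold T1 at this
          exact (not_le.1 this).le
      _ ≤ S := by
          apply Finset.sum_le_sum_of_subset_of_nonneg (Finset.filter_subset _ _)
          intro G _ _
          positivity
  have hS2 : S ≤ 2 * ((k : ℝ) + 1) ^ 2 * 2 ^ (k / 2) * c := by
    refine hsum.trans ?_
    have h1 : (2 * (R : ℝ) + 1) ≤ (k : ℝ) + 1 := by
      have : 2 * R ≤ k := by omega
      have h2 : ((2 * R : ℕ) : ℝ) ≤ (k : ℝ) := by exact_mod_cast this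
      push_cast at h2
      linarith
    have h2 : (2 : ℝ) ^ (2 * R) ≤ 2 ^ (k / 2) := pow_le_pow_right₀ (by norm_num) hRk
    calc (2 * (R : ℝ) + 1) * (2 * (R : ℝ) + 1) * (2 * 2 ^ (2 * R) * c)
        ≤ ((k : ℝ) + 1) * ((k : ℝ) + 1) * (2 * 2 ^ (k / 2) * c) := by
          apply mul_le_mul _ _ (by positivity) (by positivity)
          · exact mul_le_mul h1 h1 (by positivity) (by positivity)
          · apply mul_le_mul_of_nonneg_right _ hc0
            linarith
      _ = 2 * ((k : ℝ) + 1) ^ 2 * 2 ^ (k / 2) * c := by ring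
  have hA' : 40 * ((k : ℝ) + 1) ^ 6 * 2 ^ (k / 2) ≤ (n : ℝ) := by exact_mod_cast hA
  -- b * n ≤ k^4 * S ≤ ...
  have h5 : b * n ≤ 2 * ((k : ℝ) + 1) ^ 6 * 2 ^ (k / 2) * c := by
    have h6 : b * n = (k : ℝ) ^ 4 * (b * ((n : ℝ) / (k : ℝ) ^ 4)) := by
      field_simp
    rw [h6]
    calc (k : ℝ) ^ 4 * (b * ((n : ℝ) / (k : ℝ) ^ 4))
        ≤ (k : ℝ) ^ 4 * (2 * ((k : ℝ) + 1) ^ 2 * 2 ^ (k / 2) * c) :=
          mul_le_mul_of_nonneg_left (hM.trans hS2) (by positivity)
      _ ≤ ((k : ℝ) + 1) ^ 4 * (2 * ((k : ℝ) + 1) ^ 2 * 2 ^ (k / 2) * c) := by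
          apply mul_le_mul_of_nonneg_right _ (by positivity)
          exact pow_le_pow_left₀ hkR.le (by linarith) 4
      _ = 2 * ((k : ℝ) + 1) ^ 6 * 2 ^ (k / 2) * c := by ring
  have h7 : b * n ≤ (1 / 20 * c) * n := by
    have : 2 * ((k : ℝ) + 1) ^ 6 * 2 ^ (k / 2) * c =
        (1 / 20 * c) * (40 * ((k : ℝ) + 1) ^ 6 * 2 ^ (k / 2)) := by ring
    rw [this] at h5
    exact h5.trans (mul_le_mul_of_nonneg_left hA' (by positivity))
  exact le_of_mul_le_mul_right h7 hnR

end Pool.Agent.Lib.MP_fce888_co.G
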