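import Pool.Agent.Lib.MP_fce888_co.G.Stm

set_option autoImplicit false
set_option linter.unusedSectionVars false

/-!
# MP_fce888_co, section G: piece E23 (helper42)
-/

namespace Pool.Agent.Lib.MP_fce888_co.G

open Finset
open scoped Classical

/-- Markov's inequality for counting -/
private theorem markov23 {α : Type*} (s : Finset α) (p : α → Prop) [DecidablePred p]
    (f : α → ℝ) (a B : ℝ)
    (hf : ∀ x ∈ s, 0 ≤ f x) (hp : ∀ x ∈ s, p x → a ≤ f x) (hB : ∑ x ∈ s, f x ≤ B) :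
    ((s.filter p).card : ℝ) * a ≤ B := by
  have h1 : ∑ x ∈ s.filter p, a ≤ ∑ x ∈ s.filter p, f x := by
    apply Finset.sum_le_sum
    intro x hx
    obtain ⟨h1, h2⟩ := Finset.mem_filter.1 hx
    exact hp x h1 h2
  have h2 : ∑ x ∈ s.filter p, f x ≤ ∑ x ∈ s, f x :=
    Finset.sum_le_sum_of_subset_of_nonneg (Finset.filter_subset _ _) fun x hx _ => hf x hx
  rw [Finset.sum_const, nsmul_eq_mul] at h1
  linarith

/-- the consequences of `S_num` -/
private theorem cons23 (hnum : S_num) : ∃ n0 : ℕ, ∀ n : ℕ, n0 ≤ n →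
    0 < n ∧ 6 * (LL n + 1) * (LL n + 1) ≤ n ∧ 2 * (LL n + LL n) * (LL n + LL n + 26) ≤ 3 * n ∧
    n ≤ 2 ^ LL n ∧ 3000 ≤ lam n := by
  obtain ⟨n0, hn0⟩ := Filter.eventually_atTop.1 (hnum 3000 2)
  refine ⟨n0, ?_⟩
  intro n hn
  obtain ⟨h1, h3⟩ := hn0 n hn
  have hLL : LL n = 3 * lam n + 3 := rfl
  have h2 : 3000 * (lam n + 1) ^ 2 ≤ n := by
    refine le_trans ?_ h1
    have : 1 ≤ 2 ^ (lam n / 2) := Nat.one_le_two_pow
    calc 3000 * (lam n + 1) ^ 2 = 3000 * (lam n + 1) ^ 2 * 1 := by ring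
      _ ≤ 3000 * (lam n + 1) ^ 2 * 2 ^ (lam n / 2) := Nat.mul_le_mul_left _ this
  refine ⟨by nlinarith, ?_, ?_, ?_, h3⟩
  · rw [hLL]; nlinarith
  · rw [hLL]; nlinarith
  · have h4 : n < 2 ^ (lam n + 1) := by
      unfold lam
      exact Nat.lt_pow_succ_log_self (by norm_num) n
    refine le_trans h4.le ?_
    apply Nat.pow_le_pow_right (by norm_num)
    rw [hLL]; omega

theorem p_E23 : S_num → S_pairE → S_E23 := by
  intro hnum hpair
  obtain ⟨n0, hn0⟩ := cons23 hnum
  refine ⟨⟨n0, ?_⟩, ⟨n0, ?_⟩⟩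
  · intro V _ hV
    set n := Fintype.card V with hn
    obtain ⟨hnpos, h6, h7, h8, -⟩ := hn0 n hV
    set L := LL n with hLdef
    have h1 := hpair V L L (by rw [← hn]; exact h6) (by rw [← hn]; exact h7)
    rw [if_pos rfl, ← hn] at h1
    have h8' : (n : ℝ) ≤ 2 ^ L := by exact_mod_cast h8
    have hcub : (0 : ℝ) ≤ ((cub V).card : ℝ) := Nat.cast_nonneg _
    have hpow : (0 : ℝ) < 2 ^ L := by positivity
    have h2L : (2 : ℝ) ^ (2 * L) = 2 ^ L * 2 ^ L := by rw [two_mul, pow_add]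
    have h9 : ∑ G ∈ cub V, ∑ v, (SS G L L v : ℝ) ≤ 28 * 2 ^ (2 * L) * ((cub V).card : ℝ) := by
      refine h1.trans ?_
      apply mul_le_mul_of_nonneg_right _ hcub
      rw [h2L]
      nlinarith
    have hm := markov23 (cub V) (fun G => ¬ T2 560 G) (fun G => ∑ v, (SS G L L v : ℝ))
      (560 * 2 ^ (2 * L)) _
      (fun G _ => Finset.sum_nonneg fun v _ => Nat.cast_nonneg _) (by
        intro G _ hT
        unfold T2 at hT
        rw [not_le] at hT
        exact hT.le) h9
    have hp2 : (0 : ℝ) < 2 ^ (2 * L) := by positivity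
    have key : ((((cub V).filter fun G => ¬ T2 560 G).card : ℝ)) * (560 * 2 ^ (2 * L)) ≤
        ((1 / 20) * ((cub V).card : ℝ)) * (560 * 2 ^ (2 * L)) := by
      refine le_trans hm ?_
      linarith
    exact le_of_mul_le_mul_right key (by positivity)
  · intro V _ hV
    set n := Fintype.card V with hn
    obtain ⟨hnpos, h6, h7, h8, h9⟩ := hn0 n hV
    set L := LL n with hLdef
    set l := lam n with hl
    have hLL : L = 3 * l + 3 := rfl
    have hcub : (0 : ℝ) ≤ ((cub V).card : ℝ) := Nat.cast_nonneg _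
    have hnR : (0 : ℝ) < (n : ℝ) := by exact_mod_cast hnpos
    have hlR : (3000 : ℝ) ≤ (l : ℝ) := by exact_mod_cast h9
    -- the graphs violating (t3) at `t`
    have hone : ∀ t ∈ range (L + 1),
        ((((cub V).filter fun G => ¬ ((∑ v, (SS G t t v : ℝ)) ≤
          (l : ℝ) ^ 3 * n * (2 ^ t + 2 ^ (2 * t) / n))).card : ℝ)) ≤
        24 / (l : ℝ) ^ 3 * ((cub V).card : ℝ) := by
      intro t ht
      have htL : t ≤ L := by
        have := Finset.mem_range.1 ht
        omega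
      have g1 : 6 * (t + 1) * (t + 1) ≤ n := by
        refine le_trans ?_ h6
        exact Nat.mul_le_mul (Nat.mul_le_mul_left 6 (Nat.add_le_add_right htL 1))
          (Nat.add_le_add_right htL 1)
      have g2 : 2 * (t + t) * (t + t + 26) ≤ 3 * n := by
        refine le_trans ?_ h7
        exact Nat.mul_le_mul (Nat.mul_le_mul_left 2 (Nat.add_le_add htL htL))
          (Nat.add_le_add_right (Nat.add_le_add htL htL) 26)
      have h1 := hpair V t t (by rw [← hn]; exact g1) (by rw [← hn]; exact g2)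
      rw [if_pos rfl, ← hn] at h1
      have hpt : (0 : ℝ) < 2 ^ t := by positivity
      have h2t : (2 : ℝ) ^ (2 * t) = 2 ^ t * 2 ^ t := by rw [two_mul, pow_add]
      have h3 : (n : ℝ) * (2 ^ t + 2 ^ (2 * t) / n) = n * 2 ^ t + 2 ^ t * 2 ^ t := by
        rw [h2t]; field_simp
      have h4 : ∑ G ∈ cub V, ∑ v, (SS G t t v : ℝ) ≤
          24 * (n * (2 ^ t + 2 ^ (2 * t) / n)) * ((cub V).card : ℝ) := by
        refine h1.trans ?_
        apply mul_le_mul_of_nonneg_right _ hcub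
        rw [h3]
        nlinarith [mul_pos hnR hpt, mul_pos hpt hpt]
      have hm := markov23 (cub V) (fun G => ¬ ((∑ v, (SS G t t v : ℝ)) ≤
          (l : ℝ) ^ 3 * n * (2 ^ t + 2 ^ (2 * t) / n))) (fun G => ∑ v, (SS G t t v : ℝ))
        ((l : ℝ) ^ 3 * n * (2 ^ t + 2 ^ (2 * t) / n)) _
        (fun G _ => Finset.sum_nonneg fun v _ => Nat.cast_nonneg _) (by
          intro G _ hT
          rw [not_le] at hT
          exact hT.le) h4
      have hl3 : (0 : ℝ) < (l : ℝ) ^ 3 := by positivity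
      have hq : (0 : ℝ) < n * (2 ^ t + 2 ^ (2 * t) / n) := by
        rw [h3]; positivity
      have key : ((((cub V).filter fun G => ¬ ((∑ v, (SS G t t v : ℝ)) ≤
          (l : ℝ) ^ 3 * n * (2 ^ t + 2 ^ (2 * t) / n))).card : ℝ)) *
          ((l : ℝ) ^ 3 * n * (2 ^ t + 2 ^ (2 * t) / n)) ≤
        (24 / (l : ℝ) ^ 3 * ((cub V).card : ℝ)) *
          ((l : ℝ) ^ 3 * n * (2 ^ t + 2 ^ (2 * t) / n)) := by
        refine le_trans hm (le_of_eq ?_)
        field_simp
      exact le_of_mul_le_mul_right key (by positivity)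
    -- union over `t`
    have hsub : (cub V).filter (fun G => ¬ T3 G) ⊆ (range (L + 1)).biUnion fun t =>
        (cub V).filter fun G => ¬ ((∑ v, (SS G t t v : ℝ)) ≤
          (l : ℝ) ^ 3 * n * (2 ^ t + 2 ^ (2 * t) / n)) := by
      intro G hG
      obtain ⟨hG1, hG2⟩ := Finset.mem_filter.1 hG
      unfold T3 at hG2
      push Not at hG2
      obtain ⟨t, ht1, ht2⟩ := hG2
      have ht1' : t ≤ L := ht1
      refine Finset.mem_biUnion.2 ⟨t, Finset.mem_range.2 (by omega),
        Finset.mem_filter.2 ⟨hG1, ?_⟩⟩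
      rw [not_le]
      exact ht2
    have hcard : (((cub V).filter (fun G => ¬ T3 G)).card : ℝ) ≤
        ((L : ℝ) + 1) * (24 / (l : ℝ) ^ 3 * ((cub V).card : ℝ)) := by
      have e1 := (Finset.card_le_card hsub).trans Finset.card_biUnion_le
      have e2 : (((cub V).filter (fun G => ¬ T3 G)).card : ℝ) ≤
          ∑ t ∈ range (L + 1), ((((cub V).filter fun G => ¬ ((∑ v, (SS G t t v : ℝ)) ≤
          (l : ℝ) ^ 3 * n * (2 ^ t + 2 ^ (2 * t) / n))).card : ℝ)) := by
        exact_mod_cast e1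
      refine e2.trans ((Finset.sum_le_sum hone).trans (le_of_eq ?_))
      rw [Finset.sum_const, nsmul_eq_mul, Finset.card_range]
      push_cast
      ring
    refine hcard.trans ?_
    have hLR : (L : ℝ) = 3 * l + 3 := by rw [hLL]; push_cast; ring
    have hl0 : (0 : ℝ) < (l : ℝ) := by linarith
    have hfin : ((L : ℝ) + 1) * (24 / (l : ℝ) ^ 3) ≤ 1 / 20 := by
      rw [hLR, ← mul_div_assoc, div_le_iff₀ (by positivity)]
      have : (3000 : ℝ) * 3000 * l ≤ (l : ℝ) ^ 3 := by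
        have : (3000 : ℝ) * 3000 ≤ (l : ℝ) * l := by nlinarith
        calc (3000 : ℝ) * 3000 * l ≤ (l * l) * l := mul_le_mul_of_nonneg_right this hl0.le
          _ = (l : ℝ) ^ 3 := by ring
      nlinarith
    rw [← mul_assoc]
    exact mul_le_mul_of_nonneg_right hfin hcub

end Pool.Agent.Lib.MP_fce888_co.G
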