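import Pool.Agent.Lib.MP_fce888_co.G.Stm

set_option autoImplicit false
set_option linter.unusedSectionVars false

/-!
# MP_fce888_co, section G: piece E4 (helper42)
-/

namespace Pool.Agent.Lib.MP_fce888_co.G

open Finset
open scoped Classical

/-- Markov's inequality for counting -/
private theorem markov4 {α : Type*} (s : Finset α) (p : α → Prop) [DecidablePred p] (f : α → ℝ) (a B : ℝ)
    (hf : ∀ x ∈ s, 0 ≤ f x) (hp : ∀ x ∈ s, p x → a ≤ f x) (hB : ∑ x ∈ s, f x ≤ B) :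
    ((s.filter p).card : ℝ) * a ≤ B := by
  have h1 : ∑ x ∈ s.filter p, a ≤ ∑ x ∈ s.filter p, f x := by
    apply Finset.sum_le_sum
    intro x hx
    obtain ⟨h1, h2⟩ := Finset.mem_filter.1 hx
    exact hp x h1 h2
  have h2 : ∑ x ∈ s.filter p, f x ≤ ∑ x ∈ s, f x :=
    Finset.sum_le_sum_of_subset_of_nonneg (Finset.filter_subset _ _) fun x hx _ => hf x hx
  rw [Finset.sum_const, nsmul_eq_mul] at h1
  linarith

/-- The sum over all cubic graphs of the lollipop error terms. -/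
private theorem sumX (hlol : S_lolE) (V : Type) [Fintype V] (L : ℕ)
    (hL : 2 * L * (L + 26) ≤ 3 * Fintype.card V) :
    ∑ G ∈ cub V, ((∑ m ∈ range (L + 1), ∑ i ∈ Ico 2 m, (lol G m i).card * 2 ^ (L - m) : ℕ) : ℝ)
      ≤ 2 * ((L : ℝ) + 1) ^ 2 * 2 ^ L * ((cub V).card : ℝ) := by
  have h1 : ∑ G ∈ cub V,
      ((∑ m ∈ range (L + 1), ∑ i ∈ Ico 2 m, (lol G m i).card * 2 ^ (L - m) : ℕ) : ℝ) =
      ∑ m ∈ range (L + 1), ∑ i ∈ Ico 2 m,
        (((∑ G ∈ cub V, (lol G m i).card : ℕ) : ℝ) * 2 ^ (L - m)) := by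
    push_cast
    rw [Finset.sum_comm]
    refine Finset.sum_congr rfl fun m _ => ?_
    rw [Finset.sum_comm]
    refine Finset.sum_congr rfl fun i _ => ?_
    rw [Finset.sum_mul]
  rw [h1]
  have h2 : ∀ m ∈ range (L + 1), ∑ i ∈ Ico 2 m,
        (((∑ G ∈ cub V, (lol G m i).card : ℕ) : ℝ) * 2 ^ (L - m)) ≤
        ((L : ℝ) + 1) * (2 * 2 ^ L * ((cub V).card : ℝ)) := by
    intro m hm
    have hmL : m ≤ L := by
      have := Finset.mem_range.1 hm
      omega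
    have h3 : ∀ i ∈ Ico 2 m, (((∑ G ∈ cub V, (lol G m i).card : ℕ) : ℝ) * 2 ^ (L - m)) ≤
        2 * 2 ^ L * ((cub V).card : ℝ) := by
      intro i hi
      obtain ⟨hi1, hi2⟩ := Finset.mem_Ico.1 hi
      have hh : 2 * m * (m + 26) ≤ 3 * Fintype.card V := by
        refine le_trans ?_ hL
        exact Nat.mul_le_mul (Nat.mul_le_mul_left 2 hmL) (Nat.add_le_add_right hmL 26)
      have h4 := hlol V m i hi1 hi2 hh
      have h5 : (2 : ℝ) ^ L = 2 ^ m * 2 ^ (L - m) := by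
        rw [← pow_add]
        congr 1
        omega
      calc (((∑ G ∈ cub V, (lol G m i).card : ℕ) : ℝ) * 2 ^ (L - m))
          ≤ (2 * 2 ^ m * ((cub V).card : ℝ)) * 2 ^ (L - m) :=
            mul_le_mul_of_nonneg_right h4 (by positivity)
        _ = 2 * 2 ^ L * ((cub V).card : ℝ) := by rw [h5]; ring
    calc ∑ i ∈ Ico 2 m, (((∑ G ∈ cub V, (lol G m i).card : ℕ) : ℝ) * 2 ^ (L - m))
        ≤ ∑ i ∈ Ico 2 m, 2 * 2 ^ L * ((cub V).card : ℝ) := Finset.sum_le_sum h3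
      _ = ((Ico 2 m).card : ℝ) * (2 * 2 ^ L * ((cub V).card : ℝ)) := by
          rw [Finset.sum_const, nsmul_eq_mul]
      _ ≤ ((L : ℝ) + 1) * (2 * 2 ^ L * ((cub V).card : ℝ)) := by
          apply mul_le_mul_of_nonneg_right _ (by positivity)
          rw [Nat.card_Ico]
          have : m - 2 ≤ L + 1 := by omega
          exact_mod_cast this
  calc ∑ m ∈ range (L + 1), ∑ i ∈ Ico 2 m,
        (((∑ G ∈ cub V, (lol G m i).card : ℕ) : ℝ) * 2 ^ (L - m))
      ≤ ∑ m ∈ range (L + 1), ((L : ℝ) + 1) * (2 * 2 ^ L * ((cub V).card : ℝ)) :=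
        Finset.sum_le_sum h2
    _ = 2 * ((L : ℝ) + 1) ^ 2 * 2 ^ L * ((cub V).card : ℝ) := by
        rw [Finset.sum_const, nsmul_eq_mul, Finset.card_range]
        push_cast
        ring

theorem p_E4 : S_num → S_lolE → S_nbcount → S_nbdec → S_E4 := by
  intro hnum hlol hcount hdec
  obtain ⟨n0, hn0⟩ := Filter.eventually_atTop.1 (hnum 3000 2)
  refine ⟨n0, ?_⟩
  intro V _ hV
  set n := Fintype.card V with hn
  obtain ⟨h1, -⟩ := hn0 n hV
  set l := lam n with hl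
  have hLL : LL n = 3 * l + 3 := rfl
  set L := LL n with hLdef
  have h2 : 3000 * (l + 1) ^ 2 ≤ n := by
    refine le_trans ?_ h1
    have : 1 ≤ 2 ^ (l / 2) := Nat.one_le_two_pow
    calc 3000 * (l + 1) ^ 2 = 3000 * (l + 1) ^ 2 * 1 := by ring
      _ ≤ 3000 * (l + 1) ^ 2 * 2 ^ (l / 2) := Nat.mul_le_mul_left _ this
  have hL : 2 * L * (L + 26) ≤ 3 * n := by
    rw [hLL]
    nlinarith
  have hL2 : 160 * (L + 1) ^ 2 ≤ n := by
    rw [hLL]
    nlinarith
  have hnpos : 0 < n := by nlinarith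
  have hsum := sumX hlol V L hL
  have hm := markov4 (cub V) (fun G => ¬ T4 G)
    (fun G => ((∑ m ∈ range (L + 1), ∑ i ∈ Ico 2 m, (lol G m i).card * 2 ^ (L - m) : ℕ) : ℝ))
    ((n : ℝ) * 2 ^ L / 4) (2 * ((L : ℝ) + 1) ^ 2 * 2 ^ L * ((cub V).card : ℝ))
    (fun G _ => Nat.cast_nonneg _) (by
      intro G hG hT
      unfold T4 at hT
      rw [not_le] at hT
      have h3 := hcount V G hG (3 * l + 2)
      have h4 := hdec V G hG L
      have h5 : L = 3 * l + 2 + 1 := by rw [hLL]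
      have h6 : (nb G L).card = 3 * n * 2 ^ (3 * l + 2) := by rw [h5]; exact h3
      rw [h6] at h4
      have h7 : ((3 * n * 2 ^ (3 * l + 2) : ℕ) : ℝ) ≤ ((paths G L).card : ℝ) +
        ((∑ m ∈ range (L + 1), ∑ i ∈ Ico 2 m, (lol G m i).card * 2 ^ (L - m) : ℕ) : ℝ) := by
        exact_mod_cast h4
      have h8 : ((3 * n * 2 ^ (3 * l + 2) : ℕ) : ℝ) = 3 / 2 * n * 2 ^ L := by
        rw [h5]; push_cast; rw [pow_succ]; ring
      rw [h8] at h7
      have h9 : ((paths G L).card : ℝ) < 5 / 4 * (n : ℝ) * 2 ^ L := hT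
      show (n : ℝ) * 2 ^ L / 4 ≤ ((∑ m ∈ range (L + 1), ∑ i ∈ Ico 2 m,
        (lol G m i).card * 2 ^ (L - m) : ℕ) : ℝ)
      linarith) hsum
  have hcub : (0 : ℝ) ≤ ((cub V).card : ℝ) := Nat.cast_nonneg _
  have hpow : (0 : ℝ) < 2 ^ L := by positivity
  have hnR : (0 : ℝ) < (n : ℝ) := by exact_mod_cast hnpos
  have hL2' : 160 * ((L : ℝ) + 1) ^ 2 ≤ n := by exact_mod_cast hL2
  have key : ((((cub V).filter fun G => ¬ T4 G).card : ℝ)) * ((n : ℝ) * 2 ^ L / 4) ≤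
      ((1 / 20) * ((cub V).card : ℝ)) * ((n : ℝ) * 2 ^ L / 4) := by
    refine le_trans hm ?_
    have : 160 * ((L : ℝ) + 1) ^ 2 * (2 ^ L * ((cub V).card : ℝ)) ≤
        n * (2 ^ L * ((cub V).card : ℝ)) :=
      mul_le_mul_of_nonneg_right hL2' (by positivity)
    nlinarith
  exact le_of_mul_le_mul_right key (by positivity)

end Pool.Agent.Lib.MP_fce888_co.G
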