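import Pool.Agent.Lib.MP_fce888_co.G.Stm

set_option autoImplicit false

namespace Pool.Agent.Lib.MP_fce888_co.G

open Finset
open scoped Classical

/-- the left side of (t5) -/
private noncomputable def lhs5 {V : Type} [Fintype V] (G : SimpleGraph V) : ℝ :=
  (∑ Q ∈ paths G (LL (Fintype.card V)),
      (((range (LL (Fintype.card V) + 1) ×ˢ range (LL (Fintype.card V) + 1)).filter fun p =>
        p.1 + R1 (Fintype.card V) < p.2 ∧ ∃ u v, Q[p.1]? = some u ∧ Q[p.2]? = some v ∧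
          G.dist u v ≤ rn (Fintype.card V)).card : ℝ))

theorem p_E5 : S_num → S_pairE → S_t5c → S_E5 := by
  intro hnum hpair ht5
  obtain ⟨n0, hn0⟩ := Filter.eventually_atTop.1 (hnum 30720 4)
  refine ⟨n0, fun V _ hV => ?_⟩
  obtain ⟨hA, hB⟩ := hn0 (Fintype.card V) hV
  set n := Fintype.card V with hn
  set lm := lam n with hlm
  have hL : LL n = 3 * lm + 3 := rfl
  have hr : rn n = lm / 100 := rfl
  have hR : R1 n = lm / 20 := rfl
  have hsq : (lm + 1) ^ 2 ≤ (lm + 1) ^ 4 := Nat.pow_le_pow_right (by omega) (by omega)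
  have h2p : 1 ≤ 2 ^ (lm / 2) := Nat.one_le_two_pow
  have hn2 : 30720 * (lm + 1) ^ 2 ≤ n := by
    calc 30720 * (lm + 1) ^ 2 ≤ 30720 * (lm + 1) ^ 4 := Nat.mul_le_mul_left _ hsq
      _ = 30720 * (lm + 1) ^ 4 * 1 := by ring
      _ ≤ 30720 * (lm + 1) ^ 4 * 2 ^ (lm / 2) := Nat.mul_le_mul_left _ h2p
      _ ≤ n := hA
  have hnpos : 0 < n := by
    have : 0 < 30720 * (lm + 1) ^ 2 := by positivity
    omega
  have hlpos : 0 < lm := by omega
  have hcubnn : (0 : ℝ) ≤ ((cub V).card : ℝ) := Nat.cast_nonneg _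
  -- the expectation
  have hterm : ∀ t1 ∈ range (LL n + 1), ∀ t2 ∈ Ioc (t1 + R1 n) (LL n), ∀ l ∈ range (rn n + 1),
      (4 : ℝ) * 2 ^ (LL n - (t2 - t1)) * (∑ G ∈ cub V, ∑ v, (SS G (t2 - t1) l v : ℝ)) ≤
        96 * 2 ^ LL n * 2 ^ rn n * ((cub V).card : ℝ) := by
    intro t1 _ t2 ht2 l hl
    rw [Finset.mem_Ioc] at ht2
    rw [Finset.mem_range] at hl
    have hne : t2 - t1 ≠ l := by omega
    have hp : t2 - t1 ≤ LL n := by omega
    have h1 : 6 * (t2 - t1 + 1) * (l + 1) ≤ Fintype.card V := by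
      calc 6 * (t2 - t1 + 1) * (l + 1) ≤ 6 * (4 * (lm + 1)) * (lm + 1) :=
            Nat.mul_le_mul (Nat.mul_le_mul_left _ (by omega)) (by omega)
        _ = 24 * (lm + 1) ^ 2 := by ring
        _ ≤ 30720 * (lm + 1) ^ 2 := Nat.mul_le_mul_right _ (by omega)
        _ ≤ n := hn2
    have h2 : 2 * (t2 - t1 + l) * (t2 - t1 + l + 26) ≤ 3 * Fintype.card V := by
      calc 2 * (t2 - t1 + l) * (t2 - t1 + l + 26) ≤ 2 * (4 * (lm + 1)) * (30 * (lm + 1)) :=
            Nat.mul_le_mul (Nat.mul_le_mul_left _ (by omega)) (by omega)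
        _ = 240 * (lm + 1) ^ 2 := by ring
        _ ≤ 30720 * (lm + 1) ^ 2 := Nat.mul_le_mul_right _ (by omega)
        _ ≤ n := hn2
        _ ≤ 3 * Fintype.card V := by omega
    have h3 := hpair V (t2 - t1) l h1 h2
    rw [if_neg hne, add_zero] at h3
    have h4 : (2 : ℝ) ^ l ≤ 2 ^ rn n := pow_le_pow_right₀ (by norm_num) (by omega)
    have h5 : (2 : ℝ) ^ (LL n - (t2 - t1)) * 2 ^ (t2 - t1) = 2 ^ LL n := by
      rw [← pow_add]; congr 1; omega
    calc (4 : ℝ) * 2 ^ (LL n - (t2 - t1)) * (∑ G ∈ cub V, ∑ v, (SS G (t2 - t1) l v : ℝ))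
        ≤ 4 * 2 ^ (LL n - (t2 - t1)) * (4 * 2 ^ (t2 - t1) * (6 * 2 ^ l) * ((cub V).card : ℝ)) :=
          mul_le_mul_of_nonneg_left h3 (by positivity)
      _ = 96 * ((2 : ℝ) ^ (LL n - (t2 - t1)) * 2 ^ (t2 - t1)) * 2 ^ l * ((cub V).card : ℝ) := by
          ring
      _ = 96 * 2 ^ LL n * 2 ^ l * ((cub V).card : ℝ) := by rw [h5]
      _ ≤ 96 * 2 ^ LL n * 2 ^ rn n * ((cub V).card : ℝ) :=
          mul_le_mul_of_nonneg_right (mul_le_mul_of_nonneg_left h4 (by positivity)) hcubnn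
  have hE : ∑ G ∈ cub V, lhs5 G ≤
      (LL n + 1) * ((LL n + 1) * ((rn n + 1) * (96 * 2 ^ LL n * 2 ^ rn n * ((cub V).card : ℝ)))) := by
    have h1 : ∑ G ∈ cub V, lhs5 G ≤ ∑ G ∈ cub V, ∑ t1 ∈ range (LL n + 1),
        ∑ t2 ∈ Ioc (t1 + R1 n) (LL n), ∑ l ∈ range (rn n + 1),
        4 * 2 ^ (LL n - (t2 - t1)) * ∑ v, (SS G (t2 - t1) l v : ℝ) :=
      Finset.sum_le_sum fun G hG => ht5 V G hG (LL n) (R1 n) (rn n)
    refine h1.trans ?_
    rw [Finset.sum_comm]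
    have h2 : ∀ t1 ∈ range (LL n + 1), (∑ G ∈ cub V, ∑ t2 ∈ Ioc (t1 + R1 n) (LL n),
        ∑ l ∈ range (rn n + 1), 4 * 2 ^ (LL n - (t2 - t1)) * ∑ v, (SS G (t2 - t1) l v : ℝ)) ≤
        (LL n + 1) * ((rn n + 1) * (96 * 2 ^ LL n * 2 ^ rn n * ((cub V).card : ℝ))) := by
      intro t1 ht1
      rw [Finset.sum_comm]
      have h3 : ∀ t2 ∈ Ioc (t1 + R1 n) (LL n), (∑ G ∈ cub V,
          ∑ l ∈ range (rn n + 1), 4 * 2 ^ (LL n - (t2 - t1)) * ∑ v, (SS G (t2 - t1) l v : ℝ)) ≤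
          ((rn n + 1) * (96 * 2 ^ LL n * 2 ^ rn n * ((cub V).card : ℝ))) := by
        intro t2 ht2
        rw [Finset.sum_comm]
        have h4 : ∀ l ∈ range (rn n + 1), (∑ G ∈ cub V,
            4 * 2 ^ (LL n - (t2 - t1)) * ∑ v, (SS G (t2 - t1) l v : ℝ)) ≤
            96 * 2 ^ LL n * 2 ^ rn n * ((cub V).card : ℝ) := by
          intro l hl
          rw [← Finset.mul_sum]
          exact hterm t1 ht1 t2 ht2 l hl
        refine (Finset.sum_le_card_nsmul _ _ _ h4).trans ?_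
        rw [Finset.card_range, nsmul_eq_mul]
        push_cast
        exact le_rfl
      refine (Finset.sum_le_card_nsmul _ _ _ h3).trans ?_
      rw [nsmul_eq_mul]
      refine mul_le_mul_of_nonneg_right ?_ (by positivity)
      rw [Nat.card_Ioc]
      have : LL n - (t1 + R1 n) ≤ LL n + 1 := by omega
      exact_mod_cast this
    refine (Finset.sum_le_card_nsmul _ _ _ h2).trans ?_
    rw [Finset.card_range, nsmul_eq_mul]
    push_cast
    exact le_rfl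
  -- Markov
  have hnn : ∀ G : SimpleGraph V, 0 ≤ lhs5 G := fun G =>
    Finset.sum_nonneg fun _ _ => Nat.cast_nonneg _
  set bad := (cub V).filter fun G => ¬ T5 G with hbad
  have hM : (bad.card : ℝ) * ((n : ℝ) * 2 ^ LL n / lm) ≤ ∑ G ∈ cub V, lhs5 G := by
    have h1 : ∑ G ∈ bad, ((n : ℝ) * 2 ^ LL n / lm) ≤ ∑ G ∈ bad, lhs5 G := by
      refine Finset.sum_le_sum fun G hG => ?_
      rw [hbad, Finset.mem_filter] at hG
      have := hG.2
      unfold T5 at this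
      exact (not_le.1 this).le
    rw [Finset.sum_const, nsmul_eq_mul] at h1
    refine h1.trans (Finset.sum_le_sum_of_subset_of_nonneg (Finset.filter_subset _ _) ?_)
    intro G _ _
    exact hnn G
  have hlR : (0 : ℝ) < (lm : ℝ) := by exact_mod_cast hlpos
  have hnR : (0 : ℝ) < (n : ℝ) := by exact_mod_cast hnpos
  have hkey : (bad.card : ℝ) * ((n : ℝ) * 2 ^ LL n / lm) ≤
      (4 * (lm + 1)) * ((4 * (lm + 1)) * ((lm + 1) * (96 * 2 ^ LL n * 2 ^ (lm / 2) *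
        ((cub V).card : ℝ)))) := by
    refine (hM.trans hE).trans ?_
    have h1 : ((LL n : ℝ) + 1) ≤ 4 * (lm + 1) := by
      have : LL n + 1 ≤ 4 * (lm + 1) := by omega
      exact_mod_cast this
    have h2 : ((rn n : ℝ) + 1) ≤ lm + 1 := by
      have : rn n + 1 ≤ lm + 1 := by omega
      exact_mod_cast this
    have h3 : (2 : ℝ) ^ rn n ≤ 2 ^ (lm / 2) := pow_le_pow_right₀ (by norm_num) (by omega)
    gcongr
  have hA' : (30720 : ℝ) * (lm + 1) ^ 4 * 2 ^ (lm / 2) ≤ n := by exact_mod_cast hA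
  have h2L : (0 : ℝ) < 2 ^ LL n := by positivity
  -- divide by `2 ^ LL n`
  have hk2 : (bad.card : ℝ) * n ≤ 1536 * (lm + 1) ^ 3 * 2 ^ (lm / 2) * lm * ((cub V).card : ℝ) := by
    have h1 : (bad.card : ℝ) * ((n : ℝ) * 2 ^ LL n / lm) = ((bad.card : ℝ) * n) * (2 ^ LL n / lm) := by
      ring
    have h2 : (4 * ((lm : ℝ) + 1)) * ((4 * (lm + 1)) * ((lm + 1) * (96 * 2 ^ LL n * 2 ^ (lm / 2) *
        ((cub V).card : ℝ)))) =
        (1536 * (lm + 1) ^ 3 * 2 ^ (lm / 2) * lm * ((cub V).card : ℝ)) * (2 ^ LL n / lm) := by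
      field_simp
      ring
    rw [h1, h2] at hkey
    exact le_of_mul_le_mul_right hkey (by positivity)
  have hk3 : (bad.card : ℝ) * n ≤ (1 / 20 * ((cub V).card : ℝ)) * n := by
    refine hk2.trans ?_
    have h1 : 1536 * ((lm : ℝ) + 1) ^ 3 * 2 ^ (lm / 2) * lm ≤
        1536 * ((lm : ℝ) + 1) ^ 3 * 2 ^ (lm / 2) * (lm + 1) := by
      gcongr
      linarith
    have h2 : 1536 * ((lm : ℝ) + 1) ^ 3 * 2 ^ (lm / 2) * (lm + 1) =
        (1 / 20) * (30720 * (lm + 1) ^ 4 * 2 ^ (lm / 2)) := by ring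
    calc 1536 * ((lm : ℝ) + 1) ^ 3 * 2 ^ (lm / 2) * lm * ((cub V).card : ℝ)
        ≤ ((1 / 20) * n) * ((cub V).card : ℝ) := by
          refine mul_le_mul_of_nonneg_right ?_ hcubnn
          rw [h2] at h1
          linarith
      _ = (1 / 20 * ((cub V).card : ℝ)) * n := by ring
  exact le_of_mul_le_mul_right hk3 hnR

end Pool.Agent.Lib.MP_fce888_co.G
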