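import Pool.Agent.Lib.MP_fce888_co.G.Stm

set_option autoImplicit false
set_option linter.unusedSectionVars false

/-!
# MP_fce888_co, section G: the generating function of nonbacktracking walks with weights
-/

namespace Pool.Agent.Lib.MP_fce888_co.G

open Finset
open scoped Classical

section abd

variable {V : Type} [Fintype V]

private theorem aW_zero (P : List V) (z x : V) (f : Option V) :
    aW P z 0 x f = if x = z then 1 else 0 := rfl

private theorem aW_succ (P : List V) (z : V) (l : ℕ) (x : V) (f : Option V) :
    aW P z (l + 1) x f =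
      ∑ y ∈ univ.filter (fun y => some y ≠ f), w1 P x y * aW P z l y (some x) := rfl

private theorem w1_nonneg (P : List V) (x y : V) : 0 ≤ w1 P x y := by
  unfold w1
  split_ifs <;> positivity

private theorem aW_nonneg (P : List V) (z : V) (l : ℕ) (x : V) (f : Option V) :
    0 ≤ aW P z l x f := by
  induction l generalizing x f with
  | zero =>
    rw [aW_zero]
    split_ifs <;> norm_num
  | succ l ih =>
    rw [aW_succ]
    exact Finset.sum_nonneg fun y _ => mul_nonneg (w1_nonneg P x y) (ih _ _)

private theorem aW_le_none (P : List V) (z : V) (l : ℕ) (x : V) (f : Option V) :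
    aW P z l x f ≤ aW P z l x none := by
  cases l with
  | zero => rw [aW_zero, aW_zero]
  | succ l =>
    rw [aW_succ, aW_succ]
    refine Finset.sum_le_sum_of_subset_of_nonneg ?_ ?_
    · intro y _
      exact Finset.mem_filter.2 ⟨Finset.mem_univ _, by simp⟩
    · intro y _ _
      exact mul_nonneg (w1_nonneg P x y) (aW_nonneg P z l _ _)

/-- the total weight of the walks of length `l` that end in `z` -/
private noncomputable def Tt (P : List V) (z : V) (l : ℕ) : ℝ := ∑ y, aW P z l y none

/-- the sum of the total weights, divided by `n` -/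
private noncomputable def Ss (P : List V) (z : V) (l : ℕ) : ℝ :=
  (∑ m ∈ range l, Tt P z m) / (Fintype.card V : ℝ)

private theorem Tt_nonneg (P : List V) (z : V) (l : ℕ) : 0 ≤ Tt P z l :=
  Finset.sum_nonneg fun y _ => aW_nonneg P z l y none

private theorem Ss_nonneg (P : List V) (z : V) (l : ℕ) : 0 ≤ Ss P z l :=
  div_nonneg (Finset.sum_nonneg fun m _ => Tt_nonneg P z m) (Nat.cast_nonneg _)

private theorem Ss_zero (P : List V) (z : V) : Ss P z 0 = 0 := by
  simp [Ss]

private theorem Ss_succ (P : List V) (z : V) (l : ℕ) :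
    Ss P z (l + 1) = Ss P z l + Tt P z l / (Fintype.card V : ℝ) := by
  unfold Ss
  rw [Finset.sum_range_succ, add_div]

/-- (1) -/
private theorem off_P (P : List V) (z : V) (l : ℕ) (x : V) (f : Option V) (hx : x ∉ P) :
    aW P z (l + 1) x f ≤ 2 / (Fintype.card V : ℝ) * Tt P z l := by
  rw [aW_succ]
  have h1 : ∀ y, w1 P x y * aW P z l y (some x) ≤
      2 / (Fintype.card V : ℝ) * aW P z l y none := by
    intro y
    have h2 : s(x, y) ∉ cE P := fun h => hx (mem_of_mem_cE h (Sym2.mem_mk_left x y))
    have h3 : w1 P x y = 2 / (Fintype.card V : ℝ) := by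
      unfold w1
      rw [if_neg h2, if_neg hx]
    rw [h3]
    exact mul_le_mul_of_nonneg_left (aW_le_none P z l y _) (by positivity)
  calc ∑ y ∈ univ.filter (fun y => some y ≠ f), w1 P x y * aW P z l y (some x)
      ≤ ∑ y ∈ univ.filter (fun y => some y ≠ f), 2 / (Fintype.card V : ℝ) * aW P z l y none :=
        Finset.sum_le_sum fun y _ => h1 y
    _ ≤ ∑ y, 2 / (Fintype.card V : ℝ) * aW P z l y none := by
        refine Finset.sum_le_sum_of_subset_of_nonneg (Finset.filter_subset _ _) ?_
        intro y _ _
        exact mul_nonneg (by positivity) (aW_nonneg P z l _ _)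
    _ = 2 / (Fintype.card V : ℝ) * Tt P z l := by
        unfold Tt
        rw [Finset.mul_sum]

private theorem idx_inj {P : List V} (hP : P.Nodup) {i j : ℕ} {a : V} (hi : P[i]? = some a)
    (hj : P[j]? = some a) : i = j := by
  obtain ⟨hi1, hi2⟩ := List.getElem?_eq_some_iff.1 hi
  obtain ⟨hj1, hj2⟩ := List.getElem?_eq_some_iff.1 hj
  exact (List.Nodup.getElem_inj_iff hP).1 (hi2.trans hj2.symm)

/-- (2) -/
private theorem adj_P {P : List V} (hP : P.Nodup) {j : ℕ} {a y : V} (hj : P[j]? = some a)
    (h : s(a, y) ∈ cE P) : P[j + 1]? = some y ∨ ∃ i, j = i + 1 ∧ P[i]? = some y := by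
  obtain ⟨i, x', y', h1, h2, h3⟩ := mem_cE_iff.1 h
  rw [Sym2.eq_iff] at h3
  rcases h3 with ⟨rfl, rfl⟩ | ⟨rfl, rfl⟩
  · left
    rw [idx_inj hP hj h1]
    exact h2
  · right
    exact ⟨i, idx_inj hP hj h2, h1⟩

private theorem last_P {P : List V} (hP : P.Nodup) {z : V} (hz : P.getLast? = some z) {j : ℕ}
    (hj : P[j]? = some z) : j + 1 = P.length := by
  rw [List.getLast?_eq_getElem?] at hz
  have h1 := idx_inj hP hj hz
  have h2 : j < P.length := (List.getElem?_eq_some_iff.1 hj).1
  omega

/-- the sum over the walks which do not start along `P`, plus the sum along `P` -/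
private theorem split_P {P : List V} {z : V} {l j : ℕ} {a : V} {f : Option V}
    (hj : P[j]? = some a) (U : Finset V)
    (hU : ∀ y, some y ≠ f → s(a, y) ∈ cE P → y ∈ U) :
    aW P z (l + 1) a f ≤ Tt P z l / (Fintype.card V : ℝ) + ∑ y ∈ U, aW P z l y (some a) := by
  have haP : a ∈ P := List.mem_of_getElem? hj
  rw [aW_succ]
  have h1 : ∀ y ∈ univ.filter (fun y => some y ≠ f), w1 P a y * aW P z l y (some a) ≤
      1 / (Fintype.card V : ℝ) * aW P z l y none + (if y ∈ U then aW P z l y (some a) else 0) := by
    intro y hy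
    have hy' : some y ≠ f := (Finset.mem_filter.1 hy).2
    have hn : 0 ≤ 1 / (Fintype.card V : ℝ) * aW P z l y none :=
      mul_nonneg (by positivity) (aW_nonneg P z l _ _)
    by_cases h : s(a, y) ∈ cE P
    · have hw : w1 P a y = 1 := by
        unfold w1
        rw [if_pos h]
      rw [hw, one_mul, if_pos (hU y hy' h)]
      linarith
    · have hw : w1 P a y = 1 / (Fintype.card V : ℝ) := by
        unfold w1
        rw [if_neg h, if_pos haP]
      rw [hw]
      have h2 : 1 / (Fintype.card V : ℝ) * aW P z l y (some a) ≤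
          1 / (Fintype.card V : ℝ) * aW P z l y none :=
        mul_le_mul_of_nonneg_left (aW_le_none P z l y _) (by positivity)
      have h3 : 0 ≤ (if y ∈ U then aW P z l y (some a) else 0) := by
        split_ifs
        · exact aW_nonneg P z l _ _
        · exact le_refl _
      linarith
  calc ∑ y ∈ univ.filter (fun y => some y ≠ f), w1 P a y * aW P z l y (some a)
      ≤ ∑ y ∈ univ.filter (fun y => some y ≠ f), (1 / (Fintype.card V : ℝ) * aW P z l y none +
          (if y ∈ U then aW P z l y (some a) else 0)) := Finset.sum_le_sum h1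
    _ ≤ ∑ y, (1 / (Fintype.card V : ℝ) * aW P z l y none +
          (if y ∈ U then aW P z l y (some a) else 0)) := by
        refine Finset.sum_le_sum_of_subset_of_nonneg (Finset.filter_subset _ _) ?_
        intro y _ _
        refine add_nonneg (mul_nonneg (by positivity) (aW_nonneg P z l _ _)) ?_
        split_ifs
        · exact aW_nonneg P z l _ _
        · exact le_refl _
    _ = Tt P z l / (Fintype.card V : ℝ) + ∑ y ∈ U, aW P z l y (some a) := by
        rw [Finset.sum_add_distrib, ← Finset.mul_sum, Finset.sum_ite_mem, Finset.univ_inter]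
        unfold Tt
        ring

/-- (3) -/
private theorem up_P {P : List V} (hP : P.Nodup) {z : V} (hz : P.getLast? = some z) (l : ℕ) :
    ∀ (j : ℕ) (a : V) (f : Option V), P[j]? = some a →
      (∀ i b, j = i + 1 → P[i]? = some b → f = some b) →
      aW P z l a f ≤ Ss P z l + (if j + l + 1 = P.length then 1 else 0) := by
  induction l with
  | zero =>
    intro j a f hj hf
    rw [aW_zero, Ss_zero, zero_add]
    by_cases h : a = z
    · subst h
      rw [if_pos rfl, if_pos (by rw [add_zero]; exact last_P hP hz hj)]
    · rw [if_neg h]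
      split_ifs <;> norm_num
  | succ l ih =>
    intro j a f hj hf
    rw [Ss_succ]
    cases hb : P[j + 1]? with
    | none =>
      have h1 := split_P (z := z) (l := l) (f := f) hj ∅ (by
        intro y hy hs
        rcases adj_P hP hj hs with h | ⟨i, h, h'⟩
        · rw [hb] at h
          exact absurd h (by simp)
        · exact absurd (hf i y h h').symm hy)
      rw [Finset.sum_empty, add_zero] at h1
      have h2 := Ss_nonneg P z l
      have h3 : (0 : ℝ) ≤ (if j + (l + 1) + 1 = P.length then 1 else 0) := by
        split_ifs <;> norm_num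
      linarith
    | some b =>
      have h1 := split_P (z := z) (l := l) (f := f) hj {b} (by
        intro y hy hs
        rcases adj_P hP hj hs with h | ⟨i, h, h'⟩
        · rw [hb] at h
          exact Finset.mem_singleton.2 (Option.some.inj h).symm
        · exact absurd (hf i y h h').symm hy)
      rw [Finset.sum_singleton] at h1
      have h2 := ih (j + 1) b (some a) hb (by
        intro i c hi hc
        have : i = j := by omega
        subst this
        exact hj.symm.trans hc)
      have h3 : (j + 1 + l + 1 = P.length) = (j + (l + 1) + 1 = P.length) := by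
        congr 1
        omega
      simp only [h3] at h2
      linarith

/-- (4) -/
private theorem down_P {P : List V} (hP : P.Nodup) {z : V} (hz : P.getLast? = some z) (l : ℕ) :
    ∀ (j : ℕ) (a b : V), P[j]? = some a → P[j + 1]? = some b →
      aW P z l a (some b) ≤ Ss P z l := by
  induction l with
  | zero =>
    intro j a b hj hb
    rw [aW_zero, Ss_zero]
    have h : a ≠ z := by
      rintro rfl
      have h1 := last_P hP hz hj
      have h2 : j + 1 < P.length := (List.getElem?_eq_some_iff.1 hb).1
      omega
    rw [if_neg h]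
  | succ l ih =>
    intro j a b hj hb
    rw [Ss_succ]
    cases j with
    | zero =>
      have h1 := split_P (z := z) (l := l) (f := some b) hj ∅ (by
        intro y hy hs
        rcases adj_P hP hj hs with h | ⟨i, h, h'⟩
        · rw [hb] at h
          exact absurd h.symm hy
        · omega)
      rw [Finset.sum_empty, add_zero] at h1
      have h2 := Ss_nonneg P z l
      linarith
    | succ j =>
      have hlt : j + 1 < P.length := (List.getElem?_eq_some_iff.1 hj).1
      obtain ⟨c, hc⟩ : ∃ c, P[j]? = some c := ⟨P[j], List.getElem?_eq_getElem (by omega)⟩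
      have h1 := split_P (z := z) (l := l) (f := some b) hj {c} (by
        intro y hy hs
        rcases adj_P hP hj hs with h | ⟨i, h, h'⟩
        · rw [hb] at h
          exact absurd h.symm hy
        · have : i = j := by omega
          subst this
          rw [hc] at h'
          exact Finset.mem_singleton.2 (Option.some.inj h').symm)
      rw [Finset.sum_singleton] at h1
      have h2 := ih j c a hc hj
      linarith

/-- (5) -/
private theorem both_P {P : List V} (hP : P.Nodup) {z : V} (hz : P.getLast? = some z) (l : ℕ)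
    (j : ℕ) (a : V) (hj : P[j]? = some a) :
    aW P z l a none ≤ 2 * Ss P z l + (if j + l + 1 = P.length then 1 else 0) := by
  cases l with
  | zero =>
    rw [aW_zero, Ss_zero, mul_zero, zero_add]
    by_cases h : a = z
    · subst h
      rw [if_pos rfl, if_pos (by rw [add_zero]; exact last_P hP hz hj)]
    · rw [if_neg h]
      split_ifs <;> norm_num
  | succ l =>
    rw [Ss_succ]
    -- the candidates along `P`
    let U1 : Finset V := univ.filter fun y => P[j + 1]? = some y
    let U2 : Finset V := univ.filter fun y => ∃ i, j = i + 1 ∧ P[i]? = some y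
    have h1 := split_P (z := z) (l := l) (f := none) hj (U1 ∪ U2) (by
      intro y _ hs
      rcases adj_P hP hj hs with h | h
      · exact Finset.mem_union_left _ (Finset.mem_filter.2 ⟨Finset.mem_univ _, h⟩)
      · exact Finset.mem_union_right _ (Finset.mem_filter.2 ⟨Finset.mem_univ _, h⟩))
    have h2 : ∑ y ∈ U1 ∪ U2, aW P z l y (some a) ≤
        ∑ y ∈ U1, aW P z l y (some a) + ∑ y ∈ U2, aW P z l y (some a) := by
      have := Finset.sum_union_inter (s₁ := U1) (s₂ := U2) (f := fun y => aW P z l y (some a))
      have h3 : 0 ≤ ∑ y ∈ U1 ∩ U2, aW P z l y (some a) :=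
        Finset.sum_nonneg fun y _ => aW_nonneg P z l _ _
      linarith
    have h3 : ∑ y ∈ U1, aW P z l y (some a) ≤
        Ss P z l + (if j + (l + 1) + 1 = P.length then 1 else 0) := by
      cases hb : P[j + 1]? with
      | none =>
        have h4 : U1 = ∅ := by
          ext y
          simp [U1, hb]
        rw [h4, Finset.sum_empty]
        have h5 : (0 : ℝ) ≤ (if j + (l + 1) + 1 = P.length then 1 else 0) := by
          split_ifs <;> norm_num
        have h6 := Ss_nonneg P z l
        linarith
      | some b =>
        have h4 : U1 = {b} := by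
          ext y
          simp [U1, hb, eq_comm]
        rw [h4, Finset.sum_singleton]
        have h5 := up_P hP hz l (j + 1) b (some a) hb (by
          intro i c hi hc
          have : i = j := by omega
          subst this
          exact hj.symm.trans hc)
        have h6 : (j + 1 + l + 1 = P.length) = (j + (l + 1) + 1 = P.length) := by
          congr 1
          omega
        simp only [h6] at h5
        exact h5
    have h4 : ∑ y ∈ U2, aW P z l y (some a) ≤ Ss P z l := by
      cases j with
      | zero =>
        have h4 : U2 = ∅ := by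
          ext y
          simp [U2]
        rw [h4, Finset.sum_empty]
        exact Ss_nonneg P z l
      | succ j =>
        have hlt : j + 1 < P.length := (List.getElem?_eq_some_iff.1 hj).1
        obtain ⟨c, hc⟩ : ∃ c, P[j]? = some c := ⟨P[j], List.getElem?_eq_getElem (by omega)⟩
        have h4 : U2 = {c} := by
          ext y
          simp only [U2, Finset.mem_filter, Finset.mem_univ, true_and, Finset.mem_singleton]
          constructor
          · rintro ⟨i, hi, hi'⟩
            have : i = j := by omega
            subst this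
            rw [hc] at hi'
            exact (Option.some.inj hi').symm
          · rintro rfl
            exact ⟨j, rfl, hc⟩
        rw [h4, Finset.sum_singleton]
        exact down_P hP hz l j c a hc hj
    have h5 : 0 ≤ Tt P z l / (Fintype.card V : ℝ) :=
      div_nonneg (Tt_nonneg P z l) (Nat.cast_nonneg _)
    linarith

private theorem Tt_zero (P : List V) (z : V) : Tt P z 0 = 1 := by
  unfold Tt
  simp only [aW_zero]
  rw [Finset.sum_ite_eq' univ z (fun _ => (1 : ℝ)), if_pos (Finset.mem_univ z)]

/-- (6) -/
private theorem Tt_succ_le {P : List V} (hP : P.Nodup) {z : V} (hz : P.getLast? = some z)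
    (hn : 0 < Fintype.card V) (l : ℕ) :
    Tt P z (l + 1) ≤ 2 * Tt P z l + 2 * P.length * Ss P z (l + 1) + 1 := by
  have hn' : (0 : ℝ) < (Fintype.card V : ℝ) := by exact_mod_cast hn
  have e1 : Tt P z (l + 1) = ∑ y ∈ univ.filter (fun y => y ∈ P), aW P z (l + 1) y none +
      ∑ y ∈ univ.filter (fun y => ¬ y ∈ P), aW P z (l + 1) y none := by
    unfold Tt
    rw [Finset.sum_filter_add_sum_filter_not]
  have e2 : ∑ y ∈ univ.filter (fun y => ¬ y ∈ P), aW P z (l + 1) y none ≤ 2 * Tt P z l := by
    calc ∑ y ∈ univ.filter (fun y => ¬ y ∈ P), aW P z (l + 1) y none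
        ≤ ∑ y ∈ univ.filter (fun y => ¬ y ∈ P), 2 / (Fintype.card V : ℝ) * Tt P z l :=
          Finset.sum_le_sum fun y hy => off_P P z l y none (Finset.mem_filter.1 hy).2
      _ ≤ ∑ y : V, 2 / (Fintype.card V : ℝ) * Tt P z l := by
          refine Finset.sum_le_sum_of_subset_of_nonneg (Finset.filter_subset _ _) ?_
          intro y _ _
          exact mul_nonneg (by positivity) (Tt_nonneg P z l)
      _ = 2 * Tt P z l := by
          rw [Finset.sum_const, Finset.card_univ, nsmul_eq_mul]
          field_simp
  have e3 : ∀ y ∈ univ.filter (fun y => y ∈ P), aW P z (l + 1) y none ≤ 2 * Ss P z (l + 1) +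
      (if ∃ j, P[j]? = some y ∧ j + (l + 1) + 1 = P.length then 1 else 0) := by
    intro y hy
    have hyP : y ∈ P := (Finset.mem_filter.1 hy).2
    obtain ⟨j, hj⟩ := List.mem_iff_getElem?.1 hyP
    have h1 := both_P hP hz (l + 1) j y hj
    by_cases h : j + (l + 1) + 1 = P.length
    · rw [if_pos h] at h1
      rw [if_pos ⟨j, hj, h⟩]
      exact h1
    · rw [if_neg h] at h1
      have h2 : (0 : ℝ) ≤ (if ∃ j, P[j]? = some y ∧ j + (l + 1) + 1 = P.length then 1 else 0) := by
        split_ifs <;> norm_num
      linarith
  have e4 : ∑ y ∈ univ.filter (fun y => y ∈ P), aW P z (l + 1) y none ≤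
      2 * P.length * Ss P z (l + 1) + 1 := by
    refine (Finset.sum_le_sum e3).trans ?_
    rw [Finset.sum_add_distrib, Finset.sum_const, nsmul_eq_mul]
    have h1 : ((univ.filter (fun y => y ∈ P)).card : ℝ) ≤ (P.length : ℝ) := by
      have h2 : (univ.filter (fun y => y ∈ P)) = P.toFinset := by
        ext y
        simp
      rw [h2]
      exact_mod_cast List.toFinset_card_le P
    have h2 : ∑ y ∈ univ.filter (fun y => y ∈ P),
        (if ∃ j, P[j]? = some y ∧ j + (l + 1) + 1 = P.length then (1 : ℝ) else 0) ≤ 1 := by
      rw [Finset.sum_boole]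
      have h3 : ((univ.filter (fun y => y ∈ P)).filter
          (fun y => ∃ j, P[j]? = some y ∧ j + (l + 1) + 1 = P.length)).card ≤ 1 := by
        rw [Finset.card_le_one]
        intro a ha b hb
        obtain ⟨i, hi1, hi2⟩ := (Finset.mem_filter.1 ha).2
        obtain ⟨j, hj1, hj2⟩ := (Finset.mem_filter.1 hb).2
        have : i = j := by omega
        subst this
        rw [hi1] at hj1
        exact Option.some.inj hj1
      exact_mod_cast h3
    have h3 : ((univ.filter (fun y => y ∈ P)).card : ℝ) * (2 * Ss P z (l + 1)) ≤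
        (P.length : ℝ) * (2 * Ss P z (l + 1)) :=
      mul_le_mul_of_nonneg_right h1 (mul_nonneg (by norm_num) (Ss_nonneg P z (l + 1)))
    linarith
  rw [e1]
  linarith

private theorem sum_two_pow (l : ℕ) : ∑ m ∈ range l, (3 : ℝ) * 2 ^ m ≤ 3 * 2 ^ l := by
  rw [← Finset.mul_sum]
  have h1 : ∑ m ∈ range l, (2 : ℝ) ^ m = 2 ^ l - 1 := by
    induction l with
    | zero => simp
    | succ l ih =>
      rw [Finset.sum_range_succ, ih, pow_succ]
      ring
  rw [h1]
  linarith

/-- (7) -/
private theorem Tt_le {P : List V} (hP : P.Nodup) {z : V} (hz : P.getLast? = some z)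
    (hn : 0 < Fintype.card V) {q : ℕ} (hq : 6 * P.length * (q + 1) ≤ Fintype.card V) (l : ℕ) :
    l ≤ q → Tt P z l ≤ 2 ^ l * (2 + l * (6 * P.length / (Fintype.card V : ℝ))) - 1 := by
  have hn' : (0 : ℝ) < (Fintype.card V : ℝ) := by exact_mod_cast hn
  set δ : ℝ := 6 * P.length / (Fintype.card V : ℝ) with hδ
  have hδ0 : 0 ≤ δ := by
    rw [hδ]
    positivity
  have hq' : ((q : ℝ) + 1) * δ ≤ 1 := by
    rw [hδ, ← mul_div_assoc, div_le_one hn']
    have : ((6 * P.length * (q + 1) : ℕ) : ℝ) ≤ (Fintype.card V : ℝ) := by exact_mod_cast hq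
    push_cast at this
    linarith
  have h3 : ∀ m : ℕ, m ≤ q → (2 : ℝ) ^ m * (2 + m * δ) - 1 ≤ 3 * 2 ^ m := by
    intro m hm
    have hm' : (m : ℝ) ≤ (q : ℝ) := by exact_mod_cast hm
    have h4 : (m : ℝ) * δ ≤ 1 := by
      have : (m : ℝ) * δ ≤ ((q : ℝ) + 1) * δ := mul_le_mul_of_nonneg_right (by linarith) hδ0
      linarith
    have h5 : (0 : ℝ) < 2 ^ m := by positivity
    nlinarith
  induction l using Nat.strong_induction_on with
  | _ l ih =>
    intro hl
    cases l with
    | zero =>
      rw [Tt_zero]
      norm_num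
    | succ l =>
      have h1 := Tt_succ_le hP hz hn l
      have h2 := ih l (Nat.lt_succ_self l) (by omega)
      have h4 : Ss P z (l + 1) ≤ 3 * 2 ^ (l + 1) / (Fintype.card V : ℝ) := by
        unfold Ss
        refine div_le_div_of_nonneg_right ?_ hn'.le
        refine (Finset.sum_le_sum fun m hm => ?_).trans (sum_two_pow (l + 1))
        have hm' := Finset.mem_range.1 hm
        exact (ih m hm' (by omega)).trans (h3 m (by omega))
      have h5 : 2 * P.length * Ss P z (l + 1) ≤ δ * 2 ^ (l + 1) := by
        have h6 : 2 * (P.length : ℝ) * Ss P z (l + 1) ≤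
            2 * (P.length : ℝ) * (3 * 2 ^ (l + 1) / (Fintype.card V : ℝ)) :=
          mul_le_mul_of_nonneg_left h4 (by positivity)
        have h7 : 2 * (P.length : ℝ) * (3 * 2 ^ (l + 1) / (Fintype.card V : ℝ)) =
            δ * 2 ^ (l + 1) := by
          rw [hδ]
          ring
        linarith
      have h6 : (2 : ℝ) ^ (l + 1) = 2 * 2 ^ l := by
        rw [pow_succ]
        ring
      push_cast
      rw [h6] at h5 ⊢
      nlinarith

end abd

theorem p_abd : S_abd := by
  intro V _ P x z q hP hx hz hq
  have hxP : P[0]? = some x := by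
    rw [← List.head?_eq_getElem?]
    exact hx
  have hn : 0 < Fintype.card V := Fintype.card_pos_iff.2 ⟨x⟩
  have hn' : (0 : ℝ) < (Fintype.card V : ℝ) := by exact_mod_cast hn
  have h1 := both_P hP hz q 0 x hxP
  have h2 : Ss P z q ≤ 3 * 2 ^ q / (Fintype.card V : ℝ) := by
    unfold Ss
    refine div_le_div_of_nonneg_right ?_ hn'.le
    refine (Finset.sum_le_sum fun m hm => ?_).trans (sum_two_pow q)
    have hm' := Finset.mem_range.1 hm
    refine (Tt_le hP hz hn hq m (by omega)).trans ?_
    have hδ0 : (0 : ℝ) ≤ 6 * P.length / (Fintype.card V : ℝ) := by positivity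
    have hq' : ((q : ℝ) + 1) * (6 * P.length / (Fintype.card V : ℝ)) ≤ 1 := by
      rw [← mul_div_assoc, div_le_one hn']
      have : ((6 * P.length * (q + 1) : ℕ) : ℝ) ≤ (Fintype.card V : ℝ) := by exact_mod_cast hq
      push_cast at this
      linarith
    have hm2 : (m : ℝ) ≤ (q : ℝ) := by exact_mod_cast (by omega : m ≤ q)
    have h4 : (m : ℝ) * (6 * P.length / (Fintype.card V : ℝ)) ≤ 1 := by
      have : (m : ℝ) * (6 * P.length / (Fintype.card V : ℝ)) ≤
          ((q : ℝ) + 1) * (6 * P.length / (Fintype.card V : ℝ)) :=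
        mul_le_mul_of_nonneg_right (by linarith) hδ0
      linarith
    have h5 : (0 : ℝ) < 2 ^ m := by positivity
    nlinarith
  have h3 : (if 0 + q + 1 = P.length then (1 : ℝ) else 0) =
      (if P.length = q + 1 then 1 else 0) := by
    by_cases h : P.length = q + 1
    · rw [if_pos h, if_pos (by omega)]
    · rw [if_neg h, if_neg (by omega)]
  rw [h3] at h1
  have h4 : 2 * (3 * 2 ^ q / (Fintype.card V : ℝ)) = 6 * 2 ^ q / (Fintype.card V : ℝ) := by ring
  linarith

end Pool.Agent.Lib.MP_fce888_co.G
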