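import Pool.Agent.Lib.MP_fce888_co.G.Stm

set_option autoImplicit false

namespace Pool.Agent.Lib.MP_fce888_co.G

open Finset
open scoped Classical

private theorem w1_nonneg' {V : Type} [Fintype V] (P : List V) (x y : V) : 0 ≤ w1 P x y := by
  unfold w1
  split_ifs
  · norm_num
  · positivity
  · positivity

private theorem W_nonneg' {V : Type} [Fintype V] (P : List V) : ∀ P' : List V, 0 ≤ W P P'
  | [] => by simp [W]
  | [_] => by simp [W]
  | x :: y :: t => by
      rw [W]
      exact mul_nonneg (w1_nonneg' P x y) (W_nonneg' P (y :: t))

/-- the index set -/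
private noncomputable def SF {V : Type} [Fintype V] (z : V) (l : ℕ) (x : V) (f : Option V) :
    Finset (List V) :=
  (lists V (l + 1)).filter (fun P' => P'.Nodup ∧ P'.head? = some x ∧
      P'.getLast? = some z ∧ ∀ y, P'[1]? = some y → some y ≠ f)

private theorem mem_SF {V : Type} [Fintype V] {z : V} {l : ℕ} {x : V} {f : Option V} {P' : List V} :
    P' ∈ SF z l x f ↔ P'.length = l + 1 ∧ P'.Nodup ∧ P'.head? = some x ∧
      P'.getLast? = some z ∧ ∀ y, P'[1]? = some y → some y ≠ f := by
  unfold SF
  rw [Finset.mem_filter, mem_lists]

private theorem dom_aux {V : Type} [Fintype V] (P : List V) (z : V) (l : ℕ) :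
    ∀ (x : V) (f : Option V), ∑ P' ∈ SF z l x f, W P P' ≤ aW P z l x f := by
  induction l with
  | zero =>
    intro x f
    rw [aW]
    by_cases hxz : x = z
    · rw [if_pos hxz]
      have hsub : SF z 0 x f ⊆ {[x]} := by
        intro P' hP'
        obtain ⟨h1, -, h3, -, -⟩ := mem_SF.1 hP'
        obtain ⟨a, rfl⟩ := List.length_eq_one_iff.1 h1
        simp at h3
        simp [h3]
      calc ∑ P' ∈ SF z 0 x f, W P P' ≤ ∑ P' ∈ ({[x]} : Finset (List V)), W P P' :=
            Finset.sum_le_sum_of_subset_of_nonneg hsub (fun i _ _ => W_nonneg' P i)
        _ = 1 := by simp [W]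
    · rw [if_neg hxz]
      have hem : SF z 0 x f = ∅ := by
        apply Finset.eq_empty_of_forall_notMem
        intro P' hP'
        obtain ⟨h1, -, h3, h4, -⟩ := mem_SF.1 hP'
        obtain ⟨a, rfl⟩ := List.length_eq_one_iff.1 h1
        simp at h3 h4
        exact hxz (h3.symm.trans h4)
      rw [hem, Finset.sum_empty]
  | succ l ih =>
    intro x f
    rw [aW]
    have hsub : SF z (l + 1) x f ⊆ (univ.filter (fun y => some y ≠ f)).biUnion
        (fun y => (SF z l y (some x)).image (List.cons x)) := by
      intro P' hP'
      obtain ⟨h1, h2, h3, h4, h5⟩ := mem_SF.1 hP'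
      match P', h1, h2, h3, h4, h5 with
      | [], h1, _, _, _, _ => simp at h1
      | [a], h1, _, _, _, _ => simp at h1
      | a :: y :: t, h1, h2, h3, h4, h5 =>
        simp at h3
        subst h3
        rw [Finset.mem_biUnion]
        refine ⟨y, ?_, ?_⟩
        · rw [Finset.mem_filter]
          exact ⟨Finset.mem_univ _, h5 y (by simp)⟩
        · rw [Finset.mem_image]
          refine ⟨y :: t, ?_, rfl⟩
          rw [mem_SF]
          refine ⟨by simpa using h1, (List.nodup_cons.1 h2).2, by simp, ?_, ?_⟩
          · rw [List.getLast?_cons_cons] at h4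
            exact h4
          · intro w hw hwx
            have hwa : w = a := Option.some.inj hwx
            subst hwa
            have : w ∈ y :: t := List.mem_of_getElem? hw
            exact (List.nodup_cons.1 h2).1 this
    calc ∑ P' ∈ SF z (l + 1) x f, W P P'
        ≤ ∑ P' ∈ (univ.filter (fun y => some y ≠ f)).biUnion
            (fun y => (SF z l y (some x)).image (List.cons x)), W P P' :=
          Finset.sum_le_sum_of_subset_of_nonneg hsub (fun i _ _ => W_nonneg' P i)
      _ = ∑ y ∈ univ.filter (fun y => some y ≠ f),
            ∑ P' ∈ (SF z l y (some x)).image (List.cons x), W P P' := by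
          apply Finset.sum_biUnion
          intro y _ y' _ hne
          show Disjoint ((SF z l y (some x)).image (List.cons x))
            ((SF z l y' (some x)).image (List.cons x))
          rw [Finset.disjoint_left]
          intro Q hQ hQ'
          obtain ⟨A, hA, hAQ⟩ := Finset.mem_image.1 hQ
          obtain ⟨B, hB, hBQ⟩ := Finset.mem_image.1 hQ'
          have hAB : A = B := by
            have := hAQ.trans hBQ.symm
            exact (List.cons.inj this).2
          subst hAB
          have h1 := (mem_SF.1 hA).2.2.1
          have h2 := (mem_SF.1 hB).2.2.1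
          exact hne (Option.some.inj (h1.symm.trans h2))
      _ = ∑ y ∈ univ.filter (fun y => some y ≠ f),
            ∑ A ∈ SF z l y (some x), W P (x :: A) := by
          apply Finset.sum_congr rfl
          intro y _
          rw [Finset.sum_image]
          intro A _ B _ hAB
          exact (List.cons.inj hAB).2
      _ = ∑ y ∈ univ.filter (fun y => some y ≠ f),
            w1 P x y * ∑ A ∈ SF z l y (some x), W P A := by
          apply Finset.sum_congr rfl
          intro y _
          rw [Finset.mul_sum]
          apply Finset.sum_congr rfl
          intro A hA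
          have h1 := (mem_SF.1 hA).2.2.1
          match A, h1 with
          | [], h1 => simp at h1
          | a :: t, h1 =>
            simp at h1
            subst h1
            rw [W]
      _ ≤ ∑ y ∈ univ.filter (fun y => some y ≠ f), w1 P x y * aW P z l y (some x) := by
          apply Finset.sum_le_sum
          intro y _
          exact mul_le_mul_of_nonneg_left (ih y (some x)) (w1_nonneg' P x y)

theorem p_dom : S_dom := by
  intro V _ P z l x f
  exact dom_aux P z l x f

end Pool.Agent.Lib.MP_fce888_co.G
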