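import Pool.Agent.Lib.MP_fce888_co.G.Stm

set_option autoImplicit false

namespace Pool.Agent.Lib.MP_fce888_co.G

open Finset
open scoped Classical

private lemma lolE_swap {α β : Type} (A : Finset α) (B : Finset β) (r : α → β → Prop)
    [hr : ∀ a b, Decidable (r a b)] :
    ∑ a ∈ A, (B.filter fun b => r a b).card = ∑ b ∈ B, (A.filter fun a => r a b).card := by
  simp only [Finset.card_filter]
  exact Finset.sum_comm

private lemma lolE_one {V : Type} [Fintype V] (hnn : S_nn) (m i : ℕ) (hi : 2 ≤ i) (him : i < m)
    (hn : 2 * m * (m + 26) ≤ 3 * Fintype.card V) (s : List V) (hs : s.length = m) :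
    (((cub V).filter fun G => s ∈ lol G m i).card : ℝ) * (Fintype.card V : ℝ) ^ m ≤
      2 * 2 ^ m * ((cub V).card : ℝ) := by
  have hR : (0 : ℝ) ≤ 2 * 2 ^ m * ((cub V).card : ℝ) := by positivity
  by_cases hnd : s.Nodup
  · have h0 : 0 < s.length := by omega
    have h1 : i < s.length := by omega
    set x := s[0] with hx
    set y := s[i] with hy
    have hx' : s[0]? = some x := List.getElem?_eq_getElem h0
    have hy' : s[i]? = some y := List.getElem?_eq_getElem h1
    set F : Finset (Sym2 V) := insert s(x, y) (cE s) with hF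
    have hnot : s(x, y) ∉ cE s := by
      rw [mem_cE_iff]
      rintro ⟨j, a, b, ha, hb, hab⟩
      rw [Sym2.eq_iff] at hab
      rcases hab with ⟨e1, e2⟩ | ⟨e1, e2⟩
      · have k1 : (0 : ℕ) = j := (List.getElem?_inj h0 hnd).1 (by rw [hx', ha, e1])
        have k2 : i = j + 1 := (List.getElem?_inj h1 hnd).1 (by rw [hy', hb, e2])
        omega
      · have k1 : (0 : ℕ) = j + 1 := (List.getElem?_inj h0 hnd).1 (by rw [hx', hb, e1])
        omega
    have hFc : F.card = m := by
      rw [hF, Finset.card_insert_of_notMem hnot, card_cE hnd, hs]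
      omega
    have hvs : (vs F).card ≤ m := by
      have hsub : vs F ⊆ s.toFinset := by
        intro v hv
        rw [hF, vs_insert, Finset.mem_insert, Finset.mem_insert] at hv
        rcases hv with rfl | rfl | hv
        · exact List.mem_toFinset.2 (List.getElem_mem h0)
        · exact List.mem_toFinset.2 (List.getElem_mem h1)
        · exact vs_cE_subset s hv
      calc (vs F).card ≤ s.toFinset.card := Finset.card_le_card hsub
        _ ≤ s.length := List.toFinset_card_le s
        _ = m := hs
    have hle : ((cub V).filter fun G => s ∈ lol G m i).card ≤ NN F := by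
      unfold NN
      apply Finset.card_le_card
      intro G hG
      rw [Finset.mem_filter] at hG ⊢
      refine ⟨hG.1, ?_⟩
      obtain ⟨_, _, hch, a, b, ha, hb, hab⟩ := mem_lol.1 hG.2
      have ea : x = a := by rw [hx'] at ha; exact Option.some.inj ha
      have eb : y = b := by rw [hy'] at hb; exact Option.some.inj hb
      intro e he
      rw [hF, Finset.mem_insert] at he
      rcases he with rfl | he
      · rw [SimpleGraph.mem_edgeSet, ea, eb]; exact hab
      · exact (chain_iff s).1 hch e he
    have h2 := hnn V F (by rw [hFc]; exact hn)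
    rw [hFc] at h2
    have h3 : (2 : ℝ) ^ (vs F).card ≤ 2 ^ m := pow_le_pow_right₀ (by norm_num) hvs
    calc (((cub V).filter fun G => s ∈ lol G m i).card : ℝ) * (Fintype.card V : ℝ) ^ m
        ≤ (NN F : ℝ) * (Fintype.card V : ℝ) ^ m := by
          apply mul_le_mul_of_nonneg_right (by exact_mod_cast hle) (by positivity)
      _ ≤ 2 * 2 ^ (vs F).card * ((cub V).card : ℝ) := h2
      _ ≤ 2 * 2 ^ m * ((cub V).card : ℝ) := by
          apply mul_le_mul_of_nonneg_right _ (by positivity)
          linarith
  · have he : ((cub V).filter fun G => s ∈ lol G m i) = ∅ := by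
      apply Finset.filter_eq_empty_iff.2
      intro G _ hG
      exact hnd (mem_lol.1 hG).2.1
    rw [he]
    simp only [Finset.card_empty, Nat.cast_zero, zero_mul]
    exact hR

theorem p_lolE : S_nn → S_lolE := by
  intro hnn V _ m i hi him hn
  have hn0 : 0 < Fintype.card V := by
    by_contra hc
    have h0 : Fintype.card V = 0 := by omega
    rw [h0] at hn
    have hm : 0 < m := by omega
    have : 0 < 2 * m * (m + 26) := by positivity
    omega
  have hnR : (0 : ℝ) < (Fintype.card V : ℝ) ^ m := by positivity
  have hsw : (∑ G ∈ cub V, (lol G m i).card) =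
      ∑ s ∈ lists V m, ((cub V).filter fun G => s ∈ lol G m i).card := by
    rw [← lolE_swap (cub V) (lists V m) (fun G s => s ∈ lol G m i)]
    apply Finset.sum_congr rfl
    intro G _
    congr 1
    ext s
    rw [Finset.mem_filter]
    constructor
    · intro h
      exact ⟨mem_lists.2 (mem_lol.1 h).1, h⟩
    · exact fun h => h.2
  rw [hsw]
  push_cast
  have hb : ∀ s ∈ lists V m, (((cub V).filter fun G => s ∈ lol G m i).card : ℝ) ≤
      2 * 2 ^ m * ((cub V).card : ℝ) / (Fintype.card V : ℝ) ^ m := by
    intro s hs
    rw [le_div_iff₀ hnR]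
    exact lolE_one hnn m i hi him hn s (mem_lists.1 hs)
  calc ∑ s ∈ lists V m, (((cub V).filter fun G => s ∈ lol G m i).card : ℝ)
      ≤ ∑ s ∈ lists V m, 2 * 2 ^ m * ((cub V).card : ℝ) / (Fintype.card V : ℝ) ^ m :=
        Finset.sum_le_sum hb
    _ = 2 * 2 ^ m * ((cub V).card : ℝ) := by
        rw [Finset.sum_const, card_lists, nsmul_eq_mul]
        push_cast
        field_simp

end Pool.Agent.Lib.MP_fce888_co.G
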