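import Pool.Agent.Lib.MP_fce888_co.G.Stm

set_option autoImplicit false

/-!
# MP_fce888_co, section G: piece nbdec
-/

namespace Pool.Agent.Lib.MP_fce888_co.G

open Finset
open scoped Classical

private theorem nbdec_NBk_tail {V : Type} (x : V) (l : List V) (h : NBk (x :: l)) : NBk l := by
  cases l with
  | nil => trivial
  | cons y l =>
    cases l with
    | nil => trivial
    | cons z t => exact h.2

/-- the possible first vertices -/
private noncomputable def nbdec_X {V : Type} [Fintype V] (G : SimpleGraph V) :
    List V → Finset V
  | y :: z :: _ => univ.filter fun x => G.Adj x y ∧ x ≠ z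
  | _ => ∅

private theorem nbdec_X_card {V : Type} [Fintype V] (G : SimpleGraph V) (hG : G ∈ cub V)
    (l : List V) (hl : l.IsChain G.Adj) : (nbdec_X G l).card ≤ 2 := by
  cases l with
  | nil => simp [nbdec_X]
  | cons y l =>
    cases l with
    | nil => simp [nbdec_X]
    | cons z t =>
      have hyz : G.Adj y z := (List.isChain_cons_cons.1 hl).1
      have h3 : (G.neighborSet y).ncard = 3 := mem_cub.1 hG y
      have h4 : (((nbdec_X G (y :: z :: t) : Finset V) : Set V)) = G.neighborSet y \ {z} := by
        ext x
        simp only [nbdec_X, coe_filter, mem_univ, true_and, Set.mem_setOf_eq, Set.mem_diff,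
          SimpleGraph.mem_neighborSet, Set.mem_singleton_iff]
        rw [G.adj_comm]
      have h5 : (G.neighborSet y \ {z}).ncard = 2 := by
        rw [Set.ncard_diff_singleton_of_mem (by exact hyz), h3]
      rw [← Set.ncard_coe_finset, h4, h5]

/-- adding the `i`-th vertex in front -/
private def nbdec_f {V : Type} (i : ℕ) (l : List V) : List V :=
  match l[i]? with
  | some x => x :: l
  | none => []

/-- the bad walks -/
private noncomputable def nbdec_bad {V : Type} [Fintype V] (G : SimpleGraph V) (L : ℕ) :
    Finset (List V) := (nb G L).filter fun l => ¬ l.Nodup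

private theorem nbdec_step {V : Type} [Fintype V] (G : SimpleGraph V) (hG : G ∈ cub V) (L : ℕ) :
    (nbdec_bad G (L + 1)).card ≤
      (nbdec_bad G L).card * 2 + ∑ i ∈ Ico 2 (L + 1), (lol G (L + 1) i).card := by
  have hsub : nbdec_bad G (L + 1) ⊆
      (nbdec_bad G L).biUnion (fun l => (nbdec_X G l).image (fun x => x :: l)) ∪
      (Ico 2 (L + 1)).biUnion (fun i => (lol G (L + 1) i).image (nbdec_f i)) := by
    intro w hw
    rw [nbdec_bad, mem_filter, mem_nb] at hw
    obtain ⟨⟨hlen, hch, hnb⟩, hnd⟩ := hw
    cases w with
    | nil => simp at hlen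
    | cons x l =>
      have hlen' : l.length = L + 1 := by simpa using hlen
      have hch' : l.IsChain G.Adj := by
        cases l with
        | nil => simp
        | cons y t => exact (List.isChain_cons_cons.1 hch).2
      have hnb' : NBk l := nbdec_NBk_tail x l hnb
      rw [mem_union]
      by_cases hl : l.Nodup
      · right
        have hx : x ∈ l := by
          by_contra hx
          exact hnd (List.nodup_cons.2 ⟨hx, hl⟩)
        obtain ⟨i, hi, hix⟩ := List.getElem_of_mem hx
        have hix' : l[i]? = some x := by
          rw [List.getElem?_eq_getElem hi, hix]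
        -- `i ≠ 0`
        have hi0 : i ≠ 0 := by
          rintro rfl
          cases l with
          | nil => simp at hi
          | cons y t =>
            simp at hix'
            have := (List.isChain_cons_cons.1 hch).1
            rw [hix'] at this
            exact G.loopless.irrefl _ this
        have hi1 : i ≠ 1 := by
          rintro rfl
          cases l with
          | nil => simp at hi
          | cons y t =>
            cases t with
            | nil => simp at hi
            | cons z t =>
              simp at hix'
              exact hnb.1 hix'.symm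
        refine mem_biUnion.2 ⟨i, mem_Ico.2 ⟨by omega, by omega⟩, mem_image.2 ⟨l, ?_, ?_⟩⟩
        · rw [mem_lol]
          refine ⟨hlen', hl, hch', ?_⟩
          cases l with
          | nil => simp at hi
          | cons y t =>
            exact ⟨y, x, by simp, hix', (List.isChain_cons_cons.1 hch).1.symm⟩
        · simp only [nbdec_f, hix']
      · left
        refine mem_biUnion.2 ⟨l, ?_, mem_image.2 ⟨x, ?_, rfl⟩⟩
        · rw [nbdec_bad, mem_filter, mem_nb]
          exact ⟨⟨hlen', hch', hnb'⟩, hl⟩
        · cases l with
          | nil => simp at hl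
          | cons y t =>
            cases t with
            | nil => simp at hl
            | cons z t =>
              simp only [nbdec_X, mem_filter, mem_univ, true_and]
              exact ⟨(List.isChain_cons_cons.1 hch).1, hnb.1⟩
  refine (card_le_card hsub).trans ((card_union_le _ _).trans (Nat.add_le_add ?_ ?_))
  · refine card_biUnion_le.trans ?_
    rw [← smul_eq_mul, ← sum_const]
    refine sum_le_sum fun l hl => card_image_le.trans ?_
    rw [nbdec_bad, mem_filter, mem_nb] at hl
    exact nbdec_X_card G hG l hl.1.2.1
  · exact card_biUnion_le.trans (sum_le_sum fun i _ => card_image_le)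

private theorem nbdec_bad_le {V : Type} [Fintype V] (G : SimpleGraph V) (hG : G ∈ cub V) (L : ℕ) :
    (nbdec_bad G L).card ≤
      ∑ m ∈ range (L + 1), ∑ i ∈ Ico 2 m, (lol G m i).card * 2 ^ (L - m) := by
  induction L with
  | zero =>
    have h : nbdec_bad G 0 = ∅ := by
      rw [eq_empty_iff_forall_notMem]
      intro l hl
      rw [nbdec_bad, mem_filter, mem_nb] at hl
      obtain ⟨⟨h1, -, -⟩, h2⟩ := hl
      obtain ⟨x, rfl⟩ := List.length_eq_one_iff.1 h1
      exact h2 (List.nodup_singleton x)
    rw [h, card_empty]
    exact Nat.zero_le _
  | succ L ih =>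
    refine (nbdec_step G hG L).trans ?_
    rw [sum_range_succ]
    refine Nat.add_le_add ?_ ?_
    · refine (Nat.mul_le_mul_right 2 ih).trans (le_of_eq ?_)
      rw [sum_mul]
      refine sum_congr rfl fun m hm => ?_
      rw [mem_range] at hm
      rw [sum_mul]
      refine sum_congr rfl fun i _ => ?_
      rw [mul_assoc, ← pow_succ]
      congr 2
      omega
    · refine le_of_eq (sum_congr rfl fun i _ => ?_)
      rw [Nat.sub_self, pow_zero, mul_one]

theorem p_nbdec : S_nbdec := by
  intro V _ G hG L
  have hsub : nb G L ⊆ paths G L ∪ nbdec_bad G L := by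
    intro l hl
    rw [mem_union]
    by_cases h : l.Nodup
    · left
      rw [mem_nb] at hl
      rw [mem_paths]
      exact ⟨hl.1, h, hl.2.1⟩
    · right
      rw [nbdec_bad, mem_filter]
      exact ⟨hl, h⟩
  exact (card_le_card hsub).trans ((card_union_le _ _).trans
    (Nat.add_le_add_left (nbdec_bad_le G hG L) _))

end Pool.Agent.Lib.MP_fce888_co.G
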