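import Pool.Agent.Lib.MP_fce888_co.G.Stm

set_option autoImplicit false

namespace Pool.Agent.Lib.MP_fce888_co.G

open Finset
open scoped Classical

private theorem nn_sumdg {V : Type} [Fintype V] (F : Finset (Sym2 V)) (hF : ∀ e ∈ F, ¬ e.IsDiag) :
    ∑ v : V, dg F v = 2 * F.card := by
  have h1 : ∀ v : V, dg F v = ∑ e ∈ F, if v ∈ e then 1 else 0 := by
    intro v
    unfold dg
    rw [Finset.card_filter]
  simp only [h1]
  rw [Finset.sum_comm, mul_comm, ← smul_eq_mul, ← Finset.sum_const]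
  apply Finset.sum_congr rfl
  intro e he
  rw [← Finset.card_filter]
  have hd := hF e he
  induction e using Sym2.ind with
  | _ a b =>
    have hab : a ≠ b := by
      intro h
      exact hd (Sym2.mk_isDiag_iff.mpr h)
    have h2 : (univ.filter fun v : V => v ∈ s(a, b)) = {a, b} := by
      ext v
      simp only [Finset.mem_filter, Finset.mem_univ, true_and, Sym2.mem_iff, Finset.mem_insert,
        Finset.mem_singleton]
    rw [h2, Finset.card_pair hab]

private theorem nn_prod {V : Type} [Fintype V] (F : Finset (Sym2 V))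
    (hF : ∀ e ∈ F, ¬ e.IsDiag) :
    ∏ v : V, Nat.descFactorial 3 (dg F v) ≤ 2 ^ (vs F).card * 3 ^ F.card := by
  have h1 : ∀ v : V, (Nat.descFactorial 3 (dg F v)) ^ 2 ≤
      (if v ∈ vs F then 4 else 1) * 3 ^ dg F v := by
    intro v
    by_cases hv : v ∈ vs F
    · rw [if_pos hv]
      generalize dg F v = d
      rcases Nat.lt_or_ge d 4 with h | h
      · have : d = 0 ∨ d = 1 ∨ d = 2 ∨ d = 3 := by omega
        rcases this with rfl | rfl | rfl | rfl <;> decide
      · rw [Nat.descFactorial_of_lt (by omega)]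
        simp
    · rw [if_neg hv]
      have h0 : dg F v = 0 := by
        unfold dg
        rw [Finset.card_eq_zero, Finset.filter_eq_empty_iff]
        intro e he hve
        exact hv (mem_vs.mpr ⟨e, he, hve⟩)
      rw [h0]
      simp
  have h2 : (∏ v : V, Nat.descFactorial 3 (dg F v)) ^ 2 ≤ (2 ^ (vs F).card * 3 ^ F.card) ^ 2 := by
    rw [← Finset.prod_pow]
    refine (Finset.prod_le_prod' fun v _ => h1 v).trans ?_
    rw [Finset.prod_mul_distrib, Finset.prod_pow_eq_pow_sum, nn_sumdg F hF,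
      Finset.prod_ite_mem, Finset.univ_inter, Finset.prod_const, mul_pow, ← pow_mul, ← pow_mul,
      mul_comm (vs F).card 2, pow_mul 2 2, mul_comm F.card 2]
    norm_num
  exact (Nat.pow_le_pow_iff_left (by norm_num)).mp h2

private theorem nn_fall (N : ℝ) (hN : 0 ≤ N) (m : ℕ) :
    ∀ k : ℕ, k ≤ m → (∀ i < k, (2 * (i : ℝ) + 26) ≤ N) →
      N ^ k * (N - k * (k + 25)) ≤ N * ∏ i ∈ range k, (N - (2 * (i : ℝ) + 26)) := by
  intro k
  induction k with
  | zero => intro _ _; simp
  | succ k ih =>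
    intro hk hle
    have h1 := ih (by omega) (fun i hi => hle i (by omega))
    have h2 : (0 : ℝ) ≤ N - (2 * (k : ℝ) + 26) := by
      have := hle k (by omega)
      linarith
    rw [Finset.prod_range_succ, ← mul_assoc]
    refine le_trans ?_ (mul_le_mul_of_nonneg_right h1 h2)
    have h3 : N ^ k * (N - k * (k + 25)) * (N - (2 * (k : ℝ) + 26)) -
        N ^ (k + 1) * (N - ((k + 1 : ℕ) : ℝ) * (((k + 1 : ℕ) : ℝ) + 25)) =
        N ^ k * (k * (k + 25) * (2 * (k : ℝ) + 26)) := by
      push_cast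
      ring
    have h4 : 0 ≤ N ^ k * (k * (k + 25) * (2 * (k : ℝ) + 26)) := by positivity
    linarith

theorem p_nn : S_prod → S_nn := by
  intro hprod V _ F hF
  by_cases h0 : NN F = 0
  · rw [h0]
    simp only [Nat.cast_zero, zero_mul]
    positivity
  have hdiag : ∀ e ∈ F, ¬ e.IsDiag := by
    unfold NN at h0
    rw [Finset.card_eq_zero, ← Ne, ← Finset.nonempty_iff_ne_empty] at h0
    obtain ⟨G, hG⟩ := h0
    rw [Finset.mem_filter] at hG
    intro e he
    exact G.not_isDiag_of_mem_edgeSet (hG.2 e he)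
  have h1 := hprod V F
  have h2 := nn_prod F hdiag
  set m := F.card with hm
  set n := Fintype.card V with hn
  -- the falling product
  have h3 : ∀ i < m, 2 * i + 26 ≤ 3 * n := by
    intro i hi
    nlinarith
  have h4 : (((∏ i ∈ range m, (3 * n - (2 * i + 26)) : ℕ)) : ℝ) =
      ∏ i ∈ range m, ((3 * n : ℝ) - (2 * (i : ℝ) + 26)) := by
    rw [Nat.cast_prod]
    apply Finset.prod_congr rfl
    intro i hi
    rw [Nat.cast_sub (h3 i (Finset.mem_range.mp hi))]
    push_cast
    ring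
  have h5 : (3 * (n : ℝ)) ^ m ≤ 2 * ((∏ i ∈ range m, (3 * n - (2 * i + 26)) : ℕ) : ℝ) := by
    rw [h4]
    rcases Nat.eq_zero_or_pos m with hm0 | hm0
    · rw [hm0]
      norm_num
    · have hnpos : 0 < 3 * n := lt_of_lt_of_le (by omega) (h3 0 hm0)
      have hnpos' : (0 : ℝ) < 3 * n := by exact_mod_cast hnpos
      have h6 := nn_fall (3 * n : ℝ) hnpos'.le m m le_rfl (fun i hi => by exact_mod_cast h3 i hi)
      have h7 : (2 * m * (m + 26) : ℝ) ≤ 3 * n := by exact_mod_cast hF
      have h8 : (3 * (n : ℝ)) ^ m * (3 * n / 2) ≤ (3 * (n : ℝ)) ^ m * (3 * n - m * (m + 25)) := by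
        apply mul_le_mul_of_nonneg_left _ (by positivity)
        have : (0 : ℝ) ≤ m := by positivity
        nlinarith
      have h9 := h8.trans h6
      have h10 : (3 * (n : ℝ)) * ((3 * (n : ℝ)) ^ m) ≤
          (3 * (n : ℝ)) * (2 * ∏ i ∈ range m, ((3 * n : ℝ) - (2 * (i : ℝ) + 26))) := by
        linarith
      exact le_of_mul_le_mul_left h10 hnpos'
  have h6 : ((NN F : ℝ)) * ((∏ i ∈ range m, (3 * n - (2 * i + 26)) : ℕ) : ℝ) ≤
      ((cub V).card : ℝ) * (2 ^ (vs F).card * 3 ^ m) := by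
    have h7 : NN F * ∏ i ∈ range m, (3 * n - (2 * i + 26)) ≤
        (cub V).card * (2 ^ (vs F).card * 3 ^ m) := h1.trans (Nat.mul_le_mul_left _ h2)
    exact_mod_cast h7
  have h7 : (NN F : ℝ) * (3 * (n : ℝ)) ^ m ≤ 2 * (((cub V).card : ℝ) * (2 ^ (vs F).card * 3 ^ m)) := by
    have h8 := mul_le_mul_of_nonneg_left h5 (Nat.cast_nonneg (α := ℝ) (NN F))
    linarith
  rw [mul_pow] at h7
  have h8 : (0 : ℝ) < 3 ^ m := by positivity
  have h9 : (3 : ℝ) ^ m * ((NN F : ℝ) * (n : ℝ) ^ m) ≤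
      3 ^ m * (2 * 2 ^ (vs F).card * ((cub V).card : ℝ)) := by
    linarith
  exact le_of_mul_le_mul_left h9 h8

end Pool.Agent.Lib.MP_fce888_co.G
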