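import Pool.Agent.Lib.MP_fce888_co.G.Stm

set_option autoImplicit false

namespace Pool.Agent.Lib.MP_fce888_co.G

open Finset
open scoped Classical

private lemma first_mem {V : Type} (p : List V) : ∀ q : List V, (∃ w ∈ q, w ∈ p) →
    ∃ t w t', q = t ++ w :: t' ∧ w ∈ p ∧ ∀ a ∈ t, a ∉ p
  | [], h => by obtain ⟨w, hw, -⟩ := h; simp at hw
  | x :: q, h => by
    by_cases hx : x ∈ p
    · exact ⟨[], x, q, rfl, hx, by simp⟩
    · have h2 : ∃ w ∈ q, w ∈ p := by
        obtain ⟨w, hw, hwp⟩ := h
        rcases List.mem_cons.1 hw with rfl | hw
        · exact absurd hwp hx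
        · exact ⟨w, hw, hwp⟩
      obtain ⟨t, w, t', rfl, hw, ht⟩ := first_mem p q h2
      refine ⟨x :: t, w, t', rfl, hw, ?_⟩
      intro a ha
      rcases List.mem_cons.1 ha with rfl | ha
      · exact hx
      · exact ht a ha

private lemma last_mem {V : Type} {l : List V} {z : V} (h : l.getLast? = some z) : z ∈ l :=
  List.mem_of_getLast? h

private lemma base {V : Type} (G : SimpleGraph V) (v a b : V) (p' q' : List V)
    (hp : (v :: a :: p').Nodup) (hq : (v :: b :: q').Nodup)
    (hpc : (v :: a :: p').IsChain G.Adj) (hqc : (v :: b :: q').IsChain G.Adj)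
    (hl : (v :: a :: p').getLast? = (v :: b :: q').getLast?) (hab : a ≠ b) :
    ∃ (s : List V) (i : ℕ), s.Nodup ∧ s.IsChain G.Adj ∧
      s.length + 2 ≤ (v :: a :: p').length + (v :: b :: q').length ∧
      2 ≤ i ∧ i < s.length ∧ (∃ x y, s[0]? = some x ∧ s[i]? = some y ∧ G.Adj x y) ∧
      s.getLast? = some v ∧ ∀ c ∈ s, c ∈ (v :: a :: p') ∨ c ∈ (v :: b :: q') := by
  -- the first vertex of `b :: q'` on `p`
  have h1 : ∃ w ∈ b :: q', w ∈ v :: a :: p' := by
    obtain ⟨z, hz⟩ : ∃ z, (b :: q').getLast? = some z :=
      ⟨_, List.getLast?_eq_getLast_of_ne_nil (List.cons_ne_nil _ _)⟩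
    refine ⟨z, last_mem hz, ?_⟩
    apply last_mem
    rw [hl, List.getLast?_cons_cons, hz]
  obtain ⟨t, w, t', hqe, hwp, ht⟩ := first_mem (v :: a :: p') (b :: q') h1
  have hwv : w ≠ v := by
    rintro rfl
    have := (List.nodup_cons.1 hq).1
    apply this
    rw [hqe]; simp
  obtain ⟨p1, p2, hpe⟩ := List.append_of_mem hwp
  obtain ⟨p1', rfl⟩ : ∃ p1', p1 = v :: p1' := by
    cases p1 with
    | nil =>
      simp only [List.nil_append, List.cons.injEq] at hpe
      exact absurd hpe.1.symm hwv
    | cons c p1' =>
      simp only [List.cons_append, List.cons.injEq] at hpe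
      exact ⟨p1', by rw [hpe.1]⟩
  have hpe' : a :: p' = p1' ++ w :: p2 := by
    simpa only [List.cons_append, List.cons.injEq, true_and] using hpe
  -- `p1 ++ [w]` is a prefix of `p`
  have hP : (v :: a :: p') = ((v :: p1') ++ [w]) ++ p2 := by
    rw [hpe]; simp
  have hQ : (b :: q') = (t ++ [w]) ++ t' := by
    rw [hqe]; simp
  have hPnd : ((v :: p1') ++ [w]).Nodup := by
    rw [hP] at hp; exact (List.nodup_append.1 hp).1
  have hPch : ((v :: p1') ++ [w]).IsChain G.Adj := by
    rw [hP] at hpc; exact (List.isChain_append.1 hpc).1
  have hQ2 : v :: b :: q' = (v :: (t ++ [w])) ++ t' := by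
    rw [hQ]; simp
  have hQnd : (v :: (t ++ [w])).Nodup := by
    rw [hQ2] at hq; exact (List.nodup_append.1 hq).1
  have hQch : (v :: (t ++ [w])).IsChain G.Adj := by
    rw [hQ2] at hqc; exact (List.isChain_append.1 hqc).1
  have htnd : t.Nodup := (List.nodup_append.1 (List.nodup_cons.1 hQnd).2).1
  have htch : (t ++ [w]).IsChain G.Adj := (List.isChain_cons.1 hQch).2
  have hrev : (w :: (v :: p1').reverse) = ((v :: p1') ++ [w]).reverse := by
    simp
  have hrnd : (w :: (v :: p1').reverse).Nodup := by
    rw [hrev]; exact List.nodup_reverse.2 hPnd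
  have hrch : (w :: (v :: p1').reverse).IsChain G.Adj := by
    rw [hrev, List.isChain_reverse]
    refine hPch.imp ?_
    intro x y h; exact h.symm
  have hlen1 : (v :: a :: p').length = p1'.length + 2 + p2.length := by
    rw [hP]; simp; omega
  have hlen2 : (v :: b :: q').length = t.length + 2 + t'.length := by
    rw [hQ2]; simp; omega
  refine ⟨t ++ w :: (v :: p1').reverse, t.length + 1 + p1'.length, ?_, ?_, ?_, ?_, ?_, ?_, ?_, ?_⟩
  · rw [List.nodup_append]
    refine ⟨htnd, hrnd, ?_⟩
    intro x hx y hy hxy
    subst hxy
    apply ht x hx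
    rw [hpe]
    rcases List.mem_cons.1 hy with rfl | hy
    · simp
    · rw [List.mem_reverse] at hy
      exact List.mem_append_left _ hy
  · rw [List.isChain_append] at htch ⊢
    refine ⟨htch.1, hrch, ?_⟩
    intro x hx y hy
    apply htch.2.2 x hx y
    simpa using hy
  · rw [hlen1, hlen2]
    simp
    omega
  · -- `2 ≤ i`
    by_contra hcon
    have h0 : t.length = 0 ∧ p1'.length = 0 := by omega
    have ht0 : t = [] := List.length_eq_zero_iff.1 h0.1
    have hp0 : p1' = [] := List.length_eq_zero_iff.1 h0.2
    rw [ht0] at hqe
    rw [hp0] at hpe'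
    simp only [List.nil_append, List.cons.injEq] at hqe hpe'
    exact hab (hpe'.1.trans hqe.1.symm)
  · simp
    omega
  · obtain ⟨x, hx⟩ : ∃ x, (t ++ [w]).head? = some x := by
      cases t with
      | nil => exact ⟨w, rfl⟩
      | cons c t => exact ⟨c, rfl⟩
    refine ⟨x, v, ?_, ?_, ?_⟩
    · cases t with
      | nil => simpa using hx
      | cons c t => simpa using hx
    · rw [List.getElem?_append_right (by omega)]
      have : t.length + 1 + p1'.length - t.length = p1'.length + 1 := by omega
      rw [this, List.getElem?_cons_succ, List.reverse_cons]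
      rw [List.getElem?_append_right (by simp)]
      simp
    · have := (List.isChain_cons.1 hQch).1 x (by rw [hx]; rfl)
      exact this.symm
  · rw [List.reverse_cons]
    have : t ++ w :: (p1'.reverse ++ [v]) = (t ++ w :: p1'.reverse) ++ [v] := by simp
    rw [this, List.getLast?_concat]
  · intro c hc
    rcases List.mem_append.1 hc with hc | hc
    · right
      rw [hQ2]
      simp [hc]
    · left
      rw [hpe]
      rcases List.mem_cons.1 hc with rfl | hc
      · simp
      · rw [List.mem_reverse] at hc
        exact List.mem_append_left _ hc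

private lemma key {V : Type} (G : SimpleGraph V) : ∀ (p q : List V) (v : V), p.Nodup → q.Nodup →
    p.IsChain G.Adj → q.IsChain G.Adj → p.head? = some v → q.head? = some v →
    p.getLast? = q.getLast? → p ≠ q →
    ∃ (s : List V) (i : ℕ), s.Nodup ∧ s.IsChain G.Adj ∧
      s.length + 2 ≤ p.length + q.length ∧
      2 ≤ i ∧ i < s.length ∧ (∃ x y, s[0]? = some x ∧ s[i]? = some y ∧ G.Adj x y) ∧
      s.getLast? = some v ∧ ∀ c ∈ s, c ∈ p ∨ c ∈ q := by
  intro p
  induction p with
  | nil => intro q v _ _ _ _ h; simp at h
  | cons x p ih =>
    intro q v hp hq hpc hqc hhp hhq hl hne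
    have hxv : x = v := by simpa using hhp
    subst hxv
    cases q with
    | nil => simp at hhq
    | cons y q =>
      have hyx : y = x := by simpa using hhq
      subst hyx
      cases p with
      | nil =>
        cases q with
        | nil => exact absurd rfl hne
        | cons b q =>
          exfalso
          rw [List.getLast?_cons_cons] at hl
          have : y ∈ b :: q := last_mem (by rw [← hl]; rfl)
          exact (List.nodup_cons.1 hq).1 this
      | cons a p =>
        cases q with
        | nil =>
          exfalso
          rw [List.getLast?_cons_cons] at hl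
          have : y ∈ a :: p := last_mem (by rw [hl]; rfl)
          exact (List.nodup_cons.1 hp).1 this
        | cons b q =>
          by_cases hab : a = b
          · subst hab
            obtain ⟨s, i, h1, h2, h3, h4, h5, ⟨x', y', h6, h7, h8⟩, h9, h10⟩ :=
              ih (a :: q) a (List.nodup_cons.1 hp).2 (List.nodup_cons.1 hq).2
                (List.isChain_cons.1 hpc).2 (List.isChain_cons.1 hqc).2 rfl rfl
                (by rw [List.getLast?_cons_cons, List.getLast?_cons_cons] at hl; exact hl)
                (by intro h; exact hne (by rw [h]))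
            have hys : y ∉ s := by
              intro hy
              rcases h10 y hy with h | h
              · exact (List.nodup_cons.1 hp).1 h
              · exact (List.nodup_cons.1 hq).1 h
            refine ⟨s ++ [y], i, ?_, ?_, ?_, h4, ?_, ⟨x', y', ?_, ?_, h8⟩, ?_, ?_⟩
            · rw [List.nodup_append]
              refine ⟨h1, by simp, ?_⟩
              intro c hc d hd hcd
              rw [List.mem_singleton] at hd
              subst hd; subst hcd
              exact hys hc
            · rw [List.isChain_append]
              refine ⟨h2, by simp, ?_⟩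
              intro c hc d hd
              rw [h9] at hc
              have hca : c = a := by simpa using hc.symm
              have hdy : d = y := by simpa using hd.symm
              rw [hca, hdy]
              exact (List.isChain_cons_cons.1 hpc).1.symm
            · simp only [List.length_append, List.length_cons, List.length_nil] at h3 ⊢
              omega
            · simp only [List.length_append, List.length_cons, List.length_nil]
              omega
            · rw [List.getElem?_append_left (by omega)]; exact h6
            · rw [List.getElem?_append_left h5]; exact h7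
            · rw [List.getLast?_concat]
            · intro c hc
              rcases List.mem_append.1 hc with hc | hc
              · rcases h10 c hc with h | h
                · exact Or.inl (List.mem_cons_of_mem _ h)
                · exact Or.inr (List.mem_cons_of_mem _ h)
              · rw [List.mem_singleton] at hc
                rw [hc]; exact Or.inl (by simp)
          · exact base G y a b p q hp hq hpc hqc hl hab

theorem p_notUP : S_notUP := by
  intro V _ G R v hUP
  unfold UP at hUP
  push Not at hUP
  obtain ⟨p, q, hp, hq, hhp, hhq, hlp, hlq, hl, hne⟩ := hUP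
  obtain ⟨s, i, h1, h2, h3, h4, h5, h6, h7, -⟩ :=
    key G p q v hp.2.1 hq.2.1 hp.2.2 hq.2.2 hhp hhq hl hne
  refine ⟨s.length, i, by omega, h4, h5, s, ?_, h7⟩
  rw [mem_lol]
  exact ⟨rfl, h1, h2, h6⟩

end Pool.Agent.Lib.MP_fce888_co.G
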