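import Pool.Agent.Lib.MP_fce888_co.G.Stm

set_option autoImplicit false
set_option linter.unusedSectionVars false

namespace Pool.Agent.Lib.MP_fce888_co.G

open Finset
open scoped Classical

private theorem tendsto_lam : Filter.Tendsto lam Filter.atTop Filter.atTop := by
  unfold lam
  refine Filter.tendsto_atTop.2 fun b => ?_
  filter_upwards [Filter.eventually_ge_atTop (2 ^ b)] with n hn
  exact Nat.le_log_of_pow_le (by norm_num) hn

private theorem ev_poly (c d : ℕ) : ∀ᶠ k : ℕ in Filter.atTop, c * (k + 1) ^ d * 2 ^ (k / 2) ≤ 2 ^ k := by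
  -- c (k+1)^d ≤ 2^(k - k/2)
  have h1 : Filter.Tendsto (fun m : ℕ => (m : ℝ) ^ d * (1 / 2 : ℝ) ^ m) Filter.atTop (nhds 0) :=
    tendsto_pow_const_mul_const_pow_of_abs_lt_one d (by norm_num [abs_lt])
  have h2 : ∀ᶠ m : ℕ in Filter.atTop, (m : ℝ) ^ d * (1 / 2 : ℝ) ^ m < 1 / ((c : ℝ) * 4 ^ d + 1) :=
    h1.eventually (gt_mem_nhds (by positivity))
  obtain ⟨m0, hm0⟩ := Filter.eventually_atTop.1 h2
  filter_upwards [Filter.eventually_ge_atTop (2 * m0 + 2)] with k hk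
  have hm : m0 ≤ k - k / 2 := by omega
  have h3 := hm0 _ hm
  set m := k - k / 2 with hmdef
  have hk1 : k + 1 ≤ 4 * m := by omega
  have h4 : ((m : ℝ) ^ d) * (1 / 2 : ℝ) ^ m * ((c : ℝ) * 4 ^ d + 1) < 1 := by
    rwa [lt_div_iff₀ (by positivity)] at h3
  have h5 : (m : ℝ) ^ d * ((c : ℝ) * 4 ^ d + 1) < 2 ^ m := by
    have h6 : ((m : ℝ) ^ d * ((c : ℝ) * 4 ^ d + 1)) * (1 / 2 : ℝ) ^ m < 1 := by
      calc _ = ((m : ℝ) ^ d) * (1 / 2 : ℝ) ^ m * ((c : ℝ) * 4 ^ d + 1) := by ring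
        _ < 1 := h4
    rw [one_div, inv_pow] at h6
    have hp : (0 : ℝ) < 2 ^ m := by positivity
    rwa [← div_eq_mul_inv, div_lt_one hp] at h6
  have h7 : c * (k + 1) ^ d ≤ 2 ^ m := by
    have h8 : ((c * (k + 1) ^ d : ℕ) : ℝ) ≤ ((2 ^ m : ℕ) : ℝ) := by
      push_cast
      have h9 : ((k : ℝ) + 1) ^ d ≤ (4 * (m : ℝ)) ^ d := by
        apply pow_le_pow_left₀ (by positivity)
        exact_mod_cast hk1
      have h10 : (c : ℝ) * ((k : ℝ) + 1) ^ d ≤ (c : ℝ) * (4 * (m : ℝ)) ^ d :=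
        mul_le_mul_of_nonneg_left h9 (by positivity)
      have h11 : (c : ℝ) * (4 * (m : ℝ)) ^ d = (m : ℝ) ^ d * ((c : ℝ) * 4 ^ d) := by
        rw [mul_pow]; ring
      have h12 : (m : ℝ) ^ d * ((c : ℝ) * 4 ^ d) ≤ (m : ℝ) ^ d * ((c : ℝ) * 4 ^ d + 1) :=
        mul_le_mul_of_nonneg_left (by linarith) (by positivity)
      linarith
    exact_mod_cast h8
  calc c * (k + 1) ^ d * 2 ^ (k / 2) ≤ 2 ^ m * 2 ^ (k / 2) := Nat.mul_le_mul_right _ h7
    _ = 2 ^ k := by rw [← pow_add]; congr 1; omega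

theorem p_num : S_num := by
  intro c d
  have h1 := tendsto_lam.eventually (ev_poly c d)
  have h2 := tendsto_lam.eventually (Filter.eventually_ge_atTop c)
  filter_upwards [h1, h2, Filter.eventually_ge_atTop 1] with n hn1 hn2 hn3
  refine ⟨hn1.trans ?_, hn2⟩
  unfold lam
  exact Nat.pow_log_le_self 2 (by omega)

end Pool.Agent.Lib.MP_fce888_co.G
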