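import Pool.Agent.Lib.MP_fce888_co.G.Stm

set_option autoImplicit false

/-!
# MP_fce888_co, section G: [pairE] expected number of pairs of paths
-/

namespace Pool.Agent.Lib.MP_fce888_co.G

open Finset
open scoped Classical

/-- the pairs of paths counted by all the `SS G p q v` -/
private lemma pe_SS {V : Type} [Fintype V] (G : SimpleGraph V) (p q : ℕ) :
    ∑ v, SS G p q v ≤ ∑ P ∈ (lists V (p + 1)).filter (fun P => P.Nodup),
      ∑ P' ∈ (lists V (q + 1)).filter (fun P' => P'.Nodup ∧ P'.head? = P.head? ∧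
        P'.getLast? = P.getLast?),
        if (∀ e ∈ cE P ∪ cE P', e ∈ G.edgeSet) then 1 else 0 := by
  have h1 : ∑ v, SS G p q v = ∑ v, ∑ X ∈ paths G p ×ˢ paths G q,
      if (X.1.head? = some v ∧ X.2.head? = some v ∧ X.1.getLast? = X.2.getLast?) then 1 else 0 := by
    refine sum_congr rfl fun v _ => ?_
    unfold SS
    rw [card_filter]
  rw [h1, sum_comm]
  have h2 : ∀ X ∈ paths G p ×ˢ paths G q,
      (∑ v, if (X.1.head? = some v ∧ X.2.head? = some v ∧ X.1.getLast? = X.2.getLast?) then 1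
        else 0) ≤ if (X.1.Nodup ∧ (X.2.Nodup ∧ X.2.head? = X.1.head? ∧
          X.2.getLast? = X.1.getLast?) ∧ ∀ e ∈ cE X.1 ∪ cE X.2, e ∈ G.edgeSet) then 1 else 0 := by
    intro X hX
    rw [mem_product, mem_paths, mem_paths] at hX
    obtain ⟨⟨hl1, hn1, hc1⟩, hl2, hn2, hc2⟩ := hX
    have he : ∀ e ∈ cE X.1 ∪ cE X.2, e ∈ G.edgeSet := by
      intro e he
      rcases mem_union.1 he with h | h
      · exact (chain_iff _).1 hc1 e h
      · exact (chain_iff _).1 hc2 e h
    by_cases hh : ∃ v, X.1.head? = some v ∧ X.2.head? = some v ∧ X.1.getLast? = X.2.getLast?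
    · obtain ⟨v, hv1, hv2, hv3⟩ := hh
      rw [if_pos ⟨hn1, ⟨hn2, by rw [hv1, hv2], hv3.symm⟩, he⟩]
      rw [← card_filter]
      refine card_le_one.2 fun a ha b hb => ?_
      have ha' := (mem_filter.1 ha).2.1
      have hb' := (mem_filter.1 hb).2.1
      rw [ha'] at hb'
      exact Option.some.inj hb'
    · rw [sum_eq_zero]
      · exact Nat.zero_le _
      · intro v _
        rw [if_neg]
        exact fun h => hh ⟨v, h⟩
  refine (sum_le_sum h2).trans ?_
  have h3 : paths G p ×ˢ paths G q ⊆ lists V (p + 1) ×ˢ lists V (q + 1) := by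
    intro X hX
    rw [mem_product, mem_paths, mem_paths] at hX
    rw [mem_product, mem_lists, mem_lists]
    exact ⟨hX.1.1, hX.2.1⟩
  refine (sum_le_sum_of_subset h3).trans ?_
  rw [sum_product, sum_filter]
  refine sum_le_sum fun P _ => ?_
  by_cases hP : P.Nodup
  · rw [if_pos hP, sum_filter]
    refine sum_le_sum fun P' _ => ?_
    by_cases hP' : P'.Nodup ∧ P'.head? = P.head? ∧ P'.getLast? = P.getLast?
    · rw [if_pos hP']
      by_cases he : ∀ e ∈ cE P ∪ cE P', e ∈ G.edgeSet
      · rw [if_pos he]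
        split_ifs <;> omega
      · rw [if_neg he, if_neg (fun h => he h.2.2)]
    · rw [if_neg (fun h => hP' h.2.1)]
      exact Nat.zero_le _
  · rw [if_neg hP, sum_eq_zero]
    intro P' _
    rw [if_neg (fun h => hP h.1)]

theorem p_pairE : S_nn → S_wt → S_dom → S_abd → S_pairE := by
  intro hnn hwt hdom habd V _ p q h1 h2
  have hn0 : 0 < Fintype.card V := by
    have : 0 < 6 * (p + 1) * (q + 1) := by positivity
    omega
  have hn : (0 : ℝ) < Fintype.card V := by exact_mod_cast hn0
  obtain ⟨n, hnn'⟩ : ∃ n : ℝ, n = Fintype.card V := ⟨_, rfl⟩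
  rw [← hnn'] at hn
  -- exchange of the sums
  have hA : (∑ G ∈ cub V, ∑ v, (SS G p q v : ℝ)) ≤
      ∑ P ∈ (lists V (p + 1)).filter (fun P => P.Nodup),
      ∑ P' ∈ (lists V (q + 1)).filter (fun P' => P'.Nodup ∧ P'.head? = P.head? ∧
        P'.getLast? = P.getLast?), (NN (cE P ∪ cE P') : ℝ) := by
    have e1 : ∑ G ∈ cub V, ∑ v, SS G p q v ≤
      ∑ P ∈ (lists V (p + 1)).filter (fun P => P.Nodup),
      ∑ P' ∈ (lists V (q + 1)).filter (fun P' => P'.Nodup ∧ P'.head? = P.head? ∧
        P'.getLast? = P.getLast?), NN (cE P ∪ cE P') := by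
      refine (sum_le_sum fun G _ => pe_SS G p q).trans ?_
      rw [sum_comm]
      refine sum_le_sum fun P _ => ?_
      rw [sum_comm]
      refine sum_le_sum fun P' _ => ?_
      rw [← card_filter]
      rfl
    exact_mod_cast e1
  refine hA.trans ?_
  -- one `P`
  have hB : ∀ P ∈ (lists V (p + 1)).filter (fun P => P.Nodup),
      (∑ P' ∈ (lists V (q + 1)).filter (fun P' => P'.Nodup ∧ P'.head? = P.head? ∧
        P'.getLast? = P.getLast?), (NN (cE P ∪ cE P') : ℝ)) ≤
      2 * ((cub V).card : ℝ) * (2 ^ (p + 1) / n ^ p) *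
        (6 * 2 ^ q / n + (if p = q then 1 else 0)) := by
    intro P hP
    rw [mem_filter, mem_lists] at hP
    obtain ⟨hl, hnd⟩ := hP
    have hne : P ≠ [] := by
      rintro rfl
      simp at hl
    obtain ⟨x, hx⟩ : ∃ x, P.head? = some x := ⟨_, List.head?_eq_some_head hne⟩
    obtain ⟨z, hz⟩ : ∃ z, P.getLast? = some z := ⟨_, List.getLast?_eq_some_getLast hne⟩
    have hzP : z ∈ P := List.mem_of_getLast? hz
    have hC : ∀ P' ∈ (lists V (q + 1)).filter (fun P' => P'.Nodup ∧ P'.head? = P.head? ∧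
        P'.getLast? = P.getLast?), (NN (cE P ∪ cE P') : ℝ) ≤
        2 * ((cub V).card : ℝ) * (2 ^ (p + 1) / n ^ p) * W P P' := by
      intro P' hP'
      rw [mem_filter, mem_lists] at hP'
      obtain ⟨hl', hnd', -, hg⟩ := hP'
      have hcard : (cE P ∪ cE P').card ≤ p + q := by
        refine (card_union_le _ _).trans ?_
        rw [card_cE hnd, card_cE hnd', hl, hl']
        omega
      have h3 : 2 * (cE P ∪ cE P').card * ((cE P ∪ cE P').card + 26) ≤ 3 * Fintype.card V := by
        refine le_trans ?_ h2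
        exact Nat.mul_le_mul (Nat.mul_le_mul_left _ hcard) (Nat.add_le_add_right hcard _)
      have h4 := hnn V (cE P ∪ cE P') h3
      have h5 := hwt V P P' hnd hnd' hne ⟨z, hzP, by rw [hg, hz]⟩
      rw [← hnn'] at h4 h5
      rw [hl, Nat.add_sub_cancel] at h5
      have h6 : (NN (cE P ∪ cE P') : ℝ) ≤ 2 * ((cub V).card : ℝ) *
          (2 ^ (vs (cE P ∪ cE P')).card / n ^ (cE P ∪ cE P').card) := by
        rw [mul_div_assoc', le_div_iff₀ (by positivity)]
        calc _ ≤ _ := h4
          _ = _ := by ring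
      refine h6.trans ?_
      rw [mul_assoc (2 * ((cub V).card : ℝ))]
      exact mul_le_mul_of_nonneg_left h5 (by positivity)
    refine (sum_le_sum hC).trans ?_
    rw [← mul_sum]
    refine mul_le_mul_of_nonneg_left ?_ (by positivity)
    have h7 := hdom V P z q x none
    have h8 := habd V P x z q hnd hx hz (by rw [hl]; exact h1)
    rw [← hnn', hl] at h8
    have h9 : (lists V (q + 1)).filter (fun P' => P'.Nodup ∧ P'.head? = P.head? ∧
        P'.getLast? = P.getLast?) = (lists V (q + 1)).filter (fun P' => P'.Nodup ∧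
        P'.head? = some x ∧ P'.getLast? = some z ∧ ∀ y, P'[1]? = some y → some y ≠ none) := by
      ext P'
      rw [mem_filter, mem_filter, hx, hz]
      constructor
      · rintro ⟨a1, a2, a3, a4⟩
        exact ⟨a1, a2, a3, a4, fun y _ => Option.some_ne_none y⟩
      · rintro ⟨a1, a2, a3, a4, -⟩
        exact ⟨a1, a2, a3, a4⟩
    rw [h9]
    refine h7.trans (h8.trans (le_of_eq ?_))
    congr 1
    by_cases hpq : p = q
    · rw [if_pos hpq, if_pos (by omega)]
    · rw [if_neg hpq, if_neg (by omega)]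
  refine (sum_le_sum hB).trans ?_
  rw [sum_const, nsmul_eq_mul]
  have hD : ((((lists V (p + 1)).filter (fun P => P.Nodup)).card : ℕ) : ℝ) ≤ n ^ (p + 1) := by
    rw [hnn']
    have : ((lists V (p + 1)).filter (fun P => P.Nodup)).card ≤ Fintype.card V ^ (p + 1) := by
      rw [← card_lists]
      exact card_filter_le _ _
    exact_mod_cast this
  have hE : (0 : ℝ) ≤ 2 * ((cub V).card : ℝ) * (2 ^ (p + 1) / n ^ p) *
        (6 * 2 ^ q / n + (if p = q then 1 else 0)) := by
    have : (0 : ℝ) ≤ (if p = q then 1 else 0) := by split_ifs <;> norm_num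
    positivity
  refine (mul_le_mul_of_nonneg_right hD hE).trans (le_of_eq ?_)
  rw [← hnn']
  have hif : (if p = q then n else 0) = n * (if p = q then 1 else 0) := by
    split_ifs <;> ring
  rw [hif]
  have hfin : ∀ c K A B D : ℝ, D ≠ 0 → n ≠ 0 →
      D * n * (2 * K * (A * 2 / D) * (6 * B / n + c)) = 4 * A * (6 * B + n * c) * K := by
    intro c K A B D hD0 hn1
    field_simp
    ring
  rw [pow_succ n p, pow_succ (2 : ℝ) p]
  exact hfin _ _ _ _ _ (pow_ne_zero _ hn.ne') hn.ne'

end Pool.Agent.Lib.MP_fce888_co.G
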