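import Pool.Agent.Lib.MP_fce888_co.G.Stm

set_option autoImplicit false

/-! [prod] the product bound for the number of cubic graphs containing given edges. -/

namespace Pool.Agent.Lib.MP_fce888_co.G

open Finset
open scoped Classical

private theorem dg_insert {V : Type} [Fintype V] {F : Finset (Sym2 V)} {u v : V}
    (he : s(u, v) ∉ F) (x : V) :
    dg (insert s(u, v) F) x = dg F x + (if x = u ∨ x = v then 1 else 0) := by
  unfold dg
  rw [Finset.filter_insert]
  by_cases h : x = u ∨ x = v
  · rw [if_pos (Sym2.mem_iff.2 h), if_pos h, Finset.card_insert_of_notMem]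
    intro h'
    exact he (Finset.mem_filter.1 h').1
  · rw [if_neg (fun h' => h (Sym2.mem_iff.1 h')), if_neg h, add_zero]

private theorem desc_insert {V : Type} [Fintype V] {F : Finset (Sym2 V)} {u v : V}
    (huv : u ≠ v) (he : s(u, v) ∉ F) :
    ∏ x : V, Nat.descFactorial 3 (dg (insert s(u, v) F) x) =
      (∏ x : V, Nat.descFactorial 3 (dg F x)) * ((3 - dg F u) * (3 - dg F v)) := by
  have h1 : ∀ x : V, Nat.descFactorial 3 (dg (insert s(u, v) F) x) =
      Nat.descFactorial 3 (dg F x) *
        ((if x = u then (3 - dg F u) else 1) * (if x = v then (3 - dg F v) else 1)) := by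
    intro x
    rw [dg_insert he]
    by_cases hu : x = u
    · subst hu
      rw [if_pos (Or.inl rfl), if_pos rfl, if_neg huv, Nat.descFactorial_succ, mul_one, mul_comm]
    · by_cases hv : x = v
      · subst hv
        rw [if_pos (Or.inr rfl), if_neg hu, if_pos rfl, Nat.descFactorial_succ, one_mul, mul_comm]
      · rw [if_neg (by tauto), if_neg hu, if_neg hv, add_zero, mul_one, mul_one]
  rw [Finset.prod_congr rfl fun x _ => h1 x, Finset.prod_mul_distrib, Finset.prod_mul_distrib,
    Finset.prod_ite_eq' Finset.univ u (fun _ => 3 - dg F u),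
    Finset.prod_ite_eq' Finset.univ v (fun _ => 3 - dg F v), if_pos (Finset.mem_univ _),
    if_pos (Finset.mem_univ _)]

theorem p_prod (hsw : S_sw) : S_prod := by
  intro V _ F
  induction F using Finset.induction_on with
  | empty =>
    have h1 : NN (∅ : Finset (Sym2 V)) = (cub V).card := by
      unfold NN
      congr 1
      exact Finset.filter_true_of_mem fun G _ e he => absurd he (Finset.notMem_empty e)
    have h2 : ∀ v : V, Nat.descFactorial 3 (dg (∅ : Finset (Sym2 V)) v) = 1 := by
      intro v
      unfold dg
      rw [Finset.filter_empty, Finset.card_empty, Nat.descFactorial_zero]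
    rw [h1, Finset.card_empty, Finset.range_zero, Finset.prod_empty,
      Finset.prod_congr rfl fun v _ => h2 v, Finset.prod_const_one]
  | insert e F he ih =>
    revert he
    refine Sym2.ind (fun u v he => ?_) e
    by_cases huv : u = v
    · subst huv
      have h0 : NN (insert s(u, u) F) = 0 := by
        unfold NN
        rw [Finset.card_eq_zero]
        refine Finset.filter_eq_empty_iff.2 fun G _ h => ?_
        have := h _ (Finset.mem_insert_self _ _)
        rw [SimpleGraph.mem_edgeSet] at this
        exact G.loopless.irrefl _ this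
      rw [h0, Nat.zero_mul]
      exact Nat.zero_le _
    · rw [Finset.card_insert_of_notMem he, Finset.prod_range_succ, desc_insert huv he]
      have h1 := hsw V F u v huv he
      calc NN (insert s(u, v) F) * ((∏ i ∈ range F.card, (3 * Fintype.card V - (2 * i + 26))) *
            (3 * Fintype.card V - (2 * F.card + 26)))
          = (NN (insert s(u, v) F) * (3 * Fintype.card V - (2 * F.card + 26))) *
            ∏ i ∈ range F.card, (3 * Fintype.card V - (2 * i + 26)) := by ring
        _ ≤ (NN F * ((3 - dg F u) * (3 - dg F v))) *
            ∏ i ∈ range F.card, (3 * Fintype.card V - (2 * i + 26)) :=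
            Nat.mul_le_mul_right _ h1
        _ = (NN F * ∏ i ∈ range F.card, (3 * Fintype.card V - (2 * i + 26))) *
            ((3 - dg F u) * (3 - dg F v)) := by ring
        _ ≤ ((cub V).card * ∏ x : V, Nat.descFactorial 3 (dg F x)) *
            ((3 - dg F u) * (3 - dg F v)) := Nat.mul_le_mul_right _ ih
        _ = (cub V).card * ((∏ x : V, Nat.descFactorial 3 (dg F x)) *
            ((3 - dg F u) * (3 - dg F v))) := by ring

end Pool.Agent.Lib.MP_fce888_co.G
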