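import Pool.Agent.Lib.MP_fce888_co.G.Stm

set_option autoImplicit false
set_option linter.unusedSectionVars false

namespace Pool.Agent.Lib.MP_fce888_co.G

open Finset
open scoped Classical

theorem p_sw (h1 : S_sw1) (h2 : S_sw2) (h3 : S_sw3) : S_sw := by
  intro V _ F u v huv hF
  set GA := (cub V).filter fun G => ∀ e ∈ insert s(u, v) F, e ∈ G.edgeSet with hGA
  set GB := (cub V).filter fun G => ∀ e ∈ F, e ∈ G.edgeSet with hGB
  let cA : SimpleGraph V → V × V → Prop := fun G p => G.Adj p.1 p.2 ∧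
    s(p.1, p.2) ∉ insert s(u, v) F ∧ p.1 ≠ u ∧ ¬ G.Adj u p.1 ∧ p.2 ≠ v ∧ ¬ G.Adj v p.2
  let cB : SimpleGraph V → V × V → Prop := fun G p => G.Adj u p.1 ∧ s(u, p.1) ∉ F ∧ G.Adj v p.2 ∧
      s(v, p.2) ∉ F
  have hA : NN (insert s(u, v) F) * (3 * Fintype.card V - (2 * F.card + 26)) ≤
      ∑ G ∈ GA, (univ.filter (cA G)).card := by
    have : ∀ G ∈ GA, 3 * Fintype.card V - (2 * F.card + 26) ≤ (univ.filter (cA G)).card := by
      intro G hG
      have := h1 V G (Finset.mem_filter.1 hG).1 F u v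
      have e : (univ.filter (cA G)) = ((univ : Finset (V × V)).filter fun p => G.Adj p.1 p.2 ∧
          s(p.1, p.2) ∉ insert s(u, v) F ∧ p.1 ≠ u ∧ ¬ G.Adj u p.1 ∧ p.2 ≠ v ∧ ¬ G.Adj v p.2) := by
        apply Finset.ext
        intro p
        exact ⟨fun h => Finset.mem_filter.2 (Finset.mem_filter.1 h),
          fun h => Finset.mem_filter.2 (Finset.mem_filter.1 h)⟩
      rw [e]
      omega
    have h := Finset.card_nsmul_le_sum GA _ _ this
    simpa [NN, hGA, smul_eq_mul] using h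
  have hB : ∑ G ∈ GB, (univ.filter (cB G)).card ≤ NN F * ((3 - dg F u) * (3 - dg F v)) := by
    have : ∀ G ∈ GB, (univ.filter (cB G)).card ≤ (3 - dg F u) * (3 - dg F v) := by
      intro G hG
      have := h2 V G (Finset.mem_filter.1 hG).1 F u v (Finset.mem_filter.1 hG).2
      have e : (univ.filter (cB G)) = ((univ : Finset (V × V)).filter fun p => G.Adj u p.1 ∧
          s(u, p.1) ∉ F ∧ G.Adj v p.2 ∧ s(v, p.2) ∉ F) := by
        apply Finset.ext
        intro p
        exact ⟨fun h => Finset.mem_filter.2 (Finset.mem_filter.1 h),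
          fun h => Finset.mem_filter.2 (Finset.mem_filter.1 h)⟩
      rw [e]
      exact this
    have h := Finset.sum_le_card_nsmul GB _ _ this
    simpa [NN, hGB, smul_eq_mul] using h
  refine hA.trans (le_trans ?_ hB)
  rw [← Finset.card_sigma, ← Finset.card_sigma]
  have key : ∀ G ∈ GA, ∀ p : V × V, cA G p →
      sw G u v p.1 p.2 ∈ cub V ∧
      (sw G u v p.1 p.2).edgeSet = (G.edgeSet \ {s(u, v), s(p.1, p.2)}) ∪ {s(u, p.1), s(v, p.2)} ∧
      G.edgeSet = ((sw G u v p.1 p.2).edgeSet \ {s(u, p.1), s(v, p.2)}) ∪ {s(u, v), s(p.1, p.2)} := by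
    rintro G hG p ⟨c1, c2, c3, c4, c5, c6⟩
    have hG' := Finset.mem_filter.1 hG
    have huvG : G.Adj u v := by
      have := hG'.2 s(u, v) (Finset.mem_insert_self _ _)
      simpa using this
    exact h3 V G hG'.1 u v p.1 p.2 huvG c1 c3 c4 c5 c6
  apply Finset.card_le_card_of_injOn
    (fun x : (_ : SimpleGraph V) × (V × V) => ⟨sw x.1 u v x.2.1 x.2.2, x.2⟩)
  · rintro ⟨G, p⟩ hx
    have hx' := Finset.mem_sigma.1 (Finset.mem_coe.1 hx)
    have hG : G ∈ GA := hx'.1
    have hp : cA G p := (Finset.mem_filter.1 hx'.2).2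
    obtain ⟨k1, k2, k3⟩ := key G hG p hp
    obtain ⟨c1, c2, c3, c4, c5, c6⟩ := hp
    have hGm := Finset.mem_filter.1 hG
    have huvG : G.Adj u v := by
      have := hGm.2 s(u, v) (Finset.mem_insert_self _ _)
      simpa using this
    apply Finset.mem_coe.2
    apply Finset.mem_sigma.2
    have hsub : ∀ e ∈ F, e ∈ (sw G u v p.1 p.2).edgeSet := by
      intro e he
      rw [k2]
      left
      refine ⟨hGm.2 e (Finset.mem_insert_of_mem he), ?_⟩
      rintro (rfl | rfl)
      · exact hF he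
      · exact c2 (Finset.mem_insert_of_mem he)
    refine ⟨Finset.mem_filter.2 ⟨k1, hsub⟩, Finset.mem_filter.2 ⟨Finset.mem_univ _, ?_, ?_, ?_, ?_⟩⟩
    · change (sw G u v p.1 p.2).Adj u p.1
      rw [← SimpleGraph.mem_edgeSet, k2]
      right; left; rfl
    · intro he
      have := hGm.2 _ (Finset.mem_insert_of_mem he)
      exact c4 (by simpa using this)
    · change (sw G u v p.1 p.2).Adj v p.2
      rw [← SimpleGraph.mem_edgeSet, k2]
      right; right; rfl
    · intro he
      have := hGm.2 _ (Finset.mem_insert_of_mem he)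
      exact c6 (by simpa using this)
  · rintro ⟨G, p⟩ hx ⟨G', p'⟩ hx' heq
    have hx1 := Finset.mem_sigma.1 (Finset.mem_coe.1 hx)
    have hx2 := Finset.mem_sigma.1 (Finset.mem_coe.1 hx')
    have k := key G hx1.1 p (Finset.mem_filter.1 hx1.2).2
    have k' := key G' hx2.1 p' (Finset.mem_filter.1 hx2.2).2
    simp only [Sigma.mk.injEq, heq_eq_eq] at heq
    obtain ⟨e1, e2⟩ := heq
    subst e2
    have : G = G' := by
      rw [← SimpleGraph.edgeSet_inj, k.2.2, k'.2.2, e1]
    subst this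
    rfl

end Pool.Agent.Lib.MP_fce888_co.G
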