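import Pool.Agent.Lib.MP_fce888_co.G.Stm

set_option autoImplicit false

/-!
# MP_fce888_co, section G: the number of ordered pairs which can be switched with `uv`
-/

namespace Pool.Agent.Lib.MP_fce888_co.G

open Finset
open scoped Classical

private theorem sw1_deg {V : Type} [Fintype V] {G : SimpleGraph V} (hG : G ∈ cub V) (a : V) :
    ((univ : Finset V).filter fun b => G.Adj a b).card = 3 := by
  have h1 := mem_cub.1 hG a
  have h2 : G.neighborSet a = ((univ.filter fun b => G.Adj a b : Finset V) : Set V) := by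
    ext b
    simp
  rw [h2, Set.ncard_coe_finset] at h1
  exact h1

private theorem sw1_count {V : Type} [Fintype V] {G : SimpleGraph V} (hG : G ∈ cub V)
    (S : Finset V) :
    ((univ : Finset (V × V)).filter fun p => p.1 ∈ S ∧ G.Adj p.1 p.2).card = 3 * S.card := by
  rw [Finset.card_eq_sum_card_fiberwise (f := Prod.fst) (t := S)]
  · have h : ∀ a ∈ S, (((univ : Finset (V × V)).filter fun p => p.1 ∈ S ∧ G.Adj p.1 p.2).filter
        fun p => p.1 = a).card = 3 := by
      intro a ha
      have h1 : (((univ : Finset (V × V)).filter fun p => p.1 ∈ S ∧ G.Adj p.1 p.2).filter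
          fun p => p.1 = a) = ((univ : Finset V).filter fun b => G.Adj a b).image
            (fun b => (a, b)) := by
        ext ⟨x, y⟩
        simp only [Finset.mem_filter, Finset.mem_univ, true_and, Finset.mem_image, Prod.mk.injEq]
        constructor
        · rintro ⟨⟨h1, h2⟩, rfl⟩
          exact ⟨y, h2, rfl, rfl⟩
        · rintro ⟨b, hb, rfl, rfl⟩
          exact ⟨⟨ha, hb⟩, rfl⟩
      rw [h1, Finset.card_image_of_injective _ (fun b c hbc => (Prod.mk.inj hbc).2), sw1_deg hG]
    rw [Finset.sum_congr rfl h, Finset.sum_const, smul_eq_mul, mul_comm]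
  · intro p hp
    have := (Finset.mem_filter.1 (Finset.mem_coe.1 hp)).2.1
    exact this

theorem p_sw1 : S_sw1 := by
  intro V _ G hG F u v
  let A : Finset (V × V) := univ.filter fun p => G.Adj p.1 p.2
  let E : Finset (Sym2 V) := insert s(u, v) F
  let N : V → Finset V := fun w => insert w (univ.filter fun b => G.Adj w b)
  let good : Finset (V × V) := (univ : Finset (V × V)).filter fun p =>
    G.Adj p.1 p.2 ∧ s(p.1, p.2) ∉ insert s(u, v) F ∧
        p.1 ≠ u ∧ ¬ G.Adj u p.1 ∧ p.2 ≠ v ∧ ¬ G.Adj v p.2
  let B1 : Finset (V × V) := univ.filter fun p => s(p.1, p.2) ∈ E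
  let B2 : Finset (V × V) := univ.filter fun p => p.1 ∈ N u ∧ G.Adj p.1 p.2
  let B3 : Finset (V × V) := univ.filter fun p => p.2 ∈ N v ∧ G.Adj p.2 p.1
  have hN : ∀ w, (N w).card ≤ 4 := by
    intro w
    refine (Finset.card_insert_le _ _).trans ?_
    rw [sw1_deg hG]
  have hA : A.card = 3 * Fintype.card V := by
    have h := sw1_count hG (univ : Finset V)
    have h1 : A = (univ : Finset (V × V)).filter fun p => p.1 ∈ (univ : Finset V) ∧ G.Adj p.1 p.2 := by
      ext p
      simp [A]
    rw [h1, h, Finset.card_univ]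
  have hB1 : B1.card ≤ 2 * (F.card + 1) := by
    have h1 : B1 ⊆ E.biUnion fun e => (univ : Finset (V × V)).filter fun p => s(p.1, p.2) = e := by
      intro p hp
      have hp' := (Finset.mem_filter.1 hp).2
      exact Finset.mem_biUnion.2 ⟨s(p.1, p.2), hp', Finset.mem_filter.2 ⟨Finset.mem_univ _, rfl⟩⟩
    have h2 : ∀ e ∈ E, ((univ : Finset (V × V)).filter fun p => s(p.1, p.2) = e).card ≤ 2 := by
      intro e _
      induction e using Sym2.ind with
      | _ x y =>
        have h3 : ((univ : Finset (V × V)).filter fun p => s(p.1, p.2) = s(x, y)) ⊆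
            {(x, y), (y, x)} := by
          intro p hp
          have h4 := (Finset.mem_filter.1 hp).2
          rw [Sym2.eq_iff] at h4
          rw [Finset.mem_insert, Finset.mem_singleton]
          rcases h4 with ⟨h5, h6⟩ | ⟨h5, h6⟩
          · exact Or.inl (Prod.ext h5 h6)
          · exact Or.inr (Prod.ext h5 h6)
        exact (Finset.card_le_card h3).trans (Finset.card_insert_le _ _)
    have h3 := Finset.card_biUnion_le_card_mul E _ 2 h2
    have h4 : E.card ≤ F.card + 1 := Finset.card_insert_le _ _
    have h5 := Finset.card_le_card h1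
    omega
  have hB2 : B2.card ≤ 12 := by
    have h1 : B2.card = 3 * (N u).card := sw1_count hG (N u)
    have h2 := hN u
    omega
  have hB3 : B3.card ≤ 12 := by
    have h1 : B3.card = 3 * (N v).card := by
      rw [← sw1_count hG (N v)]
      refine Finset.card_bij (fun p _ => (p.2, p.1)) ?_ ?_ ?_
      · intro p hp
        have := (Finset.mem_filter.1 hp).2
        exact Finset.mem_filter.2 ⟨Finset.mem_univ _, this⟩
      · intro p _ q _ h
        have h1 := (Prod.mk.inj h).1
        have h2 := (Prod.mk.inj h).2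
        exact Prod.ext h2 h1
      · intro q hq
        have := (Finset.mem_filter.1 hq).2
        exact ⟨(q.2, q.1), Finset.mem_filter.2 ⟨Finset.mem_univ _, this⟩, rfl⟩
    have h2 := hN v
    omega
  have hsub : A ⊆ good ∪ (B1 ∪ (B2 ∪ B3)) := by
    intro p hp
    have hpA : G.Adj p.1 p.2 := (Finset.mem_filter.1 hp).2
    by_cases h1 : s(p.1, p.2) ∈ E
    · exact Finset.mem_union_right _ (Finset.mem_union_left _
        (Finset.mem_filter.2 ⟨Finset.mem_univ _, h1⟩))
    by_cases h2 : p.1 ∈ N u
    · exact Finset.mem_union_right _ (Finset.mem_union_right _ (Finset.mem_union_left _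
        (Finset.mem_filter.2 ⟨Finset.mem_univ _, h2, hpA⟩)))
    by_cases h3 : p.2 ∈ N v
    · exact Finset.mem_union_right _ (Finset.mem_union_right _ (Finset.mem_union_right _
        (Finset.mem_filter.2 ⟨Finset.mem_univ _, h3, hpA.symm⟩)))
    · refine Finset.mem_union_left _ (Finset.mem_filter.2 ⟨Finset.mem_univ _, hpA, h1, ?_, ?_, ?_, ?_⟩)
      · intro h
        exact h2 (Finset.mem_insert.2 (Or.inl h))
      · intro h
        exact h2 (Finset.mem_insert.2 (Or.inr (Finset.mem_filter.2 ⟨Finset.mem_univ _, h⟩)))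
      · intro h
        exact h3 (Finset.mem_insert.2 (Or.inl h))
      · intro h
        exact h3 (Finset.mem_insert.2 (Or.inr (Finset.mem_filter.2 ⟨Finset.mem_univ _, h⟩)))
  have h1 := Finset.card_le_card hsub
  have h2 := Finset.card_union_le good (B1 ∪ (B2 ∪ B3))
  have h3 := Finset.card_union_le B1 (B2 ∪ B3)
  have h4 := Finset.card_union_le B2 B3
  have h5 : good.card = ((univ : Finset (V × V)).filter fun p =>
      G.Adj p.1 p.2 ∧ s(p.1, p.2) ∉ insert s(u, v) F ∧
        p.1 ≠ u ∧ ¬ G.Adj u p.1 ∧ p.2 ≠ v ∧ ¬ G.Adj v p.2).card := rfl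
  rw [← h5]
  omega

end Pool.Agent.Lib.MP_fce888_co.G
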