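import Pool.Agent.Lib.MP_fce888_co.G.Stm

set_option autoImplicit false
set_option linter.unusedSectionVars false

namespace Pool.Agent.Lib.MP_fce888_co.G

open Finset
open scoped Classical

private theorem sw2_one {V : Type} [Fintype V] (G : SimpleGraph V) (hG : G ∈ cub V)
    (F : Finset (Sym2 V)) (u : V) (hF : ∀ e ∈ F, e ∈ G.edgeSet) :
    ((univ : Finset V).filter fun a => G.Adj u a ∧ s(u, a) ∉ F).card = 3 - dg F u := by
  have h3 : ((univ : Finset V).filter fun a => G.Adj u a).card = 3 := by
    have h := mem_cub.1 hG u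
    have e : G.neighborSet u = (((univ : Finset V).filter fun a => G.Adj u a : Finset V) : Set V) := by
      ext a
      simp
    rw [e, Set.ncard_coe_finset] at h
    exact h
  have hsplit : ((univ : Finset V).filter fun a => G.Adj u a ∧ s(u, a) ∉ F).card +
      ((univ : Finset V).filter fun a => G.Adj u a ∧ s(u, a) ∈ F).card =
      ((univ : Finset V).filter fun a => G.Adj u a).card := by
    rw [← card_union_of_disjoint]
    · congr 1
      ext a
      simp only [mem_union, mem_filter, mem_univ, true_and]
      tauto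
    · rw [disjoint_left]
      intro a ha ha'
      exact (mem_filter.1 ha).2.2 (mem_filter.1 ha').2.2
  have hB : ((univ : Finset V).filter fun a => G.Adj u a ∧ s(u, a) ∈ F).card = dg F u := by
    unfold dg
    refine card_bij (fun a _ => s(u, a)) ?_ ?_ ?_
    · intro a ha
      rw [mem_filter] at ha
      exact mem_filter.2 ⟨ha.2.2, Sym2.mem_mk_left u a⟩
    · intro a ha b hb h
      exact Sym2.congr_right.1 h
    · intro e he
      rw [mem_filter] at he
      obtain ⟨a, rfl⟩ := Sym2.mem_iff_exists.1 he.2
      refine ⟨a, mem_filter.2 ⟨mem_univ _, ?_, he.1⟩, rfl⟩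
      exact hF _ he.1
  omega

theorem p_sw2 : S_sw2 := by
  intro V _ G hG F u v hF
  rw [← sw2_one G hG F u hF, ← sw2_one G hG F v hF, ← card_product]
  refine card_le_card ?_
  intro p hp
  rw [mem_filter] at hp
  obtain ⟨-, h1, h2, h3, h4⟩ := hp
  exact mem_product.2 ⟨mem_filter.2 ⟨mem_univ _, h1, h2⟩, mem_filter.2 ⟨mem_univ _, h3, h4⟩⟩

end Pool.Agent.Lib.MP_fce888_co.G
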