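import Pool.Agent.Lib.MP_fce888_co.G.Stm

set_option autoImplicit false

/-!
# MP_fce888_co, section G, piece sw3: the switched graph
-/

namespace Pool.Agent.Lib.MP_fce888_co.G

open Finset
open scoped Classical

private theorem sw3_adj {V : Type} (G : SimpleGraph V) (u v a b x y : V) :
    (sw G u v a b).Adj x y ↔ ((G.Adj x y ∧ s(x, y) ≠ s(u, v) ∧ s(x, y) ≠ s(a, b)) ∨
      s(x, y) = s(u, a) ∨ s(x, y) = s(v, b)) ∧ x ≠ y := by
  unfold sw
  rw [SimpleGraph.fromEdgeSet_adj, Set.mem_union, Set.mem_sdiff, SimpleGraph.mem_edgeSet,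
    Set.mem_insert_iff, Set.mem_singleton_iff, Set.mem_insert_iff, Set.mem_singleton_iff, not_or]

private theorem sw3_nbr {V : Type} (G : SimpleGraph V) (u v a b : V)
    (h1 : G.Adj u v) (h2 : G.Adj a b) (h3 : a ≠ u) (h4 : ¬ G.Adj u a) (_h5 : b ≠ v)
    (h6 : ¬ G.Adj v b) :
    (sw G u v a b).neighborSet u = insert a (G.neighborSet u \ {v}) := by
  have huv := h1.ne
  have hab := h2.ne
  have hav : a ≠ v := fun h => h4 (h ▸ h1)
  have hbu : b ≠ u := fun h => h6 (h ▸ h1.symm)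
  ext y
  rw [SimpleGraph.mem_neighborSet, sw3_adj, Set.mem_insert_iff, Set.mem_sdiff,
    SimpleGraph.mem_neighborSet, Set.mem_singleton_iff, ne_eq, Sym2.eq_iff, Sym2.eq_iff,
    Sym2.eq_iff, ne_eq, Sym2.eq_iff]
  constructor
  · rintro ⟨⟨hy, hy1, hy2⟩ | hy | hy, hne⟩
    · exact Or.inr ⟨hy, fun h => hy1 (Or.inl ⟨rfl, h⟩)⟩
    · rcases hy with ⟨_, h⟩ | ⟨h, _⟩
      · exact Or.inl h
      · exact absurd h.symm h3
    · rcases hy with ⟨h, _⟩ | ⟨h, _⟩
      · exact absurd h huv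
      · exact absurd h.symm hbu
  · rintro (rfl | ⟨hy, hyv⟩)
    · exact ⟨Or.inr (Or.inl (Or.inl ⟨rfl, rfl⟩)), fun h => h3 h.symm⟩
    · refine ⟨Or.inl ⟨hy, ?_, ?_⟩, hy.ne⟩
      · rintro (⟨_, h⟩ | ⟨h, _⟩)
        · exact hyv h
        · exact huv h
      · rintro (⟨h, _⟩ | ⟨h, _⟩)
        · exact h3 h.symm
        · exact hbu h.symm

private theorem sw3_card {V : Type} [Fintype V] {S : Set V} {p q : V} (hq : q ∈ S) (hp : p ∉ S)
    (hS : S.ncard = 3) : (insert p (S \ {q})).ncard = 3 := by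
  rw [Set.ncard_insert_of_notMem (fun h => hp h.1) (Set.toFinite _),
    Set.ncard_sdiff_singleton_of_mem hq, hS]

private theorem sw3_symm1 {V : Type} (G : SimpleGraph V) (u v a b : V) :
    sw G u v a b = sw G v u b a := by
  unfold sw
  rw [Sym2.eq_swap (a := v) (b := u), Sym2.eq_swap (a := b) (b := a), Set.pair_comm s(v, b) s(u, a)]

private theorem sw3_symm2 {V : Type} (G : SimpleGraph V) (u v a b : V) :
    sw G u v a b = sw G a b u v := by
  unfold sw
  rw [Set.pair_comm s(a, b) s(u, v), Sym2.eq_swap (a := a) (b := u), Sym2.eq_swap (a := b) (b := v)]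

private theorem sw3_cardu {V : Type} [Fintype V] (G : SimpleGraph V)
    (hG : ∀ v, (G.neighborSet v).ncard = 3) (u v a b : V)
    (h1 : G.Adj u v) (h2 : G.Adj a b) (h3 : a ≠ u) (h4 : ¬ G.Adj u a) (h5 : b ≠ v)
    (h6 : ¬ G.Adj v b) : ((sw G u v a b).neighborSet u).ncard = 3 := by
  rw [sw3_nbr G u v a b h1 h2 h3 h4 h5 h6]
  exact sw3_card (S := G.neighborSet u) h1 h4 (hG u)

theorem p_sw3 : S_sw3 := by
  intro V _ G hG u v a b h1 h2 h3 h4 h5 h6
  have hG' := mem_cub.1 hG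
  have huv := h1.ne
  have hab := h2.ne
  have hav : a ≠ v := fun h => h4 (h ▸ h1)
  have hbu : b ≠ u := fun h => h6 (h ▸ h1.symm)
  have he : (sw G u v a b).edgeSet = (G.edgeSet \ {s(u, v), s(a, b)}) ∪ {s(u, a), s(v, b)} := by
    unfold sw
    rw [SimpleGraph.edgeSet_fromEdgeSet]
    ext e
    simp only [Set.mem_sdiff, Set.mem_union, Set.mem_insert_iff, Set.mem_singleton_iff]
    constructor
    · exact fun h => h.1
    · intro h
      refine ⟨h, ?_⟩
      rcases h with h | h | h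
      · exact G.not_isDiag_of_mem_edgeSet h.1
      · rw [h]; intro hd; exact h3 (Sym2.mk_isDiag_iff.1 hd).symm
      · rw [h]; intro hd; exact h5 (Sym2.mk_isDiag_iff.1 hd).symm
  refine ⟨mem_cub.2 fun x => ?_, he, ?_⟩
  · by_cases hxu : x = u
    · subst hxu
      exact sw3_cardu G hG' _ _ _ _ h1 h2 h3 h4 h5 h6
    by_cases hxv : x = v
    · subst hxv
      rw [sw3_symm1]
      exact sw3_cardu G hG' _ _ _ _ h1.symm h2.symm h5 h6 h3 h4
    by_cases hxa : x = a
    · subst hxa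
      rw [sw3_symm2]
      exact sw3_cardu G hG' _ _ _ _ h2 h1 h3.symm (fun h => h4 h.symm) h5.symm
        (fun h => h6 h.symm)
    by_cases hxb : x = b
    · subst hxb
      rw [sw3_symm2, sw3_symm1]
      exact sw3_cardu G hG' _ _ _ _ h2.symm h1.symm h5.symm (fun h => h6 h.symm) h3.symm
        (fun h => h4 h.symm)
    have hN : (sw G u v a b).neighborSet x = G.neighborSet x := by
      ext y
      rw [SimpleGraph.mem_neighborSet, sw3_adj, SimpleGraph.mem_neighborSet]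
      simp only [Sym2.eq_iff, ne_eq, hxu, hxv, hxa, hxb, false_and, or_self, not_false_eq_true,
        and_true, or_false]
      exact ⟨fun h => h.1, fun h => ⟨h, h.ne⟩⟩
    rw [hN]
    exact hG' x
  · rw [he]
    ext e
    simp only [Set.mem_sdiff, Set.mem_union, Set.mem_insert_iff, Set.mem_singleton_iff]
    have e1 : e = s(u, v) → e ∈ G.edgeSet := fun h => h ▸ h1
    have e2 : e = s(a, b) → e ∈ G.edgeSet := fun h => h ▸ h2
    have e3 : e = s(u, a) → e ∉ G.edgeSet := fun h => h ▸ h4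
    have e4 : e = s(v, b) → e ∉ G.edgeSet := fun h => h ▸ h6
    tauto

end Pool.Agent.Lib.MP_fce888_co.G
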