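import Pool.Agent.Lib.MP_fce888_co.G.Stm
import Pool.Agent.Lib.MP_fce888_co.S.AbcPath

set_option autoImplicit false
set_option linter.unusedSectionVars false

/-!
# MP_fce888_co, section G: paths with a near self-intersection
-/

namespace Pool.Agent.Lib.MP_fce888_co.G

open Finset
open scoped Classical

section t5c

variable {V : Type} [Fintype V]

/-- paths of length `L` with given middle piece -/
private theorem t5c_fib {G : SimpleGraph V} (hcub : ∀ v, (G.neighborSet v).ncard = 3)
    {t1 t2 L : ℕ} (h12 : t1 ≤ t2) (h2 : t2 ≤ L) (B : List V) (hB : B.length = t2 - t1 + 1) :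
    ((paths G L).filter fun Q => (Q.drop t1).take (t2 - t1 + 1) = B).card ≤
      4 * 2 ^ (L - (t2 - t1)) := by
  obtain ⟨v, hv⟩ : ∃ v, B[0]? = some v := ⟨B[0], List.getElem?_eq_getElem (by omega)⟩
  obtain ⟨w, hw⟩ : ∃ w, B[t2 - t1]? = some w := ⟨B[t2 - t1], List.getElem?_eq_getElem (by omega)⟩
  have hget : ∀ Q : List V, (Q.drop t1).take (t2 - t1 + 1) = B →
      Q[t1]? = some v ∧ Q[t2]? = some w := by
    intro Q hQ
    rw [← hQ, List.getElem?_take, List.getElem?_drop] at hv hw
    rw [if_pos (by omega)] at hv hw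
    have e : t1 + (t2 - t1) = t2 := by omega
    rw [e] at hw
    exact ⟨hv, hw⟩
  have h1 : ((paths G L).filter fun Q => (Q.drop t1).take (t2 - t1 + 1) = B).card ≤
      (S.pf G t1 v ×ˢ S.pf G (L - t2) w).card := by
    refine Finset.card_le_card_of_injOn (fun Q => ((Q.take (t1 + 1)).reverse, Q.drop t2)) ?_ ?_
    · intro Q hQ
      rw [Finset.mem_coe, Finset.mem_filter] at hQ
      rw [Finset.mem_coe, Finset.mem_product]
      obtain ⟨g1, g2⟩ := hget Q hQ.2
      exact ⟨S.take_mem_pf hQ.1 (by omega) g1, S.drop_mem_pf hQ.1 h2 g2⟩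
    · intro Q hQ Q' hQ' h
      rw [Finset.mem_coe, Finset.mem_filter] at hQ hQ'
      have e1 : Q.take (t1 + 1) = Q'.take (t1 + 1) :=
        List.reverse_injective (Prod.mk.inj h).1
      have e2 : Q.drop t2 = Q'.drop t2 := (Prod.mk.inj h).2
      refine S.take_drop_inj e1 (S.take_drop_inj (t := t2 - t1) (hQ.2.trans hQ'.2.symm) ?_)
      rw [List.drop_drop, List.drop_drop]
      have e : t1 + (t2 - t1) = t2 := by omega
      rw [e]
      exact e2
  refine h1.trans ?_
  rw [Finset.card_product]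
  refine (Nat.mul_le_mul (S.pf_card hcub t1 v) (S.pf_card hcub (L - t2) w)).trans ?_
  rw [← pow_add]
  have e : t1 + 1 + (L - t2 + 1) = L - (t2 - t1) + 2 := by omega
  rw [e, pow_add]
  omega

/-- the vertices at two positions of a path are joined by a shortest path -/
private theorem t5c_short {G : SimpleGraph V} {u v : V} (h : G.Reachable u v) :
    ∃ D ∈ paths G (G.dist u v), D.head? = some u ∧ D.getLast? = some v := by
  obtain ⟨p, hp⟩ := h.exists_walk_length_eq_dist
  refine ⟨p.support, ?_, ?_, ?_⟩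
  · rw [mem_paths]
    exact ⟨by rw [SimpleGraph.Walk.length_support, hp],
      (p.isPath_of_length_eq_dist hp).support_nodup, p.isChain_adj_support⟩
  · cases p <;> simp
  · rw [List.getLast?_eq_getLast_of_ne_nil p.support_ne_nil, p.getLast_support]

private theorem t5c_reach {G : SimpleGraph V} :
    ∀ (l : List V) (i : ℕ) (x y : V), l.IsChain G.Adj → l[0]? = some x → l[i]? = some y →
      G.Reachable x y := by
  intro l
  induction l with
  | nil =>
    intro i x y _ h _
    simp at h
  | cons a l ih =>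
    intro i x y hc hx hy
    simp only [List.getElem?_cons_zero, Option.some.injEq] at hx
    subst hx
    cases i with
    | zero =>
      simp only [List.getElem?_cons_zero, Option.some.injEq] at hy
      rw [hy]
    | succ i =>
      rw [List.getElem?_cons_succ] at hy
      cases l with
      | nil => simp at hy
      | cons b t =>
        rw [List.isChain_cons_cons] at hc
        exact hc.1.reachable.trans (ih i b y hc.2 rfl hy)

private theorem t5c_one {G : SimpleGraph V} (hcub : ∀ v, (G.neighborSet v).ncard = 3)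
    {t1 t2 L : ℕ} (h12 : t1 ≤ t2) (h2 : t2 ≤ L) (l : ℕ) :
    ((paths G L).filter fun Q => ∃ u v, Q[t1]? = some u ∧ Q[t2]? = some v ∧
      G.dist u v = l).card ≤ 4 * 2 ^ (L - (t2 - t1)) * ∑ v, SS G (t2 - t1) l v := by
  let PD : V → Finset (List V × List V) := fun v =>
    (paths G (t2 - t1) ×ˢ paths G l).filter fun P =>
      P.1.head? = some v ∧ P.2.head? = some v ∧ P.1.getLast? = P.2.getLast?
  have hsub : ((paths G L).filter fun Q => ∃ u v, Q[t1]? = some u ∧ Q[t2]? = some v ∧
      G.dist u v = l) ⊆ (univ : Finset V).biUnion fun v => (PD v).biUnion fun P =>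
        (paths G L).filter fun Q => (Q.drop t1).take (t2 - t1 + 1) = P.1 := by
    intro Q hQ
    obtain ⟨hQ1, u, v, hu, hv, hd⟩ := Finset.mem_filter.1 hQ
    have hQ2 := mem_paths.1 hQ1
    rw [Finset.mem_biUnion]
    refine ⟨u, Finset.mem_univ _, ?_⟩
    rw [Finset.mem_biUnion]
    -- the middle piece
    have hB0 : ((Q.drop t1).take (t2 - t1 + 1))[0]? = some u := by
      rw [List.getElem?_take, List.getElem?_drop, if_pos (by omega)]
      exact hu
    have hB1 : ((Q.drop t1).take (t2 - t1 + 1))[t2 - t1]? = some v := by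
      rw [List.getElem?_take, List.getElem?_drop, if_pos (by omega)]
      have e : t1 + (t2 - t1) = t2 := by omega
      rw [e]
      exact hv
    have hBl : ((Q.drop t1).take (t2 - t1 + 1)).length = t2 - t1 + 1 := by
      rw [List.length_take, List.length_drop, hQ2.1]
      omega
    have hBc : ((Q.drop t1).take (t2 - t1 + 1)).IsChain G.Adj := (hQ2.2.2.drop _).take _
    obtain ⟨D, hD, hD0, hD1⟩ := t5c_short (t5c_reach _ _ u v hBc hB0 hB1)
    rw [hd] at hD
    refine ⟨((Q.drop t1).take (t2 - t1 + 1), D), ?_, ?_⟩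
    · refine Finset.mem_filter.2 ⟨Finset.mem_product.2 ⟨?_, hD⟩, ?_, hD0, ?_⟩
      · rw [mem_paths]
        exact ⟨hBl, (hQ2.2.1.sublist (List.drop_sublist _ _)).sublist (List.take_sublist _ _), hBc⟩
      · rw [List.head?_eq_getElem?]
        exact hB0
      · show ((Q.drop t1).take (t2 - t1 + 1)).getLast? = D.getLast?
        rw [hD1, List.getLast?_eq_getElem?, hBl, Nat.add_sub_cancel]
        exact hB1
    · exact Finset.mem_filter.2 ⟨hQ1, rfl⟩
  refine (Finset.card_le_card hsub).trans (Finset.card_biUnion_le.trans ?_)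
  rw [Finset.mul_sum]
  refine Finset.sum_le_sum fun v _ => Finset.card_biUnion_le.trans ?_
  have h3 : ∀ P ∈ PD v, ((paths G L).filter fun Q =>
      (Q.drop t1).take (t2 - t1 + 1) = P.1).card ≤ 4 * 2 ^ (L - (t2 - t1)) := by
    intro P hP
    have hP1 := (Finset.mem_product.1 (Finset.mem_filter.1 hP).1).1
    exact t5c_fib hcub h12 h2 P.1 (mem_paths.1 hP1).1
  refine (Finset.sum_le_sum h3).trans ?_
  rw [Finset.sum_const, smul_eq_mul, mul_comm]
  exact le_refl _

end t5c

theorem p_t5c : S_t5c := by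
  intro V _ G hG L R r
  have hcub := mem_cub.1 hG
  let cond : List V → ℕ × ℕ → Prop := fun Q p =>
    p.1 + R < p.2 ∧ ∃ u v, Q[p.1]? = some u ∧ Q[p.2]? = some v ∧ G.dist u v ≤ r
  -- exchange the sums
  have e1 : (∑ Q ∈ paths G L, (((range (L + 1) ×ˢ range (L + 1)).filter fun p =>
        p.1 + R < p.2 ∧ ∃ u v, Q[p.1]? = some u ∧ Q[p.2]? = some v ∧ G.dist u v ≤ r).card : ℝ)) =
      ∑ p ∈ range (L + 1) ×ˢ range (L + 1), (((paths G L).filter fun Q => cond Q p).card : ℝ) := by
    have e2 : ∀ Q ∈ paths G L, (((range (L + 1) ×ˢ range (L + 1)).filter fun p =>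
        p.1 + R < p.2 ∧ ∃ u v, Q[p.1]? = some u ∧ Q[p.2]? = some v ∧ G.dist u v ≤ r).card : ℝ) =
        ∑ p ∈ range (L + 1) ×ˢ range (L + 1), (if cond Q p then (1 : ℝ) else 0) := by
      intro Q _
      rw [Finset.sum_boole]
    rw [Finset.sum_congr rfl e2, Finset.sum_comm]
    refine Finset.sum_congr rfl fun p _ => ?_
    rw [Finset.sum_boole]
  rw [e1, Finset.sum_product]
  refine Finset.sum_le_sum fun t1 ht1 => ?_
  -- drop the indices `t2 ≤ t1 + R`
  have e3 : ∑ t2 ∈ range (L + 1), (((paths G L).filter fun Q => cond Q (t1, t2)).card : ℝ) =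
      ∑ t2 ∈ Ioc (t1 + R) L, (((paths G L).filter fun Q => cond Q (t1, t2)).card : ℝ) := by
    symm
    refine Finset.sum_subset ?_ ?_
    · intro t2 h
      rw [Finset.mem_Ioc] at h
      exact Finset.mem_range.2 (by omega)
    · intro t2 h h'
      rw [Finset.mem_range] at h
      rw [Finset.mem_Ioc] at h'
      have h3 : ((paths G L).filter fun Q => cond Q (t1, t2)) = ∅ := by
        refine Finset.filter_eq_empty_iff.2 fun Q _ hc => ?_
        have := hc.1
        simp only at this
        omega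
      rw [h3]
      simp
  rw [e3]
  refine Finset.sum_le_sum fun t2 ht2 => ?_
  rw [Finset.mem_Ioc] at ht2
  -- sum over the distances
  have e4 : ((paths G L).filter fun Q => cond Q (t1, t2)) ⊆ (range (r + 1)).biUnion fun l =>
      (paths G L).filter fun Q => ∃ u v, Q[t1]? = some u ∧ Q[t2]? = some v ∧ G.dist u v = l := by
    intro Q hQ
    obtain ⟨hQ1, -, u, v, hu, hv, hd⟩ := Finset.mem_filter.1 hQ
    rw [Finset.mem_biUnion]
    exact ⟨G.dist u v, Finset.mem_range.2 (by omega), Finset.mem_filter.2 ⟨hQ1, u, v, hu, hv, rfl⟩⟩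
  have e5 : ((paths G L).filter fun Q => cond Q (t1, t2)).card ≤
      ∑ l ∈ range (r + 1), 4 * 2 ^ (L - (t2 - t1)) * ∑ v, SS G (t2 - t1) l v :=
    (Finset.card_le_card e4).trans (Finset.card_biUnion_le.trans
      (Finset.sum_le_sum fun l _ => t5c_one hcub (by omega) ht2.2 l))
  have e6 : (((paths G L).filter fun Q => cond Q (t1, t2)).card : ℝ) ≤
      ((∑ l ∈ range (r + 1), 4 * 2 ^ (L - (t2 - t1)) * ∑ v, SS G (t2 - t1) l v : ℕ) : ℝ) := by
    exact_mod_cast e5
  refine e6.trans (le_of_eq ?_)
  push_cast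
  rfl

end Pool.Agent.Lib.MP_fce888_co.G
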