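import Pool.Agent.Lib.MP_fce888_co.G.Stm

set_option autoImplicit false

/-!
# MP_fce888_co, section G: piece [wt]
-/

namespace Pool.Agent.Lib.MP_fce888_co.G

open Finset
open scoped Classical

private theorem wt_aux (V : Type) [Fintype V] (P : List V) (hP : P.Nodup) (hP0 : P ≠ []) :
    ∀ P' : List V, P'.Nodup → (∃ z ∈ P, P'.getLast? = some z) →
    (2 : ℝ) ^ (P.toFinset ∪ P'.toFinset).card / (Fintype.card V : ℝ) ^ (cE P ∪ cE P').card ≤
      2 ^ P.length / (Fintype.card V : ℝ) ^ (P.length - 1) * W P P' := by
  obtain ⟨v0, hv0⟩ := List.exists_mem_of_ne_nil P hP0
  haveI : Nonempty V := ⟨v0⟩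
  have hn : (0 : ℝ) < (Fintype.card V : ℝ) := by exact_mod_cast Fintype.card_pos
  intro P'
  induction P' with
  | nil =>
    intro _ h
    obtain ⟨z, -, h⟩ := h
    simp at h
  | cons x l ih =>
    cases l with
    | nil =>
      intro _ h
      obtain ⟨z, hz, h⟩ := h
      have hxz : x = z := by simpa using h
      subst hxz
      have h1 : P.toFinset ∪ [x].toFinset = P.toFinset := by
        apply Finset.union_eq_left.mpr
        intro y hy
        have : y = x := by simpa using hy
        rw [this]
        exact List.mem_toFinset.mpr hz
      have h2 : cE P ∪ cE [x] = cE P := by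
        rw [cE_one, Finset.union_empty]
      have h3 : W P [x] = 1 := by simp [W]
      rw [h1, h2, h3, List.toFinset_card_of_nodup hP, card_cE hP, mul_one]
    | cons y t =>
      intro hnd h
      obtain ⟨z, hz, h⟩ := h
      have hx : x ∉ y :: t := (List.nodup_cons.mp hnd).1
      have hnd' : (y :: t).Nodup := (List.nodup_cons.mp hnd).2
      have hl : (y :: t).getLast? = some z := by
        rw [List.getLast?_cons_cons] at h
        exact h
      have ih' := ih hnd' ⟨z, hz, hl⟩
      have hW : W P (x :: y :: t) = w1 P x y * W P (y :: t) := by simp [W]
      rw [hW, cE_cons]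
      set n : ℝ := (Fintype.card V : ℝ) with hndef
      set v : ℕ := (P.toFinset ∪ (y :: t).toFinset).card with hv
      set m : ℕ := (cE P ∪ cE (y :: t)).card with hm
      set R : ℝ := 2 ^ P.length / n ^ (P.length - 1) with hR
      by_cases he : s(x, y) ∈ cE P
      · have hxP : x ∈ P := mem_of_mem_cE he (Sym2.mem_mk_left x y)
        have h1 : P.toFinset ∪ (x :: y :: t).toFinset = P.toFinset ∪ (y :: t).toFinset := by
          ext u
          simp only [Finset.mem_union, List.mem_toFinset, List.mem_cons]
          constructor
          · rintro (h1 | rfl | h1)
            · exact Or.inl h1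
            · exact Or.inl hxP
            · exact Or.inr h1
          · rintro (h1 | h1)
            · exact Or.inl h1
            · exact Or.inr (Or.inr h1)
        have h2 : cE P ∪ insert s(x, y) (cE (y :: t)) = cE P ∪ cE (y :: t) := by
          rw [Finset.union_insert, Finset.insert_eq_of_mem (Finset.mem_union_left _ he)]
        have h3 : w1 P x y = 1 := by
          unfold w1
          rw [if_pos he]
        rw [h1, h2, h3, one_mul]
        exact ih'
      · have he' : s(x, y) ∉ cE (y :: t) := fun h4 =>
          hx (mem_of_mem_cE h4 (Sym2.mem_mk_left x y))
        have h2 : (cE P ∪ insert s(x, y) (cE (y :: t))).card = m + 1 := by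
          rw [Finset.union_insert, Finset.card_insert_of_notMem]
          rw [Finset.mem_union]
          rintro (h4 | h4)
          · exact he h4
          · exact he' h4
        rw [h2]
        have hpow : (0 : ℝ) < n ^ m := pow_pos hn m
        by_cases hxP : x ∈ P
        · have h1 : P.toFinset ∪ (x :: y :: t).toFinset = P.toFinset ∪ (y :: t).toFinset := by
            ext u
            simp only [Finset.mem_union, List.mem_toFinset, List.mem_cons]
            constructor
            · rintro (h1 | rfl | h1)
              · exact Or.inl h1
              · exact Or.inl hxP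
              · exact Or.inr h1
            · rintro (h1 | h1)
              · exact Or.inl h1
              · exact Or.inr (Or.inr h1)
          have h3 : w1 P x y = 1 / n := by
            unfold w1
            rw [if_neg he, if_pos hxP]
          rw [h1, h3]
          have h5 : (2 : ℝ) ^ v / n ^ (m + 1) = (1 / n) * (2 ^ v / n ^ m) := by
            rw [pow_succ]
            field_simp
          rw [h5]
          have h6 : R * (1 / n * W P (y :: t)) = (1 / n) * (R * W P (y :: t)) := by ring
          rw [h6]
          exact mul_le_mul_of_nonneg_left ih' (by positivity)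
        · have h1 : (P.toFinset ∪ (x :: y :: t).toFinset).card = v + 1 := by
            have h7 : P.toFinset ∪ (x :: y :: t).toFinset =
                insert x (P.toFinset ∪ (y :: t).toFinset) := by
              ext u
              simp only [Finset.mem_union, List.mem_toFinset, List.mem_cons, Finset.mem_insert]
              tauto
            rw [h7, Finset.card_insert_of_notMem]
            rw [Finset.mem_union, List.mem_toFinset, List.mem_toFinset]
            rintro (h4 | h4)
            · exact hxP h4
            · exact hx h4
          have h3 : w1 P x y = 2 / n := by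
            unfold w1
            rw [if_neg he, if_neg hxP]
          rw [h1, h3]
          have h5 : (2 : ℝ) ^ (v + 1) / n ^ (m + 1) = (2 / n) * (2 ^ v / n ^ m) := by
            rw [pow_succ, pow_succ]
            field_simp
          rw [h5]
          have h6 : R * (2 / n * W P (y :: t)) = (2 / n) * (R * W P (y :: t)) := by ring
          rw [h6]
          exact mul_le_mul_of_nonneg_left ih' (by positivity)

theorem p_wt : S_wt := by
  intro V _ P P' hP hP' hP0 hz
  obtain ⟨v0, hv0⟩ := List.exists_mem_of_ne_nil P hP0
  haveI : Nonempty V := ⟨v0⟩
  have hn : (0 : ℝ) < (Fintype.card V : ℝ) := by exact_mod_cast Fintype.card_pos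
  refine le_trans ?_ (wt_aux V P hP hP0 P' hP' hz)
  apply div_le_div_of_nonneg_right _ (by positivity)
  apply pow_le_pow_right₀ (by norm_num)
  apply Finset.card_le_card
  rw [vs_union]
  exact Finset.union_subset_union (vs_cE_subset P) (vs_cE_subset P')

end Pool.Agent.Lib.MP_fce888_co.G
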