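import Pool.Agent.Lib.MP_fce888_co.G.Assembly
import Pool.Agent.Lib.MP_fce888_co.G.P_num
import Pool.Agent.Lib.MP_fce888_co.G.P_sw
import Pool.Agent.Lib.MP_fce888_co.G.P_sw1
import Pool.Agent.Lib.MP_fce888_co.G.P_sw2
import Pool.Agent.Lib.MP_fce888_co.G.P_sw3
import Pool.Agent.Lib.MP_fce888_co.G.P_prod
import Pool.Agent.Lib.MP_fce888_co.G.P_nn
import Pool.Agent.Lib.MP_fce888_co.G.P_lolE
import Pool.Agent.Lib.MP_fce888_co.G.P_notUP
import Pool.Agent.Lib.MP_fce888_co.G.P_nbcount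
import Pool.Agent.Lib.MP_fce888_co.G.P_nbdec
import Pool.Agent.Lib.MP_fce888_co.G.P_wt
import Pool.Agent.Lib.MP_fce888_co.G.P_dom
import Pool.Agent.Lib.MP_fce888_co.G.P_abd
import Pool.Agent.Lib.MP_fce888_co.G.P_pairE
import Pool.Agent.Lib.MP_fce888_co.G.P_t5c
import Pool.Agent.Lib.MP_fce888_co.G.P_E1
import Pool.Agent.Lib.MP_fce888_co.G.P_E23
import Pool.Agent.Lib.MP_fce888_co.G.P_E4
import Pool.Agent.Lib.MP_fce888_co.G.P_E5

set_option autoImplicit false

/-!
# MP_fce888_co, section G: everything except the connectivity (helper2's `GE`)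
-/

namespace Pool.Agent.Lib.MP_fce888_co.G

theorem all_nn : S_nn := p_nn (p_prod (p_sw p_sw1 p_sw2 p_sw3))

theorem all_lolE : S_lolE := p_lolE all_nn

theorem all_pairE : S_pairE := p_pairE all_nn p_wt p_dom p_abd

/-- Section (G), from the connectivity statement. -/
theorem G_of_conn (hc : S_conn) : GStatement :=
  G_assembly hc (p_E1 p_num all_lolE p_notUP) (p_E23 p_num all_pairE)
    (p_E4 p_num all_lolE p_nbcount p_nbdec) (p_E5 p_num all_pairE p_t5c)

end Pool.Agent.Lib.MP_fce888_co.G
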