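import Pool.Agent.Lib.MP_fce888_co.G.Stm

set_option autoImplicit false
set_option linter.unusedSectionVars false

namespace Pool.Agent.Lib.MP_fce888_co.G

open Finset
open scoped Classical

/-- few members of `cub V` violate `P` -/
private def Few (V : Type) [Fintype V] (P : SimpleGraph V → Prop) (c : ℝ) : Prop :=
  ∃ B : Finset (SimpleGraph V), (∀ G ∈ cub V, ¬ P G → G ∈ B) ∧ (B.card : ℝ) ≤ c * ((cub V).card : ℝ)

private theorem core {V : Type} [Fintype V] (C2 : ℝ)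
    (hc : Few V (fun G => G.Connected) (1 / 10))
    (h1 : Few V (fun G => T1 G) (1 / 20))
    (h2 : Few V (fun G => T2 C2 G) (1 / 20))
    (h3 : Few V (fun G => T3 G) (1 / 20))
    (h4 : Few V (fun G => T4 G) (1 / 20))
    (h5 : Few V (fun G => T5 G) (1 / 20)) :
    (1 / 2 : ℝ) * (({G : SimpleGraph V | ∀ v, (G.neighborSet v).ncard = 3} :
      Set (SimpleGraph V)).ncard : ℝ) ≤
    (({G : SimpleGraph V | Typ C2 G} : Set (SimpleGraph V)).ncard : ℝ) := by
  obtain ⟨Bc, hBc, hBc'⟩ := hc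
  obtain ⟨B1, hB1, hB1'⟩ := h1
  obtain ⟨B2, hB2, hB2'⟩ := h2
  obtain ⟨B3, hB3, hB3'⟩ := h3
  obtain ⟨B4, hB4, hB4'⟩ := h4
  obtain ⟨B5, hB5, hB5'⟩ := h5
  have e1 : ({G : SimpleGraph V | ∀ v, (G.neighborSet v).ncard = 3} :
      Set (SimpleGraph V)).ncard = (cub V).card := by
    rw [← coe_cub, Set.ncard_coe_finset]
  obtain ⟨TT, hTT⟩ : ∃ TT : Finset (SimpleGraph V), ∀ G, G ∈ TT ↔ Typ C2 G :=
    ⟨univ.filter fun G => Typ C2 G, fun G => by rw [Finset.mem_filter]; simp⟩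
  have e2 : ({G : SimpleGraph V | Typ C2 G} : Set (SimpleGraph V)).ncard = TT.card := by
    have : ({G : SimpleGraph V | Typ C2 G} : Set (SimpleGraph V)) = (TT : Set (SimpleGraph V)) := by
      apply Set.ext
      intro G
      rw [Finset.mem_coe, Set.mem_setOf_eq, hTT]
    rw [this, Set.ncard_coe_finset]
  rw [e1, e2]
  have hsub : cub V ⊆ TT ∪ (Bc ∪ (B1 ∪ (B2 ∪ (B3 ∪ (B4 ∪ B5))))) := by
    intro G hG
    simp only [Finset.mem_union]
    by_contra hcon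
    simp only [not_or] at hcon
    obtain ⟨k0, kc, k1, k2, k3, k4, k5⟩ := hcon
    apply k0
    rw [hTT]
    have j0 : G.Connected := by by_contra h; exact kc (hBc G hG h)
    have j1 : T1 G := by by_contra h; exact k1 (hB1 G hG h)
    have j2 : T2 C2 G := by by_contra h; exact k2 (hB2 G hG h)
    have j3 : T3 G := by by_contra h; exact k3 (hB3 G hG h)
    have j4 : T4 G := by by_contra h; exact k4 (hB4 G hG h)
    have j5 : T5 G := by by_contra h; exact k5 (hB5 G hG h)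
    exact ⟨j0, mem_cub.1 hG, j1, j2, j3, j4, j5⟩
  have hle := (Finset.card_le_card hsub).trans (Finset.card_union_le _ _)
  have u1 := Finset.card_union_le Bc (B1 ∪ (B2 ∪ (B3 ∪ (B4 ∪ B5))))
  have u2 := Finset.card_union_le B1 (B2 ∪ (B3 ∪ (B4 ∪ B5)))
  have u3 := Finset.card_union_le B2 (B3 ∪ (B4 ∪ B5))
  have u4 := Finset.card_union_le B3 (B4 ∪ B5)
  have u5 := Finset.card_union_le B4 B5
  have h6 : (cub V).card ≤ TT.card + (Bc.card + (B1.card + (B2.card + (B3.card + (B4.card + B5.card))))) := by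
    omega
  have h7 : ((cub V).card : ℝ) ≤ (TT.card : ℝ) + ((Bc.card : ℝ) + ((B1.card : ℝ) + ((B2.card : ℝ) +
      ((B3.card : ℝ) + ((B4.card : ℝ) + (B5.card : ℝ)))))) := by
    exact_mod_cast h6
  have h8 : (0 : ℝ) ≤ ((cub V).card : ℝ) := by positivity
  linarith

/-- Section (G), from its sub-statements. -/
theorem G_assembly (hc : S_conn) (hE1 : S_E1) (hE23 : S_E23) (hE4 : S_E4) (hE5 : S_E5) :
    GStatement := by
  obtain ⟨n1, h1⟩ := hE1
  obtain ⟨⟨n2, h2⟩, ⟨n3, h3⟩⟩ := hE23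
  obtain ⟨n4, h4⟩ := hE4
  obtain ⟨n5, h5⟩ := hE5
  refine ⟨560, ?_⟩
  filter_upwards [hc, Filter.eventually_ge_atTop (n1 + n2 + n3 + n4 + n5)] with j hj hjn
  have hcard : Fintype.card (Fin (2 * j)) = 2 * j := Fintype.card_fin _
  have k1 : n1 ≤ Fintype.card (Fin (2 * j)) := by rw [hcard]; omega
  have k2 : n2 ≤ Fintype.card (Fin (2 * j)) := by rw [hcard]; omega
  have k3 : n3 ≤ Fintype.card (Fin (2 * j)) := by rw [hcard]; omega
  have k4 : n4 ≤ Fintype.card (Fin (2 * j)) := by rw [hcard]; omega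
  have k5 : n5 ≤ Fintype.card (Fin (2 * j)) := by rw [hcard]; omega
  have e1 : ({G : SimpleGraph (Fin (2 * j)) | ∀ v, (G.neighborSet v).ncard = 3} :
      Set (SimpleGraph (Fin (2 * j)))).ncard = (cub (Fin (2 * j))).card := by
    rw [← coe_cub, Set.ncard_coe_finset]
  refine ⟨by rw [e1]; exact hj.1, ?_⟩
  apply core (V := Fin (2 * j)) 560
  · exact ⟨_, fun G hG h => Finset.mem_filter.2 ⟨hG, h⟩, hj.2⟩
  · exact ⟨_, fun G hG h => Finset.mem_filter.2 ⟨hG, h⟩, h1 _ k1⟩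
  · exact ⟨_, fun G hG h => Finset.mem_filter.2 ⟨hG, h⟩, h2 _ k2⟩
  · exact ⟨_, fun G hG h => Finset.mem_filter.2 ⟨hG, h⟩, h3 _ k3⟩
  · exact ⟨_, fun G hG h => Finset.mem_filter.2 ⟨hG, h⟩, h4 _ k4⟩
  · exact ⟨_, fun G hG h => Finset.mem_filter.2 ⟨hG, h⟩, h5 _ k5⟩

end Pool.Agent.Lib.MP_fce888_co.G
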