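import Pool.Agent.Lib.MP_fce888_co.Iface

set_option autoImplicit false
set_option linter.unusedSectionVars false

/-!
# MP_fce888_co, section G (random cubic graphs): definitions and basic lemmas (helper81)
-/

namespace Pool.Agent.Lib.MP_fce888_co.G

open Finset
open scoped Classical

variable {V : Type} [Fintype V]

/-- the finite set of all cubic graphs on `V` -/
noncomputable def cub (V : Type) [Fintype V] : Finset (SimpleGraph V) :=
  univ.filter fun G => ∀ v, (G.neighborSet v).ncard = 3

/-- `N(F)`: the number of cubic graphs on `V` containing all the edges in `F` -/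
noncomputable def NN (F : Finset (Sym2 V)) : ℕ :=
  ((cub V).filter fun G => ∀ e ∈ F, e ∈ G.edgeSet).card

/-- degree of `v` in the edge set `F` -/
noncomputable def dg (F : Finset (Sym2 V)) (v : V) : ℕ := (F.filter fun e => v ∈ e).card

/-- the edges of a vertex list -/
noncomputable def cE : List V → Finset (Sym2 V)
  | [] => ∅
  | [_] => ∅
  | x :: y :: t => insert s(x, y) (cE (y :: t))

/-- lollipops with `m` vertices, as lists `s`: the path `s`, together with the edge from the head
`s[0]` to `s[i]` (`2 ≤ i < m`). -/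
noncomputable def lol (G : SimpleGraph V) (m i : ℕ) : Finset (List V) :=
  (lists V m).filter fun s => s.Nodup ∧ s.IsChain G.Adj ∧
    ∃ x y, s[0]? = some x ∧ s[i]? = some y ∧ G.Adj x y

/-- no backtracking -/
def NBk : List V → Prop
  | x :: y :: z :: t => x ≠ z ∧ NBk (y :: z :: t)
  | _ => True

/-- nonbacktracking walks of length `t` (`t` edges) -/
noncomputable def nb (G : SimpleGraph V) (t : ℕ) : Finset (List V) :=
  (lists V (t + 1)).filter fun l => l.IsChain G.Adj ∧ NBk l

/-! ## basic lemmas -/

theorem mem_lists {k : ℕ} {l : List V} : l ∈ lists V k ↔ l.length = k := by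
  unfold lists
  constructor
  · intro h
    obtain ⟨f, -, rfl⟩ := Finset.mem_image.1 h
    simp
  · intro h
    subst h
    exact Finset.mem_image.2 ⟨l.get, Finset.mem_univ _, List.ofFn_get l⟩

theorem card_lists (k : ℕ) : (lists V k).card = Fintype.card V ^ k := by
  unfold lists
  rw [Finset.card_image_of_injective _ List.ofFn_injective, Finset.card_univ]
  simp

theorem mem_cub {G : SimpleGraph V} : G ∈ cub V ↔ ∀ v, (G.neighborSet v).ncard = 3 := by
  simp [cub]

theorem coe_cub : ((cub V : Finset (SimpleGraph V)) : Set (SimpleGraph V)) =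
    {G : SimpleGraph V | ∀ v, (G.neighborSet v).ncard = 3} := by
  ext G; simp [cub]

theorem mem_paths {G : SimpleGraph V} {t : ℕ} {l : List V} :
    l ∈ paths G t ↔ l.length = t + 1 ∧ l.Nodup ∧ l.IsChain G.Adj := by
  unfold paths
  rw [Finset.mem_filter, mem_lists]
  constructor
  · rintro ⟨h1, -, h3, h4⟩; exact ⟨h1, h3, h4⟩
  · rintro ⟨h1, h3, h4⟩
    refine ⟨h1, ?_, h3, h4⟩
    rintro rfl
    simp at h1

theorem mem_lol {G : SimpleGraph V} {m i : ℕ} {s : List V} :
    s ∈ lol G m i ↔ s.length = m ∧ s.Nodup ∧ s.IsChain G.Adj ∧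
      ∃ x y, s[0]? = some x ∧ s[i]? = some y ∧ G.Adj x y := by
  unfold lol
  rw [Finset.mem_filter, mem_lists]

theorem mem_nb {G : SimpleGraph V} {t : ℕ} {l : List V} :
    l ∈ nb G t ↔ l.length = t + 1 ∧ l.IsChain G.Adj ∧ NBk l := by
  unfold nb
  rw [Finset.mem_filter, mem_lists]

@[simp] theorem cE_nil : cE ([] : List V) = ∅ := rfl
@[simp] theorem cE_one (x : V) : cE [x] = ∅ := rfl
theorem cE_cons (x y : V) (t : List V) : cE (x :: y :: t) = insert s(x, y) (cE (y :: t)) := rfl

/-- the vertices of the edges of `l` are on `l` -/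
theorem mem_of_mem_cE {l : List V} {e : Sym2 V} (he : e ∈ cE l) {v : V} (hv : v ∈ e) : v ∈ l := by
  induction l with
  | nil => simp at he
  | cons x l ih =>
    cases l with
    | nil => simp at he
    | cons y t =>
      rw [cE_cons, Finset.mem_insert] at he
      rcases he with rfl | he
      · rcases Sym2.mem_iff.1 hv with rfl | rfl <;> simp
      · exact List.mem_cons_of_mem _ (ih he)

theorem vs_cE_subset (l : List V) : vs (cE l) ⊆ l.toFinset := by
  intro v hv
  unfold vs at hv
  obtain ⟨-, e, he, hve⟩ := Finset.mem_filter.1 hv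
  exact List.mem_toFinset.2 (mem_of_mem_cE he hve)

/-- a nodup list of `k + 1` vertices has exactly `k` edges -/
theorem card_cE {l : List V} (hl : l.Nodup) : (cE l).card = l.length - 1 := by
  induction l with
  | nil => simp
  | cons x l ih =>
    cases l with
    | nil => simp
    | cons y t =>
      rw [cE_cons, Finset.card_insert_of_notMem, ih hl.of_cons]
      · simp
      · intro h
        have := mem_of_mem_cE h (Sym2.mem_mk_left x y)
        exact (List.nodup_cons.1 hl).1 this

/-- `l` is a walk in `G` iff all its edges are in `G` -/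
theorem chain_iff {G : SimpleGraph V} (l : List V) :
    l.IsChain G.Adj ↔ ∀ e ∈ cE l, e ∈ G.edgeSet := by
  induction l with
  | nil => simp
  | cons x l ih =>
    cases l with
    | nil => simp
    | cons y t =>
      rw [List.isChain_cons_cons, ih, cE_cons]
      simp

/-- membership in `cE`, by positions -/
theorem mem_cE_iff {l : List V} {e : Sym2 V} :
    e ∈ cE l ↔ ∃ (i : ℕ) (x y : V), l[i]? = some x ∧ l[i + 1]? = some y ∧ e = s(x, y) := by
  induction l with
  | nil => simp
  | cons a l ih =>
    cases l with
    | nil => simp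
    | cons b t =>
      rw [cE_cons, Finset.mem_insert, ih]
      constructor
      · rintro (rfl | ⟨i, x, y, h1, h2, h3⟩)
        · exact ⟨0, a, b, by simp, by simp, rfl⟩
        · exact ⟨i + 1, x, y, by simpa using h1, by simpa using h2, h3⟩
      · rintro ⟨i, x, y, h1, h2, h3⟩
        cases i with
        | zero =>
          left
          simp at h1 h2
          rw [h1, h2]; exact h3
        | succ i =>
          right
          exact ⟨i, x, y, by simpa using h1, by simpa using h2, h3⟩

theorem mem_vs {D : Finset (Sym2 V)} {v : V} : v ∈ vs D ↔ ∃ e ∈ D, v ∈ e := by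
  simp [vs]

theorem vs_union (D E : Finset (Sym2 V)) : vs (D ∪ E) = vs D ∪ vs E := by
  ext v
  simp only [mem_vs, Finset.mem_union]
  constructor
  · rintro ⟨e, he | he, hv⟩
    · exact Or.inl ⟨e, he, hv⟩
    · exact Or.inr ⟨e, he, hv⟩
  · rintro (⟨e, he, hv⟩ | ⟨e, he, hv⟩)
    · exact ⟨e, Or.inl he, hv⟩
    · exact ⟨e, Or.inr he, hv⟩

theorem vs_insert (x y : V) (D : Finset (Sym2 V)) : vs (insert s(x, y) D) = insert x (insert y (vs D)) := by
  ext v
  simp only [mem_vs, Finset.mem_insert, exists_eq_or_imp, Sym2.mem_iff]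
  tauto

end Pool.Agent.Lib.MP_fce888_co.G
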