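import Pool.Agent.Lib.MP_fce888_co.G.Stm

set_option autoImplicit false

namespace Pool.Agent.Lib.MP_fce888_co.G

open Finset
open scoped Classical

private lemma nbc_deg {V : Type} [Fintype V] {G : SimpleGraph V} (hG : G ∈ cub V) (x : V) :
    ((univ : Finset V).filter fun z => G.Adj z x).card = 3 := by
  have h := mem_cub.1 hG x
  rw [Set.ncard_eq_toFinset_card'] at h
  rw [← h]
  congr 1
  ext z
  rw [Finset.mem_filter, Set.mem_toFinset, SimpleGraph.mem_neighborSet]
  constructor
  · exact fun hz => hz.2.symm
  · exact fun hz => ⟨Finset.mem_univ _, hz.symm⟩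

private lemma nbc_deg2 {V : Type} [Fintype V] {G : SimpleGraph V} (hG : G ∈ cub V) (x y : V)
    (hxy : G.Adj x y) : ((univ : Finset V).filter fun z => G.Adj z x ∧ z ≠ y).card = 2 := by
  have h : ((univ : Finset V).filter fun z => G.Adj z x ∧ z ≠ y) =
      ((univ : Finset V).filter fun z => G.Adj z x).erase y := by
    ext z
    rw [Finset.mem_filter, Finset.mem_erase, Finset.mem_filter]
    tauto
  rw [h, Finset.card_erase_of_mem, nbc_deg hG]
  rw [Finset.mem_filter]
  exact ⟨Finset.mem_univ _, hxy.symm⟩

private lemma nbc_fib {V : Type} (A : Finset V) (l : List V) :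
    (A.image fun z => z :: l).card = A.card := by
  apply Finset.card_image_of_injective
  intro a b hab
  exact (List.cons.inj hab).1

private lemma nbc_zero {V : Type} [Fintype V] {G : SimpleGraph V} (hG : G ∈ cub V) :
    (nb G 1).card = 3 * Fintype.card V := by
  have hmap : Set.MapsTo (fun l : List V => l.tail) (nb G 1 : Set (List V)) (lists V 1 : Set (List V)) := by
    intro l hl
    have hl' := mem_nb.1 (Finset.mem_coe.1 hl)
    apply Finset.mem_coe.2
    rw [mem_lists, List.length_tail, hl'.1]
  rw [Finset.card_eq_sum_card_fiberwise hmap]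
  have hf : ∀ b ∈ lists V 1, ((nb G 1).filter fun a => a.tail = b).card = 3 := by
    intro b hb
    rw [mem_lists, List.length_eq_one_iff] at hb
    obtain ⟨x, rfl⟩ := hb
    have : ((nb G 1).filter fun a => a.tail = [x]) =
        ((univ : Finset V).filter fun z => G.Adj z x).image fun z => z :: [x] := by
      ext l
      rw [Finset.mem_filter, Finset.mem_image, mem_nb]
      constructor
      · rintro ⟨⟨h1, h2, _⟩, h4⟩
        cases l with
        | nil => simp at h1
        | cons z l =>
          simp only [List.tail_cons] at h4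
          subst h4
          refine ⟨z, ?_, rfl⟩
          rw [Finset.mem_filter]
          exact ⟨Finset.mem_univ _, (List.isChain_cons_cons.1 h2).1⟩
      · rintro ⟨z, hz, rfl⟩
        rw [Finset.mem_filter] at hz
        refine ⟨⟨by simp, ?_, ?_⟩, by simp⟩
        · rw [List.isChain_cons_cons]
          exact ⟨hz.2, by simp⟩
        · unfold NBk
          trivial
    rw [this, nbc_fib, nbc_deg hG]
  rw [Finset.sum_congr rfl hf, Finset.sum_const, card_lists, smul_eq_mul]
  ring

private lemma nbc_succ {V : Type} [Fintype V] {G : SimpleGraph V} (hG : G ∈ cub V) (t : ℕ) :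
    (nb G (t + 2)).card = 2 * (nb G (t + 1)).card := by
  have hmap : Set.MapsTo (fun l : List V => l.tail) (nb G (t + 2) : Set (List V))
      (nb G (t + 1) : Set (List V)) := by
    intro l hl
    obtain ⟨h1, h2, h3⟩ := mem_nb.1 (Finset.mem_coe.1 hl)
    apply Finset.mem_coe.2
    rw [mem_nb]
    match l, h1, h2, h3 with
    | [], h1, _, _ => simp at h1
    | [x], h1, _, _ => simp at h1
    | [x, y], h1, _, _ => simp at h1
    | x :: y :: z :: l', h1, h2, h3 =>
      refine ⟨by simpa using h1, ?_, ?_⟩
      · exact (List.isChain_cons_cons.1 h2).2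
      · unfold NBk at h3
        exact h3.2
  rw [Finset.card_eq_sum_card_fiberwise hmap]
  have hf : ∀ b ∈ nb G (t + 1), ((nb G (t + 2)).filter fun a => a.tail = b).card = 2 := by
    intro b hb
    obtain ⟨h1, h2, h3⟩ := mem_nb.1 hb
    match b, h1, h2, h3 with
    | [], h1, _, _ => simp at h1
    | [x], h1, _, _ => simp at h1
    | x :: y :: l', h1, h2, h3 =>
      have hxy : G.Adj x y := (List.isChain_cons_cons.1 h2).1
      have : ((nb G (t + 2)).filter fun a => a.tail = x :: y :: l') =
          ((univ : Finset V).filter fun z => G.Adj z x ∧ z ≠ y).image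
            fun z => z :: (x :: y :: l') := by
        ext l
        rw [Finset.mem_filter, Finset.mem_image, mem_nb]
        constructor
        · rintro ⟨⟨k1, k2, k3⟩, h4⟩
          cases l with
          | nil => simp at k1
          | cons z l =>
            simp only [List.tail_cons] at h4
            subst h4
            refine ⟨z, ?_, rfl⟩
            rw [Finset.mem_filter]
            unfold NBk at k3
            exact ⟨Finset.mem_univ _, (List.isChain_cons_cons.1 k2).1, k3.1⟩
        · rintro ⟨z, hz, rfl⟩
          rw [Finset.mem_filter] at hz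
          refine ⟨⟨?_, ?_, ?_⟩, by simp⟩
          · rw [List.length_cons, h1]
          · rw [List.isChain_cons_cons]
            exact ⟨hz.2.1, h2⟩
          · unfold NBk
            exact ⟨hz.2.2, h3⟩
      rw [this, nbc_fib, nbc_deg2 hG x y hxy]
  rw [Finset.sum_congr rfl hf, Finset.sum_const, smul_eq_mul]
  ring

theorem p_nbcount : S_nbcount := by
  intro V _ G hG t
  induction t with
  | zero => rw [nbc_zero hG]; simp
  | succ t ih =>
    rw [nbc_succ hG, ih, pow_succ]
    ring

end Pool.Agent.Lib.MP_fce888_co.G
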