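import Pool.Agent.Lib.MP_fce888_co.G.Defs

set_option autoImplicit false
set_option linter.unusedSectionVars false

/-!
# MP_fce888_co, section G (random cubic graphs): the sub-statements (owner: helper81)

Paper: `/team-store/MP_fce888_h46.md`, section 2.  Notation: `n = Fintype.card V`, `m = F.card`.
Every docstring is a complete proof.  `cub V` = cubic graphs on `V`, `NN F` = number of cubic graphs
containing the edges `F`, `dg F v` = degree in `F`, `cE l` = edges of the vertex list `l`,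
`vs F` = vertices of `F`.  Lists, paths: see `Iface.lean`; basic lemmas: see `G/Defs.lean`.
-/

namespace Pool.Agent.Lib.MP_fce888_co.G

open Finset
open scoped Classical

/-! ## Switching -/

/-- **sw1** (M). For a cubic graph `G` containing `F` and the edge `uv ∉ F` there are at least
`3n - 2|F| - 26` ordered pairs `(a, b)` with `ab ∈ G`, `ab ∉ F + uv`, `a ∉ N[u]`, `b ∉ N[v]`.

Proof. The number of ordered pairs `(a,b)` with `G.Adj a b` is `∑ a, deg a = 3n`
(`Finset.card_filter` on `univ ×ˢ univ`, or sum over `a` of `(G.neighborSet a).ncard = 3`).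
Remove: pairs with `s(a,b) ∈ insert s(u,v) F`: at most `2 (|F|+1)` (each element of `Sym2 V` is
`s(a,b)` for at most two pairs); pairs with `a = u` or `G.Adj u a`: at most 4 vertices `a`, 3 pairs for
each, so 12; pairs with `b = v` or `G.Adj v b`: 12. Total `3n - 2|F| - 2 - 24` (truncated subtraction is
harmless: show `3n ≤ (this card) + 2|F| + 26`). -/
def S_sw1 : Prop :=
  ∀ (V : Type) [Fintype V] (G : SimpleGraph V), G ∈ cub V → ∀ (F : Finset (Sym2 V)) (u v : V),
    3 * Fintype.card V ≤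
      ((univ : Finset (V × V)).filter fun p => G.Adj p.1 p.2 ∧ s(p.1, p.2) ∉ insert s(u, v) F ∧
        p.1 ≠ u ∧ ¬ G.Adj u p.1 ∧ p.2 ≠ v ∧ ¬ G.Adj v p.2).card + 2 * F.card + 26

/-- **sw2** (S). In a cubic graph containing `F` the number of pairs `(a, b)`, `ua, vb ∈ G \ F`, is at most
`(3 - d_F(u)) (3 - d_F(v))`.

Proof. The set is the product of `{a | G.Adj u a ∧ s(u,a) ∉ F}` and the similar set for `v`. The
first has `3 - dg F u` elements: `{a | G.Adj u a}` has 3 elements, and `a ↦ s(u,a)` is a bijection from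
`{a | G.Adj u a ∧ s(u,a) ∈ F}` onto `{e ∈ F | u ∈ e}` (every `e ∈ F` with `u ∈ e` is `s(u,a)` with
`G.Adj u a` since `F ⊆ G`). -/
def S_sw2 : Prop :=
  ∀ (V : Type) [Fintype V] (G : SimpleGraph V), G ∈ cub V → ∀ (F : Finset (Sym2 V)) (u v : V),
    (∀ e ∈ F, e ∈ G.edgeSet) →
    ((univ : Finset (V × V)).filter fun p => G.Adj u p.1 ∧ s(u, p.1) ∉ F ∧ G.Adj v p.2 ∧
      s(v, p.2) ∉ F).card ≤ (3 - dg F u) * (3 - dg F v)

/-- the switched graph `G - uv - ab + ua + vb` -/
def sw {V : Type} (G : SimpleGraph V) (u v a b : V) : SimpleGraph V :=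
  SimpleGraph.fromEdgeSet ((G.edgeSet \ {s(u, v), s(a, b)}) ∪ {s(u, a), s(v, b)})

/-- **sw3** (M). The switched graph is cubic, has the expected edges, and `G` can be recovered.

Proof. `a ∉ {u, v}` (as `a ≠ u`, `G.Adj u v`, `¬ G.Adj u a`), similarly `b ∉ {u, v}`, `a ≠ b`, `u ≠ v`:
the four vertices are distinct. `SimpleGraph.edgeSet_fromEdgeSet`: nothing on the diagonal, so the edge set
is the expected one (second claim). Third claim: `ua, vb ∉ G`, `uv, ab ∈ G`, plain set algebra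
(`{ua, vb}` and `{uv, ab}` are disjoint). Cubic: the neighbour set of `u` loses `v` and gains `a`,
`v` loses `u` gains `b`, `a` loses `b` gains `u`, `b` loses `a` gains `v`, all others unchanged (e.g.
`(sw ..).neighborSet u = insert a (G.neighborSet u \ {v})`, `Set.ncard_insert_of_notMem`,
`Set.ncard_diff_singleton_of_mem`). By symmetry `sw G u v a b = sw G v u b a = sw G a b u v` it suffices
to treat `u` and an unaffected vertex. -/
def S_sw3 : Prop :=
  ∀ (V : Type) [Fintype V] (G : SimpleGraph V), G ∈ cub V → ∀ (u v a b : V),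
    G.Adj u v → G.Adj a b → a ≠ u → ¬ G.Adj u a → b ≠ v → ¬ G.Adj v b →
    sw G u v a b ∈ cub V ∧
    (sw G u v a b).edgeSet = (G.edgeSet \ {s(u, v), s(a, b)}) ∪ {s(u, a), s(v, b)} ∧
    G.edgeSet = ((sw G u v a b).edgeSet \ {s(u, a), s(v, b)}) ∪ {s(u, v), s(a, b)}

/-- **sw** (assembly, helper81): the switching inequality (G-a). -/
def S_sw : Prop :=
  ∀ (V : Type) [Fintype V] (F : Finset (Sym2 V)) (u v : V), u ≠ v → s(u, v) ∉ F →
    NN (insert s(u, v) F) * (3 * Fintype.card V - (2 * F.card + 26)) ≤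
      NN F * ((3 - dg F u) * (3 - dg F v))

/-- **prod** (M): prove `p_prod : S_sw → S_prod`.

Proof. `Finset.induction_on F`. `F = ∅`: `NN ∅ = (cub V).card`. Step `insert e F`, `e ∉ F`, `|F| = m`: if `e`
is diagonal then `NN (insert e F) = 0` (edges of a simple graph are not diagonal,
`SimpleGraph.not_isDiag_of_mem_edgeSet`). Otherwise `e = s(u,v)`, `u ≠ v`, and by `S_sw`
`NN (insert e F) * ∏_{i<m+1} = NN (insert e F) * (3n-2m-26) * ∏_{i<m} ≤ NN F * ∏_{i<m} * (3-d_u)(3-d_v)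
 ≤ |cub| * ∏_x descFactorial 3 (dg F x) * (3-d_u)(3-d_v) = |cub| * ∏_x descFactorial 3 (dg (insert e F) x)`,
since `dg` increases by one exactly at `u` and `v`, and `Nat.descFactorial_succ`. -/
def S_prod : Prop :=
  ∀ (V : Type) [Fintype V] (F : Finset (Sym2 V)),
    NN F * ∏ i ∈ range F.card, (3 * Fintype.card V - (2 * i + 26)) ≤
      (cub V).card * ∏ v : V, Nat.descFactorial 3 (dg F v)

/-- **nn** (M): prove `p_nn : S_prod → S_nn`. (G-b)

Proof. `m = F.card`. If `NN F = 0` trivial, so `F ⊆ G` for some `G`, in particular `F` has no diagonal elements and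
`∑_v dg F v = 2m` (double counting: each `e ∈ F` has exactly two vertices).
(1) `∏_v descFactorial 3 (dg F v) ≤ 2^{|vs F|} 3^m`: for `v ∉ vs F` the factor is 1 (and `dg F v = 0`); for every `d`:
`(descFactorial 3 d)^2 ≤ 4 * 3^d` (`d = 0,1,2,3`: 1, 9, 36, 36 versus 4, 12, 36, 108; `d ≥ 4`: 0). So the square of the
product is at most `4^{|vs F|} 3^{∑ dg} = (2^{|vs F|} 3^m)^2`.
(2) `(3n)^m ≤ 2 ∏_{i<m} (3n - (2i+26))`: over the reals, with `x_i = (2i+26)/(3n) ∈ [0,1]`, `∏ (1-x_i) ≥ 1 - ∑ x_i` and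
`∑ x_i = m(m+25)/(3n) ≤ 1/2`. (`m = 0` is trivial; for `m > 0` the hypothesis gives `n > 0`.)  Easier: induction on `k ≤ m`:
`∏_{i<k} (3n - (2i+26)) * ... ≥ (3n)^k - k(k+25) (3n)^{k-1}`.
Together `NN F * (3n)^m ≤ 2 * |cub| * 2^{|vs F|} 3^m`; divide by `3^m`. -/
def S_nn : Prop :=
  ∀ (V : Type) [Fintype V] (F : Finset (Sym2 V)),
    2 * F.card * (F.card + 26) ≤ 3 * Fintype.card V →
    (NN F : ℝ) * (Fintype.card V : ℝ) ^ F.card ≤ 2 * 2 ^ (vs F).card * ((cub V).card : ℝ)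

/-! ## Lollipops and nonbacktracking walks -/

/-- **lolE** (M): prove `p_lolE : S_nn → S_lolE`.

Proof. Write the left side as `∑_{s ∈ lists V m} #{G ∈ cub V | s ∈ lol G m i}` (`Finset.sum_comm` after
`Finset.card_filter` / `card_eq_sum_ones`). Fix `s`; if it is not `Nodup` the count is 0. Otherwise let `x = s[0]`,
`y = s[i]`, `F = insert s(x,y) (cE s)`: by `chain_iff` `s ∈ lol G m i` iff all edges of `F` are in `G`, so the count is `NN F`.
`|F| = m` (`card_cE`, and `s(x,y) ∉ cE s`: by `mem_cE_iff` it would be `s(s[j], s[j+1])`, and nodup gives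
`{0,i} = {j,j+1}`, contradiction to `i ≥ 2`), `vs F ⊆ s.toFinset` has at most `m` elements. `S_nn`: `NN F ≤ 2 * 2^m |cub| / n^m`.
There are `n^m` lists (`card_lists`). (`n > 0` follows from the hypothesis.) -/
def S_lolE : Prop :=
  ∀ (V : Type) [Fintype V] (m i : ℕ), 2 ≤ i → i < m → 2 * m * (m + 26) ≤ 3 * Fintype.card V →
    ((∑ G ∈ cub V, (lol G m i).card : ℕ) : ℝ) ≤ 2 * 2 ^ m * ((cub V).card : ℝ)

/-- **notUP** (M). If `v` violates the unique path property with radius `R`, then a lollipop with at most `2R` vertices ends in `v`.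

Proof. Let `p ≠ q` be paths from `v` with the same end, at most `R+1` vertices each. Let `i` be maximal such that the first `i+1`
vertices agree. Neither is a prefix of the other (same last vertex and nodup), so `p[i+1] ≠ q[i+1]` both exist. Let `j > i` be the
least index with `q[j] ∈ p` (exists: the end), `q[j] = p[k]`; `k > i` since `q[0..i] = p[0..i]` and `q` is nodup. The vertices
`p[0], ..., p[k], q[j-1], q[j-2], ..., q[i+1]` are distinct, consecutive ones adjacent, and the last is adjacent to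
`p[i] = q[i]`; their number is `m = (k+1) + (j-1-i) ≤ 2R` (`k ≤ R`, `j ≤ R`, and `k + j - i ≤ 2R`).  If `j = i+1` the last vertex is `p[k]`
and `k ≥ i+2` (because `p[i+1] ≠ q[i+1] = p[k]`); in general the position of `p[i]` counted from the end is `m-1-i ≥ 2`: this is
`(k-i) + (j-i) - 1 ≥ 2` since `k = j = i+1` would give `p[i+1] = q[i+1]`. The list `s` is the reverse of this list: `s[0]` is its last vertex,
`s[m-1-i] = p[i]`, `s.getLast? = p[0] = v`. (Organise the proof as you like, e.g. by induction on the common prefix: if `p = v :: p'`,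
`q = v :: q'` and `p'`, `q'` start with the same vertex, recurse on `p', q'` and add `v` at the end of `s`.) -/
def S_notUP : Prop :=
  ∀ (V : Type) [Fintype V] (G : SimpleGraph V) (R : ℕ) (v : V), ¬ UP G R v →
    ∃ m i, m ≤ 2 * R ∧ 2 ≤ i ∧ i < m ∧ ∃ s ∈ lol G m i, s.getLast? = some v

/-- **nbcount** (M). A cubic graph has exactly `3 n 2^t` nonbacktracking walks of length `t + 1`.

Proof. Induction on `t`. `t = 0`: lists `[x, y]` with `G.Adj x y`: `∑_x deg = 3n`. Step: `z :: x :: y :: l` with `x :: y :: l` a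
nonbacktracking walk, `G.Adj z x`, `z ≠ y`: for each `x :: y :: l` exactly two `z` (the neighbours of `x` other than `y`). -/
def S_nbcount : Prop :=
  ∀ (V : Type) [Fintype V] (G : SimpleGraph V), G ∈ cub V → ∀ t : ℕ,
    (nb G (t + 1)).card = 3 * Fintype.card V * 2 ^ t

/-- **nbdec** (M). Nonbacktracking walks that are not paths contain a lollipop.

Proof. `bad L` := `(nb G L)` filtered by `¬ Nodup`. Then `nb G L ⊆ paths G L ∪ bad L`, and `bad 0 = ∅`,
`|bad (L+1)| ≤ 2 |bad L| + ∑_{i ∈ Ico 2 (L+1)} |lol G (L+1) i|`: let `x :: l ∈ bad (L+1)`. If `l` is not nodup then `l ∈ bad L`, so `l` has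
at least two vertices (`l = y :: z :: l'`), and `x` is a neighbour of `y` other than `z`: at most two choices. If `l` is
nodup then `x ∈ l`, say `x = l[i]`, `i < L+1`; `i ≠ 0` since `G.Adj x l[0]`, `i ≠ 1` by `NBk`; so `l ∈ lol G (L+1) i` and `x = l[i]` is determined by
`l` and `i`. Now induction on `L`. -/
def S_nbdec : Prop :=
  ∀ (V : Type) [Fintype V] (G : SimpleGraph V), G ∈ cub V → ∀ L : ℕ,
    (nb G L).card ≤ (paths G L).card +
      ∑ m ∈ range (L + 1), ∑ i ∈ Ico 2 m, (lol G m i).card * 2 ^ (L - m)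

/-! ## Pairs of paths -/

/-- one step of the weight, for a fixed list `P`: `1` for an edge of `P`, otherwise `1/n` or `2/n` -/
noncomputable def w1 {V : Type} [Fintype V] (P : List V) (x y : V) : ℝ :=
  if s(x, y) ∈ cE P then 1 else (if x ∈ P then 1 else 2) / (Fintype.card V : ℝ)

/-- the weight of a list `P'` -/
noncomputable def W {V : Type} [Fintype V] (P : List V) : List V → ℝ
  | x :: y :: t => w1 P x y * W P (y :: t)
  | _ => 1

/-- the generating function of nonbacktracking walks of length `l` from `x` to `z`, first step not to `f` -/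
noncomputable def aW {V : Type} [Fintype V] (P : List V) (z : V) : ℕ → V → Option V → ℝ
  | 0, x, _ => if x = z then 1 else 0
  | l + 1, x, f => ∑ y ∈ univ.filter (fun y => some y ≠ f), w1 P x y * aW P z l y (some x)

/-- **wt** (M). Induction on `P'`, with the stronger left side where `(vs ..).card` is replaced by
`(P.toFinset ∪ P'.toFinset).card` (use `vs_union`, `vs_cE_subset` at the end).

Base `P' = [z]`, `z ∈ P`: `P.toFinset.card ≤ P.length`, `cE [z] = ∅`, `(cE P).card = P.length - 1` (`card_cE`), `W = 1`.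
Step `P' = x :: y :: t`: if `s(x,y) ∈ cE P` then `x ∈ P` and neither of the two sets changes, `w1 = 1`. If `s(x,y) ∉ cE P` then also
`s(x,y) ∉ cE (y :: t)` (as `x ∉ y :: t`), so the number of edges increases by one, and the number of vertices increases by one iff
`x ∉ P`. -/
def S_wt : Prop :=
  ∀ (V : Type) [Fintype V] (P P' : List V), P.Nodup → P'.Nodup → P ≠ [] →
    (∃ z ∈ P, P'.getLast? = some z) →
    (2 : ℝ) ^ (vs (cE P ∪ cE P')).card / (Fintype.card V : ℝ) ^ (cE P ∪ cE P').card ≤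
      2 ^ P.length / (Fintype.card V : ℝ) ^ (P.length - 1) * W P P'

/-- **dom** (M). Induction on `l`, generalising `x` and `f`.

`l = 0`: the only list is `[x]`, and only if `x = z`. Step: a list `x :: y :: t` (length `l + 2`), nodup, last vertex `z`, second vertex `y`
with `some y ≠ f`; `W P (x :: y :: t) = w1 P x y * W P (y :: t)`, and the tail `y :: t` is nodup, starts at `y`, ends at `z`, and its
second vertex is not `x`. So the sum is at most `∑_{y, some y ≠ f} w1 P x y * (sum for (l, y, some x))`. (All terms are `≥ 0`.) -/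
def S_dom : Prop :=
  ∀ (V : Type) [Fintype V] (P : List V) (z : V) (l : ℕ) (x : V) (f : Option V),
    ∑ P' ∈ (lists V (l + 1)).filter (fun P' => P'.Nodup ∧ P'.head? = some x ∧
      P'.getLast? = some z ∧ ∀ y, P'[1]? = some y → some y ≠ f), W P P' ≤ aW P z l x f

/-- **abd** (L). Let `P = [p_0, ..., p_p]` nodup (length `p+1`), `z = p_p`, `n = Fintype.card V > 0`, `T l := ∑_y aW P z l y none`,
`β 0 := 0`, `β (l+1) := T l / n`. Everything is `≥ 0` and `aW l x f ≤ aW l x none`.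
(1) `x ∉ P`: `aW (l+1) x f ≤ (2/n) T l` (all `w1 = 2/n`, since `s(x,y) ∈ cE P` would give `x ∈ P`).
(2) `s(p_j, y) ∈ cE P` implies `y = p_{j+1}` or (`j ≥ 1` and `y = p_{j-1}`) (`mem_cE_iff` and nodup).
(3) Up: if `f = some p_{j-1}` in case `j ≥ 1` (arbitrary `f` if `j = 0`): `aW l p_j f ≤ ∑_{m ≤ l} β m + [j + l = p]`. Induction on `l`: `l = 0`: `[p_j = z] = [j = p]`.
 `l + 1`: the steps `y` not along `P` contribute at most `(1/n) T l = β (l+1)`, the only possible step along `P` is to `p_{j+1}`, and contributes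
 `aW l p_{j+1} (some p_j) ≤ ∑_{m ≤ l} β m + [j + 1 + l = p]`.
(4) Down: if `f = some p_{j+1}` (`j < p`): `aW l p_j f ≤ ∑_{m ≤ l} β m` (induction on `l`; for `l = 0`: `p_j ≠ z` as `j < p`; the only possible step along `P` is to
 `p_{j-1}`, with `f' = some p_j`).
(5) Hence `aW l p_j none ≤ 2 ∑_{m ≤ l} β m + [j + l = p]` (steps off `P`: `β l`; up: `∑_{m<l} β m + [j+l = p]`, down: `∑_{m<l} β m`; for `l = 0` directly).
(6) `T 0 = 1` and, for `l ≥ 1`, `T l ≤ 2 T (l-1) + 2 (p+1) ∑_{m ≤ l} β m + 1 = 2 T (l-1) + 1 + (2(p+1)/n) ∑_{m<l} T m` (sum (1) over `x ∉ P` and (5) over `j`).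
(7) With `δ = 6(p+1)/n` and `(q+1) δ ≤ 1`: by strong induction `T l ≤ 2^l (2 + l δ) - 1 ≤ 3 * 2^l` for `l ≤ q`
 (`2 (2^(l-1) (2 + (l-1)δ) - 1) + 1 + (2(p+1)/n) * 3 * 2^l = 2^l (2 + lδ) - 1`).
(8) By (5) for `j = 0`, `l = q`: `aW q p_0 none ≤ (2/n) ∑_{m<q} T m + [q = p] ≤ 6 * 2^q / n + [q = p]`. -/
def S_abd : Prop :=
  ∀ (V : Type) [Fintype V] (P : List V) (x z : V) (q : ℕ), P.Nodup → P.head? = some x →
    P.getLast? = some z → 6 * P.length * (q + 1) ≤ Fintype.card V →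
    aW P z q x none ≤ 6 * 2 ^ q / (Fintype.card V : ℝ) + (if P.length = q + 1 then 1 else 0)

/-- **pairE** (M): prove `p_pairE : S_nn → S_wt → S_dom → S_abd → S_pairE`. (G-d)

Proof. `∑_v SS G p q v` is the number of pairs `(P, P') ∈ paths G p ×ˢ paths G q` with the same head and the same last vertex. Sum over `G ∈ cub V`
and exchange: `∑_{(P,P')} #{G ∈ cub V | P, P' paths of G} = ∑_{(P,P')} NN (cE P ∪ cE P')` over pairs of nodup lists of lengths `p+1`, `q+1` with the
same head and same last (`chain_iff`, `mem_paths`). `(cE P ∪ cE P').card ≤ p + q`, so `S_nn` applies (monotonicity of `2m(m+26)`):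
`NN ≤ 2 |cub| 2^{|vs|} / n^{|..|} ≤ 2 |cub| * 2^{p+1} / n^p * W P P'` by `S_wt`. For fixed `P` (head `x`, last `z`) the sum of `W P P'` over `P'` is at most
`aW P z q x none ≤ 6 * 2^q / n + [p = q]` by `S_dom`, `S_abd`. There are at most `n^(p+1)` lists `P`. Total
`n^(p+1) * 2 |cub| * 2^(p+1) / n^p * (6 * 2^q / n + [p = q]) = 4 * 2^p |cub| (6 * 2^q + n [p = q])`. (`n > 0` from the hypothesis.) -/
def S_pairE : Prop :=
  ∀ (V : Type) [Fintype V] (p q : ℕ), 6 * (p + 1) * (q + 1) ≤ Fintype.card V →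
    2 * (p + q) * (p + q + 26) ≤ 3 * Fintype.card V →
    (∑ G ∈ cub V, ∑ v, (SS G p q v : ℝ)) ≤
      4 * 2 ^ p * (6 * 2 ^ q + (if p = q then (Fintype.card V : ℝ) else 0)) * ((cub V).card : ℝ)

/-- **t5c** (L). Fix `t1 < t2 ≤ L` with `t1 + R < t2`. The number of `Q ∈ paths G L` with `dist(Q[t1], Q[t2]) ≤ r` is at most
`∑_{l ≤ r} 4 * 2^(L-(t2-t1)) ∑_v SS G (t2-t1) l v`.

Proof. Map `Q` to `(u, B, D, A, C)`: `u = Q[t1]`, `B = Q[t1..t2]` (a path of length `t2 - t1` from `u` to `v := Q[t2]`), `D` a shortest path from `u` to `v`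
(as a vertex list; `u, v` are joined by `B`, so reachable; its length `l = dist u v ≤ r`), `A` = reverse of `Q[0..t1]`, a path of length `t1` from `u`, `C = Q[t2..L]`,
a path of length `L - t2` from `v`. `(B, D)` is counted by `SS G (t2-t1) l u`; given `u, v` there are at most `2^(t1+1)` paths `A` and `2^(L-t2+1)` paths `C`
(number of paths of length `t` from a vertex of a cubic graph is at most `2^(t+1)`; helper15's `Basics.lean` has it, otherwise induction on `t`).
`Q` is determined by `A, B, C`. Product `2^(t1+1) 2^(L-t2+1) = 4 * 2^(L-(t2-t1))`. Then sum over `t1, t2`. -/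
def S_t5c : Prop :=
  ∀ (V : Type) [Fintype V] (G : SimpleGraph V), G ∈ cub V → ∀ L R r : ℕ,
    (∑ Q ∈ paths G L, (((range (L + 1) ×ˢ range (L + 1)).filter fun p =>
        p.1 + R < p.2 ∧ ∃ u v, Q[p.1]? = some u ∧ Q[p.2]? = some v ∧ G.dist u v ≤ r).card : ℝ)) ≤
      ∑ t1 ∈ range (L + 1), ∑ t2 ∈ Ioc (t1 + R) L, ∑ l ∈ range (r + 1),
        4 * 2 ^ (L - (t2 - t1)) * ∑ v, (SS G (t2 - t1) l v : ℝ)

/-! ## Expectations and Markov -/

/-- **num** (helper81): the only asymptotic fact needed: powers of `lam n` times `2^(lam n / 2)` are below `n`. -/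
def S_num : Prop :=
  ∀ c d : ℕ, ∀ᶠ n : ℕ in Filter.atTop, c * (lam n + 1) ^ d * 2 ^ (lam n / 2) ≤ n ∧ c ≤ lam n

/-- the graph `G` on `V` violates (t1), ... -/
def T1 {V : Type} [Fintype V] (G : SimpleGraph V) : Prop :=
  ((univ.filter fun v => ¬ UP G (R0 (Fintype.card V)) v).card : ℝ) ≤
    (Fintype.card V : ℝ) / (lam (Fintype.card V) : ℝ) ^ 4

/-- (t2) -/
def T2 {V : Type} [Fintype V] (C2 : ℝ) (G : SimpleGraph V) : Prop :=
  (∑ v, (SS G (LL (Fintype.card V)) (LL (Fintype.card V)) v : ℝ)) ≤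
    C2 * 2 ^ (2 * LL (Fintype.card V))

/-- (t3) -/
def T3 {V : Type} [Fintype V] (G : SimpleGraph V) : Prop :=
  ∀ t ≤ LL (Fintype.card V), (∑ v, (SS G t t v : ℝ)) ≤
    (lam (Fintype.card V) : ℝ) ^ 3 * Fintype.card V * (2 ^ t + 2 ^ (2 * t) / Fintype.card V)

/-- (t4) -/
def T4 {V : Type} [Fintype V] (G : SimpleGraph V) : Prop :=
  (5 / 4 : ℝ) * Fintype.card V * 2 ^ LL (Fintype.card V) ≤ (paths G (LL (Fintype.card V))).card

/-- (t5) -/
def T5 {V : Type} [Fintype V] (G : SimpleGraph V) : Prop :=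
  (∑ Q ∈ paths G (LL (Fintype.card V)),
      (((range (LL (Fintype.card V) + 1) ×ˢ range (LL (Fintype.card V) + 1)).filter fun p =>
        p.1 + R1 (Fintype.card V) < p.2 ∧ ∃ u v, Q[p.1]? = some u ∧ Q[p.2]? = some v ∧
          G.dist u v ≤ rn (Fintype.card V)).card : ℝ)) ≤
    (Fintype.card V : ℝ) * 2 ^ LL (Fintype.card V) / lam (Fintype.card V)

/-- at most one twentieth of the cubic graphs violate `T`, if `n` is large -/
def Rare (T : ∀ (V : Type) [Fintype V], SimpleGraph V → Prop) : Prop :=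
  ∃ n0 : ℕ, ∀ (V : Type) [Fintype V], n0 ≤ Fintype.card V →
    (((cub V).filter fun G => ¬ T V G).card : ℝ) ≤ (1 / 20) * ((cub V).card : ℝ)

/-- **E1** (M): prove `p_E1 : S_num → S_lolE → S_notUP → S_E1`.

Proof. `n = card V` large, `λ = lam n`, `R = R0 n = λ/5`. For each `G`, `#{v | ¬ UP G R v} ≤ ∑_{m ≤ 2R} ∑_{i ∈ Ico 2 m} |lol G m i|` (by `S_notUP`; the last
vertex of a lollipop determines `v`). Sum over `G ∈ cub V` and use `S_lolE` (its hypothesis `2m(m+26) ≤ 3n` for `m ≤ 2R ≤ λ` follows from `S_num`):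
`∑_G #{..} ≤ (2R+1)^2 * 2 * 2^(2R) |cub| ≤ 2 (λ+1)^2 2^(λ/2) |cub|` (`2 * (λ/5) ≤ λ/2`). Markov: a graph violating (t1) contributes at least
`n / λ^4`. So `#bad ≤ 2 (λ+1)^2 2^(λ/2) λ^4 / n * |cub| ≤ |cub| / 20` because `40 (λ+1)^6 2^(λ/2) ≤ n` (`S_num` with `c = 40`, `d = 6`). -/
def S_E1 : Prop := Rare fun _ _ G => T1 G

/-- **E23** (M): prove `p_E23 : S_num → S_pairE → S_E23`.

Proof. `L = LL n = 3λ + 3`. (t2): `S_pairE` with `p = q = L` (hypotheses: `6(L+1)^2 ≤ n`, `4L(2L+26) ≤ 3n` from `S_num`): `∑_G ∑_v SS ≤ 4 * 2^L (6 * 2^L + n) |cub| ≤ 28 * 2^(2L) |cub|`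
(`n ≤ 2^L` as `n < 2^(λ+1)`: `Nat.lt_pow_succ_log_self`). Markov with `C2 = 560`: `#bad * 560 * 2^(2L) ≤ 28 * 2^(2L) |cub|`.
(t3): for each `t ≤ L`, `S_pairE` with `p = q = t`: `∑_G ∑_v SS G t t v ≤ 4 * 2^t (6 * 2^t + n) |cub| ≤ 24 n (2^t + 2^(2t)/n) |cub|`, so at most `24/λ^3 |cub|` graphs violate (t3) at `t`;
sum over the `L + 1 = 3λ + 4` values of `t`: `24 (3λ+4) / λ^3 ≤ 1/20` for `λ` large (`S_num` gives `c ≤ lam n`). -/
def S_E23 : Prop := (Rare fun _ _ G => T2 560 G) ∧ Rare fun _ _ G => T3 G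

/-- **E4** (M): prove `p_E4 : S_num → S_lolE → S_nbcount → S_nbdec → S_E4`.

Proof. `L = 3λ + 3 ≥ 3`. For `G ∈ cub V`: `3 n 2^(L-1) = |nb G L| ≤ |paths G L| + X_G`, `X_G = ∑_{m ≤ L} ∑_{i ∈ Ico 2 m} |lol G m i| 2^(L-m)`. A graph violating (t4) has
`X_G > 3n 2^(L-1) - (5/4) n 2^L = n 2^L / 4`. `∑_G X_G ≤ ∑_m ∑_i 2 * 2^m * 2^(L-m) |cub| ≤ 2 (L+1)^2 2^L |cub|` (`S_lolE`; hypothesis from `S_num`). Markov:
`#bad ≤ 8 (L+1)^2 / n |cub| ≤ |cub| / 20` by `S_num` (`160 (3λ+4)^2 ≤ n`). -/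
def S_E4 : Prop := Rare fun _ _ G => T4 G

/-- **E5** (M): prove `p_E5 : S_num → S_pairE → S_t5c → S_E5`.

Proof. Sum `S_t5c` (with `L = LL n`, `R = R1 n`, `r = rn n`) over `G ∈ cub V`. For `t1 + R < t2 ≤ L`, `l ≤ r ≤ R` we have `t2 - t1 ≠ l` (`rn n ≤ R1 n`), so `S_pairE` (hypotheses from `S_num`)
gives `∑_G ∑_v SS G (t2-t1) l v ≤ 24 * 2^(t2-t1) 2^l |cub|`. Hence `∑_G (left side of T5) ≤ ∑_{t1,t2,l} 96 * 2^L 2^l |cub| ≤ 96 (L+1)^2 (r+1) 2^r 2^L |cub|`. Markov: a graph violating (t5)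
contributes at least `n 2^L / λ`; `#bad ≤ 96 (L+1)^2 (r+1) 2^r λ / n |cub| ≤ |cub|/20` by `S_num` (`r ≤ λ/2`, `r + 1 ≤ λ + 1`, `L + 1 ≤ 4 (λ+1)`). -/
def S_E5 : Prop := Rare fun _ _ G => T5 G

/-- **conn** (helper58, G-e) -/
def S_conn : Prop :=
  ∀ᶠ j : ℕ in Filter.atTop, 0 < (cub (Fin (2 * j))).card ∧
    (((cub (Fin (2 * j))).filter fun G => ¬ G.Connected).card : ℝ) ≤
      (1 / 10) * ((cub (Fin (2 * j))).card : ℝ)

end Pool.Agent.Lib.MP_fce888_co.G
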